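import Pool.Agent.H314.BK.C3

/-! The function `ρ(z) = √(1+|z|²)` on `ℂⁿ`, integrability of `e^{-aρ}`. -/

set_option autoImplicit false

open MeasureTheory Complex Filter Topology Metric
open scoped ContDiff ComplexConjugate

namespace Pool.Agent.TH239.CE

open BK

variable {n : ℕ}

noncomputable def rh (z : En n) : ℝ := Real.sqrt (1 + ∑ j, ‖z j‖ ^ 2)

theorem rh_arg_pos (z : En n) : 0 < 1 + ∑ j, ‖z j‖ ^ 2 := by
  have : 0 ≤ ∑ j, ‖z j‖ ^ 2 := Finset.sum_nonneg fun j _ => sq_nonneg _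
  linarith

theorem rh_sq (z : En n) : rh z ^ 2 = 1 + ∑ j, ‖z j‖ ^ 2 := Real.sq_sqrt (rh_arg_pos z).le

theorem rh_one_le (z : En n) : 1 ≤ rh z := by
  unfold rh
  rw [Real.one_le_sqrt]
  have : 0 ≤ ∑ j, ‖z j‖ ^ 2 := Finset.sum_nonneg fun j _ => sq_nonneg _
  linarith

theorem rh_pos (z : En n) : 0 < rh z := by linarith [rh_one_le z]

theorem rh_contDiff : ContDiff ℝ ∞ (rh : En n → ℝ) := by
  unfold rh
  apply ContDiff.sqrt
  · apply contDiff_const.add
    apply ContDiff.sum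
    intro j _
    exact (contDiff_apply ℝ ℂ j).norm_sq ℝ
  · intro x
    exact (rh_arg_pos x).ne'

theorem rh_continuous : Continuous (rh : En n → ℝ) := rh_contDiff.continuous

theorem norm_le_rh (z : En n) : ‖z‖ ≤ rh z := by
  rw [pi_norm_le_iff_of_nonneg (rh_pos z).le]
  intro j
  apply Real.le_sqrt_of_sq_le
  have := Finset.single_le_sum (f := fun j => ‖z j‖ ^ 2) (fun i _ => sq_nonneg _) (Finset.mem_univ j)
  linarith

/-- the euclidean norm -/
noncomputable def eu (z : En n) : ℝ := ‖(WithLp.toLp 2 z : EuclideanSpace ℂ (Fin n))‖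

theorem eu_sq (z : En n) : eu z ^ 2 = ∑ j, ‖z j‖ ^ 2 := by
  unfold eu
  rw [EuclideanSpace.norm_sq_eq]

theorem eu_nonneg (z : En n) : 0 ≤ eu z := norm_nonneg _

theorem eu_add (z w : En n) : eu (z + w) ≤ eu z + eu w := by
  unfold eu
  rw [WithLp.toLp_add]
  exact norm_add_le _ _

theorem eu_smul (l : ℂ) (z : En n) : eu (l • z) = ‖l‖ * eu z := by
  unfold eu
  rw [WithLp.toLp_smul, norm_smul]

theorem eu_le (z : En n) : eu z ≤ n * ‖z‖ := by
  have h1 : eu z ^ 2 ≤ (n * ‖z‖) ^ 2 := by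
    rw [eu_sq]
    calc ∑ j, ‖z j‖ ^ 2 ≤ ∑ _j : Fin n, ‖z‖ ^ 2 :=
          Finset.sum_le_sum fun j _ => pow_le_pow_left₀ (norm_nonneg _) (norm_le_pi_norm z j) 2
      _ = n * ‖z‖ ^ 2 := by simp
      _ ≤ (n * ‖z‖) ^ 2 := by
          rw [mul_pow]
          apply mul_le_mul_of_nonneg_right _ (sq_nonneg _)
          exact_mod_cast Nat.le_self_pow two_ne_zero n
  exact le_of_sq_le_sq h1 (by positivity)

theorem rh_eq (z : En n) : rh z = Real.sqrt (1 + eu z ^ 2) := by
  unfold rh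
  rw [eu_sq]

theorem eu_le_rh (z : En n) : eu z ≤ rh z := by
  rw [rh_eq]
  apply Real.le_sqrt_of_sq_le
  linarith

theorem rh_le (z : En n) : rh z ≤ 1 + eu z := by
  rw [rh_eq, Real.sqrt_le_left (by have := eu_nonneg z; linarith)]
  have := eu_nonneg z
  nlinarith

theorem sqrt_add_aux (a b : ℝ) (hb : 0 ≤ b) :
    Real.sqrt (1 + (a + b) ^ 2) ≤ Real.sqrt (1 + a ^ 2) + b := by
  have h1 : 0 ≤ Real.sqrt (1 + a ^ 2) := Real.sqrt_nonneg _
  rw [Real.sqrt_le_left (by linarith)]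
  have h2 : a ≤ Real.sqrt (1 + a ^ 2) := Real.le_sqrt_of_sq_le (by linarith)
  have h3 : Real.sqrt (1 + a ^ 2) ^ 2 = 1 + a ^ 2 := Real.sq_sqrt (by positivity)
  nlinarith

theorem rh_add_le (z w : En n) : rh (z + w) ≤ rh z + eu w := by
  rw [rh_eq, rh_eq]
  refine le_trans ?_ (sqrt_add_aux _ _ (eu_nonneg w))
  apply Real.sqrt_le_sqrt
  have := eu_add z w
  have h2 := eu_nonneg (z + w)
  have : eu (z + w) ^ 2 ≤ (eu z + eu w) ^ 2 := pow_le_pow_left₀ h2 this 2
  linarith

theorem rh_smul_two (l : ℂ) (hl : ‖l‖ = 2) (z : En n) : rh (l • z) ≤ 2 * rh z := by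
  have h := rh_pos z
  rw [rh_eq, eu_smul, hl, Real.sqrt_le_left (by linarith)]
  have := rh_sq z
  rw [← eu_sq] at this
  nlinarith

theorem exp_neg_le (a : ℝ) (ha : 0 < a) (k : ℕ) (t : ℝ) (ht : 0 ≤ t) :
    Real.exp (-a * t) ≤ Real.exp a * k.factorial / a ^ k * (1 + t) ^ (-(k : ℝ)) := by
  have h1 := Real.pow_div_factorial_le_exp (a * (1 + t)) (by positivity) k
  rw [Real.rpow_neg (by positivity), Real.rpow_natCast]
  have h2 : 0 < (k.factorial : ℝ) := by positivity
  have h3 : Real.exp (-a * t) = Real.exp a / Real.exp (a * (1 + t)) := by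
    rw [← Real.exp_sub]; congr 1; ring
  rw [h3, div_le_iff₀ (Real.exp_pos _)]
  have h4 : 1 ≤ (k.factorial / (a * (1 + t)) ^ k) * Real.exp (a * (1 + t)) := by
    rw [div_mul_eq_mul_div, le_div_iff₀ (by positivity)]
    rw [div_le_iff₀ h2] at h1
    linarith
  calc Real.exp a = Real.exp a * 1 := by ring
    _ ≤ Real.exp a * ((k.factorial / (a * (1 + t)) ^ k) * Real.exp (a * (1 + t))) :=
        mul_le_mul_of_nonneg_left h4 (Real.exp_pos _).le
    _ = _ := by
        rw [mul_pow]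
        field_simp

theorem int_exp_norm (a : ℝ) (ha : 0 < a) :
    Integrable (fun x : En n => Real.exp (-a * ‖x‖)) := by
  have h1 : Integrable (fun x : En n => (1 + ‖x‖) ^ (-((2 * n + 1 : ℕ) : ℝ))) := by
    apply integrable_one_add_norm
    have : Module.finrank ℝ (En n) = 2 * n := by
      rw [Module.finrank_pi_fintype]
      simp [Complex.finrank_real_complex, mul_comm]
    rw [this]
    exact_mod_cast Nat.lt_succ_self _
  refine (h1.const_mul (Real.exp a * (2 * n + 1).factorial / a ^ (2 * n + 1))).mono'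
    (by fun_prop) (Eventually.of_forall fun x => ?_)
  rw [Real.norm_of_nonneg (Real.exp_pos _).le]
  exact exp_neg_le a ha (2 * n + 1) ‖x‖ (norm_nonneg _)

theorem int_exp_rh (a : ℝ) (ha : 0 < a) : Integrable (fun x : En n => Real.exp (-a * rh x)) := by
  refine (int_exp_norm (n := n) a ha).mono' (by
    exact (Real.continuous_exp.comp (continuous_const.mul rh_continuous)).aestronglyMeasurable)
    (Eventually.of_forall fun x => ?_)
  rw [Real.norm_of_nonneg (Real.exp_pos _).le]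
  apply Real.exp_le_exp.2
  have := norm_le_rh x
  nlinarith

theorem rh_exp_le (a : ℝ) (ha : 0 < a) (t : ℝ) : t * Real.exp (-(2 * a) * t) ≤ 1 / a * Real.exp (-a * t) := by
  have h1 : a * t ≤ Real.exp (a * t) := by
    have := Real.add_one_le_exp (a * t)
    linarith
  have h2 : t ≤ 1 / a * Real.exp (a * t) := by
    rw [div_mul_eq_mul_div, le_div_iff₀ ha, one_mul]
    linarith
  calc t * Real.exp (-(2 * a) * t) ≤ (1 / a * Real.exp (a * t)) * Real.exp (-(2 * a) * t) :=
        mul_le_mul_of_nonneg_right h2 (Real.exp_pos _).le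
    _ = 1 / a * Real.exp (-a * t) := by
        rw [mul_assoc, ← Real.exp_add]
        congr 2
        ring

end Pool.Agent.TH239.CE
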