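import Pool.Agent.H314.BK.C2
import Pool.Agent.TH239.CE.Rh

/-! Weyl's lemma on `ℂⁿ`; pointwise bounds for entire functions with weighted `L²` bounds. -/

set_option autoImplicit false

open MeasureTheory Complex Filter Topology Metric
open scoped ContDiff ComplexConjugate InnerProductSpace

namespace Pool.Agent.TH239.CE

open BK

variable {n : ℕ}

theorem weyl_univ (f : En n → ℂ)
    (hf : ∀ R : ℝ, MemLp f 2 ((volume : Measure (En n)).restrict (ball (0 : En n) R)))
    (hw : ∀ (j : Fin n) ρ, IsTest Set.univ ρ → ∫ x, f x * dbar j ρ x = 0) :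
    ∃ G : En n → ℂ, Differentiable ℂ G ∧ f =ᵐ[volume] G := by
  have hk : ∀ k : ℕ, ∃ g : En n → ℂ, DifferentiableOn ℂ g (ball (0 : En n) (k + 1)) ∧
      f =ᵐ[(volume : Measure (En n)).restrict (ball (0 : En n) (k + 1))] g := by
    intro k
    have hc := (hf (k + 1)).coeFn_toLp
    have h1 := (BK.JC2.weyl (ball (0 : En n) (k + 1)) isOpen_ball isBounded_ball
      ((hf (k + 1)).toLp f)).1 (by
        intro j φ hφ
        have h2 : ∫ x in ball (0 : En n) (k + 1), ((hf (k + 1)).toLp f) x * dbar j φ x =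
            ∫ x in ball (0 : En n) (k + 1), f x * dbar j φ x := by
          apply integral_congr_ae
          filter_upwards [hc] with x hx
          rw [hx]
        have h3 : ∫ x in ball (0 : En n) (k + 1), f x * dbar j φ x = ∫ x, f x * dbar j φ x := by
          refine setIntegral_eq_integral_of_forall_compl_eq_zero fun x hx => ?_
          have h4 : fderiv ℝ φ x = 0 :=
            fderiv_of_notMem_tsupport (𝕜 := ℝ) (fun h => hx (hφ.supp h))
          simp [dbar, h4]
        have h5 : ∫ x in ball (0 : En n) (k + 1),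
            (0 : Form (ball (0 : En n) (k + 1))) j x * φ x = 0 := by
          have h6 : ((0 : Form (ball (0 : En n) (k + 1))) j : En n → ℂ)
              =ᵐ[(volume : Measure (En n)).restrict (ball (0 : En n) (k + 1))] 0 :=
            Lp.coeFn_zero ℂ 2 _
          apply integral_eq_zero_of_ae
          filter_upwards [h6] with x hx
          rw [hx]
          simp
        rw [h2, h3, h5, neg_zero]
        exact hw j φ ⟨hφ.smooth, hφ.compact, Set.subset_univ _⟩)
    obtain ⟨g, hg, hg2⟩ := h1
    exact ⟨g, hg, hc.symm.trans hg2⟩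
  choose g hg hfg using hk
  have huniq : ∀ k m : ℕ, k ≤ m → ∀ x ∈ ball (0 : En n) (k + 1), g k x = g m x := by
    intro k m hkm
    have hsub : ball (0 : En n) (k + 1) ⊆ ball (0 : En n) (m + 1) := by
      apply ball_subset_ball
      have : (k : ℝ) ≤ m := by exact_mod_cast hkm
      linarith
    have h1 : g k =ᵐ[(volume : Measure (En n)).restrict (ball (0 : En n) (k + 1))] g m := by
      have h2 : f =ᵐ[(volume : Measure (En n)).restrict (ball (0 : En n) (k + 1))] g m :=
        ae_restrict_of_ae_restrict_of_subset hsub (hfg m)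
      exact (hfg k).symm.trans h2
    exact Measure.eqOn_open_of_ae_eq h1 isOpen_ball (hg k).continuousOn
      ((hg m).continuousOn.mono hsub)
  have huniq2 : ∀ k m : ℕ, ∀ x ∈ ball (0 : En n) (k + 1), x ∈ ball (0 : En n) (m + 1) →
      g k x = g m x := by
    intro k m x hx hx'
    rcases le_total k m with h | h
    · exact huniq k m h x hx
    · exact (huniq m k h x hx').symm
  have hmem : ∀ x : En n, x ∈ ball (0 : En n) ((⌈‖x‖⌉₊ : ℕ) + 1) := by
    intro x
    rw [mem_ball_zero_iff]
    have := Nat.le_ceil ‖x‖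
    linarith
  refine ⟨fun x => g ⌈‖x‖⌉₊ x, ?_, ?_⟩
  · intro x
    have h1 : (fun x => g ⌈‖x‖⌉₊ x) =ᶠ[𝓝 x] g ⌈‖x‖⌉₊ := by
      have h2 : ball (0 : En n) ((⌈‖x‖⌉₊ : ℕ) + 1) ∈ 𝓝 x := isOpen_ball.mem_nhds (hmem x)
      filter_upwards [h2] with y hy
      exact huniq2 _ _ y (hmem y) hy
    exact ((hg _).differentiableAt (isOpen_ball.mem_nhds (hmem x))).congr_of_eventuallyEq h1
  · have h1 : ∀ᵐ x : En n, ∀ k : ℕ, x ∈ ball (0 : En n) (k + 1) → f x = g k x := by
      rw [ae_all_iff]
      intro k
      rw [← ae_restrict_iff' measurableSet_ball]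
      exact hfg k
    filter_upwards [h1] with x hx
    exact hx _ (hmem x)

/-- pointwise bound from a weighted `L²` bound -/
theorem pt_bound (G : En n → ℂ) (hG : Differentiable ℂ G) (a : ℝ) (ha : 0 ≤ a)
    (hi : Integrable (fun x => ‖G x‖ ^ 2 * Real.exp (-(2 * a) * rh x))) :
    ∃ C : ℝ, 0 ≤ C ∧ ∀ z, ‖G z‖ ≤ C * Real.exp (a * rh z) := by
  obtain ⟨M, hM⟩ := (isCompact_closedBall (0 : En n) 1).exists_bound_of_continuousOn
    (BK.JC2.rho_contDiff (n := n) 1).continuous.continuousOn
  have hM0 : 0 ≤ M := (norm_nonneg _).trans (hM 0 (by simp))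
  set J := ∫ x, ‖G x‖ ^ 2 * Real.exp (-(2 * a) * rh x) with hJ
  have hJ0 : 0 ≤ J := integral_nonneg fun x => by positivity
  -- the sub mean value property
  have key : ∀ z, ‖G z‖ ^ 2 ≤ M * Real.exp (2 * a * n) * J * Real.exp (2 * a * rh z) := by
    intro z
    have h1 := BK.JC2.wMV G z 1 one_pos (fun y _ => hG y)
    have hcG : Continuous G := hG.continuous
    have hr : Continuous (BK.JC2.rho 1 : En n → ℝ) := (BK.JC2.rho_contDiff (n := n) 1).continuous
    have hrc := BK.JC2.rho_compact (n := n) one_pos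
    have hri : Integrable (fun w : En n => BK.JC2.rho 1 w) := hr.integrable_of_hasCompactSupport hrc
    have hri2 : Integrable (fun w : En n => BK.JC2.rho 1 w * ‖G (z - w)‖) :=
      (hr.mul (hcG.comp (continuous_const.sub continuous_id)).norm).integrable_of_hasCompactSupport
        hrc.mul_right
    have hri3 : Integrable (fun w : En n => BK.JC2.rho 1 w * ‖G (z - w)‖ ^ 2) :=
      (hr.mul ((hcG.comp (continuous_const.sub continuous_id)).norm.pow
        2)).integrable_of_hasCompactSupport hrc.mul_right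
    have h2 : ‖G z‖ ≤ ∫ w : En n, BK.JC2.rho 1 w * ‖G (z - w)‖ := by
      rw [← h1]
      refine (norm_integral_le_integral_norm _).trans (le_of_eq ?_)
      congr 1
      funext w
      rw [norm_smul, Real.norm_of_nonneg (BK.JC2.rho_nonneg one_pos w)]
    -- Cauchy-Schwarz
    have h3 : (∫ w : En n, BK.JC2.rho 1 w * ‖G (z - w)‖) ^ 2 ≤
        ∫ w : En n, BK.JC2.rho 1 w * ‖G (z - w)‖ ^ 2 := by
      set m := ∫ w : En n, BK.JC2.rho 1 w * ‖G (z - w)‖ with hm
      have h4 : 0 ≤ ∫ w : En n, BK.JC2.rho 1 w * (‖G (z - w)‖ - m) ^ 2 :=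
        integral_nonneg fun w => mul_nonneg (BK.JC2.rho_nonneg one_pos w) (sq_nonneg _)
      have h5 : ∫ w : En n, BK.JC2.rho 1 w * (‖G (z - w)‖ - m) ^ 2 =
          (∫ w : En n, BK.JC2.rho 1 w * ‖G (z - w)‖ ^ 2) - 2 * m * m + m ^ 2 := by
        have h6 : ∀ w : En n, BK.JC2.rho 1 w * (‖G (z - w)‖ - m) ^ 2 =
            (BK.JC2.rho 1 w * ‖G (z - w)‖ ^ 2 - 2 * m * (BK.JC2.rho 1 w * ‖G (z - w)‖)) +
              m ^ 2 * BK.JC2.rho 1 w := fun w => by ring
        simp_rw [h6]
        have e1 := integral_add (μ := (volume : Measure (En n)))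
          (f := fun w => BK.JC2.rho 1 w * ‖G (z - w)‖ ^ 2 - 2 * m * (BK.JC2.rho 1 w * ‖G (z - w)‖))
          (g := fun w => m ^ 2 * BK.JC2.rho 1 w) (hri3.sub (hri2.const_mul (2 * m)))
          (hri.const_mul _)
        rw [e1, integral_sub hri3 (hri2.const_mul _), integral_const_mul, integral_const_mul,
          BK.JC2.rho_integral one_pos, mul_one, ← hm]
      rw [h5] at h4
      nlinarith
    have h4 : ∫ w : En n, BK.JC2.rho 1 w * ‖G (z - w)‖ ^ 2 ≤
        M * Real.exp (2 * a * n) * J * Real.exp (2 * a * rh z) := by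
      have h5 : ∀ w : En n, BK.JC2.rho 1 w * ‖G (z - w)‖ ^ 2 ≤
          (M * Real.exp (2 * a * n) * Real.exp (2 * a * rh z)) *
            (‖G (z - w)‖ ^ 2 * Real.exp (-(2 * a) * rh (z - w))) := by
        intro w
        by_cases hw : 1 ≤ ‖w‖
        · rw [BK.JC2.rho_zero_of one_pos w hw, zero_mul]
          positivity
        · push Not at hw
          have h6 : BK.JC2.rho 1 w ≤ M :=
            (le_abs_self _).trans (hM w (by rw [mem_closedBall_zero_iff]; exact hw.le))
          have h7 : rh (z - w) ≤ rh z + n := by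
            have h8 := rh_add_le z (-w)
            have h9 := eu_le (-w)
            rw [norm_neg] at h9
            have h10 : (n : ℝ) * ‖w‖ ≤ n := mul_le_of_le_one_right (Nat.cast_nonneg n) hw.le
            rw [← sub_eq_add_neg] at h8
            linarith
          have h8 : 1 ≤ Real.exp (2 * a * n) * Real.exp (2 * a * rh z) *
              Real.exp (-(2 * a) * rh (z - w)) := by
            rw [← Real.exp_add, ← Real.exp_add]
            apply Real.one_le_exp
            nlinarith
          calc BK.JC2.rho 1 w * ‖G (z - w)‖ ^ 2 ≤ M * ‖G (z - w)‖ ^ 2 * 1 := by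
                rw [mul_one]
                exact mul_le_mul_of_nonneg_right h6 (sq_nonneg _)
            _ ≤ M * ‖G (z - w)‖ ^ 2 * (Real.exp (2 * a * n) * Real.exp (2 * a * rh z) *
                Real.exp (-(2 * a) * rh (z - w))) :=
                mul_le_mul_of_nonneg_left h8 (by positivity)
            _ = _ := by ring
      have h6 : Integrable (fun w : En n => ‖G (z - w)‖ ^ 2 * Real.exp (-(2 * a) * rh (z - w))) :=
        hi.comp_sub_left z
      refine (integral_mono hri3 (h6.const_mul _) h5).trans (le_of_eq ?_)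
      rw [integral_const_mul]
      have h7 : ∫ w : En n, ‖G (z - w)‖ ^ 2 * Real.exp (-(2 * a) * rh (z - w)) = J :=
        integral_sub_left_eq_self (fun x => ‖G x‖ ^ 2 * Real.exp (-(2 * a) * rh x)) _ z
      rw [h7]
      ring
    calc ‖G z‖ ^ 2 ≤ (∫ w : En n, BK.JC2.rho 1 w * ‖G (z - w)‖) ^ 2 :=
          pow_le_pow_left₀ (norm_nonneg _) h2 2
      _ ≤ _ := h3.trans h4
  refine ⟨Real.sqrt (M * Real.exp (2 * a * n) * J), Real.sqrt_nonneg _, fun z => ?_⟩
  apply le_of_sq_le_sq _ (by positivity)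
  refine (key z).trans (le_of_eq ?_)
  rw [mul_pow, Real.sq_sqrt (by positivity), ← Real.exp_nat_mul]
  congr 2
  push_cast
  ring

end Pool.Agent.TH239.CE
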