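import Pool.Agent.TH239.CE.Hor
import Pool.Agent.TH239.CE.Weyl
import Pool.Agent.Helper540.Holo

/-! Approximation of a quotient by entire functions of small exponential type. -/

set_option autoImplicit false

open MeasureTheory Complex Filter Topology Metric
open scoped ContDiff ComplexConjugate InnerProductSpace

namespace Pool.Agent.TH239.CE

open BK BK.JB6

variable {n : ℕ}

/-- the statement on weights which we use -/
def WeightSt (n : ℕ) : Prop := ∀ (χ : En n → ℂ), Differentiable ℂ χ → ∀ (A : ℝ), 1 ≤ A →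
    (∀ z, 1 / 2 * Real.log (1 + ‖χ z‖ ^ 2) ≤ A * rh z) → ∀ (ε : ℝ), 0 < ε → ε ≤ 1 →
    ∃ c : ℝ, 0 < c ∧ ∀ R : ℝ, 1 ≤ R → ∃ p : En n → ℝ, ContDiff ℝ ∞ p ∧ (∀ x, 0 ≤ p x) ∧
      (∀ x a, c * (∑ j, ‖a j‖ ^ 2) ≤ rh x * Lv p x a) ∧
      (∀ x, rh x ≤ R → 1 / 2 * Real.log (1 + ‖χ x‖ ^ 2) + c * rh x ≤ p x) ∧
      (∀ x, p x ≤ 1 / 2 * Real.log (1 + ‖χ x‖ ^ 2) + ε * rh x) ∧
      ∃ M : ℝ, ∀ x, p x ≤ M + 2 * ε * rh x

theorem cs_sum (a b : Fin n → ℂ) : ‖∑ j, a j * conj (b j)‖ ^ 2 ≤
    (∑ j, ‖a j‖ ^ 2) * ∑ j, ‖b j‖ ^ 2 := by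
  have h1 : ‖∑ j, a j * conj (b j)‖ ≤ ∑ j, ‖a j‖ * ‖b j‖ := by
    refine (norm_sum_le _ _).trans (le_of_eq ?_)
    apply Finset.sum_congr rfl
    intro j _
    rw [norm_mul, RCLike.norm_conj]
  calc ‖∑ j, a j * conj (b j)‖ ^ 2 ≤ (∑ j, ‖a j‖ * ‖b j‖) ^ 2 :=
        pow_le_pow_left₀ (norm_nonneg _) h1 2
    _ ≤ _ := Finset.sum_mul_sq_le_sq_mul_sq _ _ _

theorem holo_smooth {χ : En n → ℂ} (hχ : Differentiable ℂ χ) : ContDiff ℝ ∞ χ := by
  have h : ContDiff ℂ ∞ χ := by
    rw [contDiff_infty]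
    intro k
    exact contDiffOn_univ.1 (Pool.Agent.Helper540.contDiffOn_of_differentiableOn isOpen_univ
      (hχ.differentiableOn (s := Set.univ)) k)
  exact h.restrict_scalars ℝ

/-- one step: for every large radius there is an entire function close to `χ` -/
theorem step (hWt : WeightSt n) (φ χ : En n → ℂ) (hφ : Differentiable ℂ φ)
    (hχ : Differentiable ℂ χ) (h : En n → ℝ) (hh : Continuous h) (C0 : ℝ) (hC0 : 0 ≤ C0)
    (hφh : ∀ z, ‖φ z‖ ≤ C0 * Real.exp (h z)) (hψh : ∀ z, ‖φ z * χ z‖ ≤ C0 * Real.exp (h z))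
    (A : ℝ) (hA : 1 ≤ A) (hχA : ∀ z, 1 / 2 * Real.log (1 + ‖χ z‖ ^ 2) ≤ A * rh z)
    (ε : ℝ) (hε : 0 < ε) (hε1 : ε ≤ 1) :
    ∃ K : ℝ, ∀ r : ℝ, 1 ≤ r → ∃ G : En n → ℂ, Differentiable ℂ G ∧
      Integrable (fun z => ‖G z‖ ^ 2 * Real.exp (-(4 * ε) * rh z)) ∧
      Integrable (fun z => ‖φ z * (G z - χ z)‖ ^ 2 * Real.exp (-2 * h z - 2 * ε * rh z)) ∧
      ∫ z, ‖φ z * (G z - χ z)‖ ^ 2 * Real.exp (-2 * h z - 2 * ε * rh z) ≤
        K / r ^ 2 + K * Real.exp (-ε * r) := by
  obtain ⟨c, hc, hW⟩ := hWt χ hχ A hA hχA ε hε hε1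
  obtain ⟨M, hM0, hM⟩ := kap_fderiv (n := n)
  have hcs : Integrable (fun x : En n => Real.exp (-c * rh x)) := int_exp_rh c hc
  have hes : Integrable (fun x : En n => Real.exp (-ε * rh x)) := int_exp_rh ε hε
  set I1 := ∫ x : En n, Real.exp (-c * rh x) with hI1
  set I2 := ∫ x : En n, Real.exp (-ε * rh x) with hI2
  have hI10 : 0 ≤ I1 := integral_nonneg fun x => (Real.exp_pos _).le
  have hI20 : 0 ≤ I2 := integral_nonneg fun x => (Real.exp_pos _).le
  set K1 := n * M ^ 2 / (2 * c) * (1 / (c / 2)) * I1 with hK1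
  have hK10 : 0 ≤ K1 := by positivity
  refine ⟨max (4 * C0 ^ 2 * K1) (2 * C0 ^ 2 * I2), fun r hr => ?_⟩
  have hr0 : 0 < r := by linarith
  obtain ⟨p, hps, hp0, hpL, hpR, hpW, M', hpM⟩ := hW (1 + n * (2 * r)) (by
    have : 0 ≤ n * (2 * r) := by positivity
    linarith)
  have hχs := holo_smooth hχ
  have hκs : ContDiff ℝ ∞ (fun x : En n => (kap n r x : ℂ)) :=
    Complex.ofRealCLM.contDiff.comp (kap_smooth r)
  have hκc : HasCompactSupport (fun x : En n => (kap n r x : ℂ)) :=
    (kap_compact hr0).comp_left Complex.ofReal_zero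
  have hκT : IsTest Set.univ (fun x : En n => (kap n r x : ℂ)) := ⟨hκs, hκc, Set.subset_univ _⟩
  -- the data
  let g : Fin n → En n → ℂ := fun j x => χ x * dbar j (fun y => (kap n r y : ℂ)) x
  have hg : ∀ j, IsTest Set.univ (g j) := fun j =>
    ⟨hχs.mul (wd_isTest hκT j).smooth, (wd_isTest hκT j).compact.mul_left, Set.subset_univ _⟩
  have hdχ : ∀ j x, dbar j χ x = 0 := fun j x => BK.JC2.dbar_of_diffAt χ x (hχ x) j
  have hgc : ∀ j k x, dbar j (g k) x = dbar k (g j) x := by
    intro j k x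
    have e : ∀ j k, dbar j (g k) x = χ x * dbar j (dbar k (fun y => (kap n r y : ℂ))) x := by
      intro j k
      have := BK.JB1.JKI.dbar_mul hχs (wd_isTest hκT k).smooth j x
      rw [hdχ, zero_mul, zero_add] at this
      exact this
    rw [e, e, wd_comm hκs]
  have hg0 : ∀ j x, ‖x‖ < r → g j x = 0 := by
    intro j x hx
    have h1 : ∀ v : En n, fderiv ℝ (fun y : En n => (kap n r y : ℂ)) x v = 0 := by
      intro v
      rw [fd_ofReal (kap_smooth r), kap_fderiv_zero hr0 hx]
      simp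
    show χ x * dbar j (fun y => (kap n r y : ℂ)) x = 0
    simp [dbar, h1]
  have hg0' : ∀ j x, 2 * r < ‖x‖ → g j x = 0 := by
    intro j x hx
    have h1 : x ∉ tsupport (fun y : En n => (kap n r y : ℂ)) := by
      intro h2
      have h3 : tsupport (fun y : En n => (kap n r y : ℂ)) ⊆ tsupport (kap n r) := by
        apply closure_mono
        intro y hy hy'
        exact hy (by simp [hy'])
      have h4 := kap_tsupport hr0 (h3 h2)
      rw [mem_closedBall_zero_iff] at h4
      linarith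
    have h2 : fderiv ℝ (fun y : En n => (kap n r y : ℂ)) x = 0 := fderiv_of_notMem_tsupport (𝕜 := ℝ) h1
    show χ x * dbar j (fun y => (kap n r y : ℂ)) x = 0
    simp [dbar, h2]
  have hgb : ∀ j x, ‖g j x‖ ^ 2 ≤ ‖χ x‖ ^ 2 * (M / r) ^ 2 := by
    intro j x
    show ‖χ x * dbar j (fun y => (kap n r y : ℂ)) x‖ ^ 2 ≤ _
    rw [norm_mul, mul_pow]
    apply mul_le_mul_of_nonneg_left _ (sq_nonneg _)
    exact pow_le_pow_left₀ (norm_nonneg _) ((dbar_real_le (kap_smooth r) x j).trans (hM r hr0 x)) 2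
  -- the function `A`
  let Aw : En n → ℝ := fun x => (∑ j, ‖g j x‖ ^ 2) * (rh x / (2 * c))
  have hAw0 : ∀ x, 0 ≤ Aw x := fun x => mul_nonneg
    (Finset.sum_nonneg fun j _ => sq_nonneg _) (div_nonneg (rh_pos x).le (by positivity))
  have hAwc : Continuous Aw := by
    apply Continuous.mul
    · exact continuous_finsetSum _ fun j _ => (hg j).smooth.continuous.norm.pow 2
    · exact rh_continuous.div_const _
  have hLv2 : ∀ x a, Lv (fun y => 2 * p y) x a = 2 * Lv p x a := fun x a =>
    BK.JC3.C3x.Lv_const_mul hps 2 x a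
  have hgA : ∀ x (a : En n), ‖∑ j, a j * conj (g j x)‖ ^ 2 ≤ Aw x * Lv (fun y => 2 * p y) x a := by
    intro x a
    rw [hLv2]
    refine (cs_sum a (fun j => g j x)).trans ?_
    have h1 := hpL x a
    have h2 : ∑ j, ‖a j‖ ^ 2 ≤ rh x * Lv p x a / c := by
      rw [le_div_iff₀ hc]
      linarith
    have h3 : 0 ≤ ∑ j, ‖g j x‖ ^ 2 := Finset.sum_nonneg fun j _ => sq_nonneg _
    calc (∑ j, ‖a j‖ ^ 2) * ∑ j, ‖g j x‖ ^ 2 ≤ (rh x * Lv p x a / c) * ∑ j, ‖g j x‖ ^ 2 :=
          mul_le_mul_of_nonneg_right h2 h3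
      _ = Aw x * (2 * Lv p x a) := by
          show _ = (∑ j, ‖g j x‖ ^ 2) * (rh x / (2 * c)) * (2 * Lv p x a)
          field_simp
  have hbound : ∀ x, Aw x * Real.exp (-(2 * p x)) ≤
      (n * M ^ 2 / (2 * c) * (1 / (c / 2)) / r ^ 2) * Real.exp (-c * rh x) := by
    intro x
    by_cases hx : ‖x‖ ≤ 2 * r
    · have hR : rh x ≤ 1 + n * (2 * r) := by
        refine (rh_le x).trans ?_
        have := eu_le x
        have h2 : (n : ℝ) * ‖x‖ ≤ n * (2 * r) := mul_le_mul_of_nonneg_left hx (Nat.cast_nonneg n)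
        linarith
      have h1 := hpR x hR
      have h2 : Real.exp (-(2 * p x)) ≤ (1 + ‖χ x‖ ^ 2)⁻¹ * Real.exp (-(2 * c) * rh x) := by
        have h3 : (1 + ‖χ x‖ ^ 2)⁻¹ = Real.exp (-(Real.log (1 + ‖χ x‖ ^ 2))) := by
          rw [Real.exp_neg, Real.exp_log (by positivity)]
        rw [h3, ← Real.exp_add]
        apply Real.exp_le_exp.2
        linarith
      have h3 : ∑ j, ‖g j x‖ ^ 2 ≤ (1 + ‖χ x‖ ^ 2) * (n * (M / r) ^ 2) := by
        calc ∑ j, ‖g j x‖ ^ 2 ≤ ∑ _j : Fin n, ‖χ x‖ ^ 2 * (M / r) ^ 2 :=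
              Finset.sum_le_sum fun j _ => hgb j x
          _ = ‖χ x‖ ^ 2 * (n * (M / r) ^ 2) := by simp; ring
          _ ≤ _ := mul_le_mul_of_nonneg_right (by linarith) (by positivity)
      have h4 : Aw x ≤ ((1 + ‖χ x‖ ^ 2) * (n * (M / r) ^ 2)) * (rh x / (2 * c)) :=
        mul_le_mul_of_nonneg_right h3 (div_nonneg (rh_pos x).le (by positivity))
      have h5 : rh x * Real.exp (-(2 * c) * rh x) ≤ 1 / (c / 2) * Real.exp (-c * rh x) := by
        have h6 := rh_exp_le (c / 2) (by positivity) (rh x)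
        have h7 : Real.exp (-(2 * c) * rh x) ≤ Real.exp (-(2 * (c / 2)) * rh x) := by
          apply Real.exp_le_exp.2
          have := rh_pos x
          nlinarith
        have h8 : Real.exp (-(2 * c) * rh x) ≤ Real.exp (-c * rh x) := by
          apply Real.exp_le_exp.2
          have := rh_pos x
          nlinarith
        have h9 : rh x * Real.exp (-(2 * c) * rh x) ≤ 1 / c * Real.exp (-c * rh x) :=
          rh_exp_le c hc (rh x)
        refine h9.trans (mul_le_mul_of_nonneg_right ?_ (Real.exp_pos _).le)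
        apply one_div_le_one_div_of_le (by positivity)
        linarith
      calc Aw x * Real.exp (-(2 * p x)) ≤
            (((1 + ‖χ x‖ ^ 2) * (n * (M / r) ^ 2)) * (rh x / (2 * c))) *
              ((1 + ‖χ x‖ ^ 2)⁻¹ * Real.exp (-(2 * c) * rh x)) :=
            mul_le_mul h4 h2 (Real.exp_pos _).le (by have := rh_pos x; positivity)
        _ = (n * (M / r) ^ 2 / (2 * c)) * (rh x * Real.exp (-(2 * c) * rh x)) := by
            have : (1 + ‖χ x‖ ^ 2) ≠ 0 := by positivity
            field_simp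
        _ ≤ (n * (M / r) ^ 2 / (2 * c)) * (1 / (c / 2) * Real.exp (-c * rh x)) :=
            mul_le_mul_of_nonneg_left h5 (by positivity)
        _ = _ := by
            rw [div_pow]
            field_simp
    · push Not at hx
      have h1 : Aw x = 0 := by
        show (∑ j, ‖g j x‖ ^ 2) * (rh x / (2 * c)) = 0
        rw [Finset.sum_eq_zero, zero_mul]
        intro j _
        rw [hg0' j x hx]
        simp
      rw [h1, zero_mul]
      positivity
  have hEc : Continuous (fun x => Real.exp (-(2 * p x))) :=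
    Real.continuous_exp.comp (continuous_const.mul hps.continuous).neg
  have hAi : Integrable (fun x => Aw x * Real.exp (-(2 * p x))) := by
    refine (hcs.const_mul (n * M ^ 2 / (2 * c) * (1 / (c / 2)) / r ^ 2)).mono'
      (hAwc.mul hEc).aestronglyMeasurable (Eventually.of_forall fun x => ?_)
    rw [Real.norm_of_nonneg (mul_nonneg (hAw0 x) (Real.exp_pos _).le)]
    exact hbound x
  have hAint : ∫ x, Aw x * Real.exp (-(2 * p x)) ≤ K1 / r ^ 2 := by
    refine (integral_mono hAi (hcs.const_mul _) hbound).trans (le_of_eq ?_)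
    rw [integral_const_mul, ← hI1, hK1]
    ring
  obtain ⟨v, hv1, hv2, hv3⟩ := hor (fun y => 2 * p y) (contDiff_const.mul hps)
    (fun x => mul_nonneg (by norm_num) (hp0 x))
    (fun x a => by
      rw [hLv2]
      have h1 := hpL x a
      have h2 : 0 ≤ c * (∑ j, ‖a j‖ ^ 2) :=
        mul_nonneg hc.le (Finset.sum_nonneg fun j _ => sq_nonneg _)
      have h3 : 0 ≤ rh x * Lv p x a := h2.trans h1
      have h4 := nonneg_of_mul_nonneg_right h3 (rh_pos x)
      linarith)
    g hg hgc Aw hAw0 hAi hgA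
  -- integrability of `|v|² e^{-2p}`
  have hvI : Integrable (fun x => ‖v x‖ ^ 2 * Real.exp (-(2 * p x))) := by
    have h1 := hv1.integrable_norm_pow (p := 2) (by norm_num)
    refine h1.congr (Eventually.of_forall fun x => ?_)
    simp only
    rw [norm_mul, mul_pow, Complex.norm_real, Real.norm_of_nonneg (Real.exp_pos _).le,
      ← Real.exp_nat_mul]
    congr 2
    push_cast
    ring
  have hvm : AEStronglyMeasurable v volume := by
    have h1 := hv1.aestronglyMeasurable
    have h2 : Continuous (fun x => ((Real.exp ((2 * p x) / 2) : ℝ) : ℂ)) :=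
      Complex.continuous_ofReal.comp (Real.continuous_exp.comp
        ((continuous_const.mul hps.continuous).div_const 2))
    refine (h1.mul h2.aestronglyMeasurable).congr (Eventually.of_forall fun x => ?_)
    simp only [Pi.mul_apply]
    rw [mul_assoc, ← Complex.ofReal_mul, ← Real.exp_add]
    simp
    ring_nf
    simp
  -- local square integrability of `v`
  have hvloc : ∀ R : ℝ, MemLp v 2 ((volume : Measure (En n)).restrict (ball (0 : En n) R)) := by
    intro R
    obtain ⟨B, hB⟩ := (isCompact_closedBall (0 : En n) R).exists_bound_of_continuousOn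
      hps.continuous.continuousOn
    have h1 : MemLp (fun x => v x * (Real.exp (-(2 * p x) / 2) : ℝ)) 2
      ((volume : Measure (En n)).restrict (ball (0 : En n) R)) := hv1.restrict _
    refine (h1.const_mul (Real.exp B : ℂ)).of_le hvm.restrict ?_
    rw [ae_restrict_iff' measurableSet_ball]
    refine Eventually.of_forall fun x hx => ?_
    rw [norm_mul, norm_mul, Complex.norm_real, Complex.norm_real,
      Real.norm_of_nonneg (Real.exp_pos _).le, Real.norm_of_nonneg (Real.exp_pos _).le]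
    have h3 : p x ≤ B := (le_abs_self _).trans (hB x (ball_subset_closedBall hx))
    have h4 : 1 ≤ Real.exp B * Real.exp (-(2 * p x) / 2) := by
      rw [← Real.exp_add]
      apply Real.one_le_exp
      linarith
    nlinarith [norm_nonneg (v x)]
  -- the entire function
  obtain ⟨G, hG, hGe⟩ := weyl_univ (fun x => (kap n r x : ℂ) * χ x - v x)
    (by
      intro R
      have h1 : MemLp (fun x => (kap n r x : ℂ) * χ x) 2
          ((volume : Measure (En n)).restrict (ball (0 : En n) R)) :=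
        ((hκs.continuous.mul hχs.continuous).memLp_of_hasCompactSupport hκc.mul_right).restrict _
      exact h1.sub (hvloc R))
    (by
      intro j ρ hρ
      have h1 : IsTest Set.univ (fun x => (kap n r x : ℂ) * χ x) :=
        ⟨hκs.mul hχs, hκc.mul_right, Set.subset_univ _⟩
      have h2 := wd_ibp h1 hρ j
      have h3 : ∀ x, dbar j (fun x => (kap n r x : ℂ) * χ x) x = g j x := by
        intro x
        rw [BK.JB1.JKI.dbar_mul hκs hχs, hdχ, mul_zero, add_zero]
        show _ = χ x * dbar j (fun y => (kap n r y : ℂ)) x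
        ring
      simp only [h3] at h2
      have h4 := hv2 j ρ hρ
      have hdρ := wd_isTest hρ j
      have h5 : Integrable (fun x => v x * dbar j ρ x) := by
        obtain ⟨B, hB⟩ := hdρ.compact.isCompact.isBounded.subset_ball (0 : En n)
        have h6 : MemLp (dbar j ρ) 2 ((volume : Measure (En n)).restrict (ball (0 : En n) B)) :=
          (hdρ.smooth.continuous.memLp_of_hasCompactSupport hdρ.compact).restrict _
        have h7 : IntegrableOn (fun x => v x * dbar j ρ x) (ball (0 : En n) B) :=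
          (hvloc B).integrable_mul h6
        rw [← integrableOn_univ]
        apply h7.of_forall_sdiff_eq_zero MeasurableSet.univ
        intro x hx
        have : x ∉ tsupport (dbar j ρ) := fun h => hx.2 (hB h)
        rw [image_eq_zero_of_notMem_tsupport this, mul_zero]
      have h6 : Integrable (fun x => (kap n r x : ℂ) * χ x * dbar j ρ x) :=
        wd_int_mul h1.smooth.continuous h1.compact hdρ.smooth.continuous
      have h7 : ∫ x, ((kap n r x : ℂ) * χ x - v x) * dbar j ρ x =
          (∫ x, (kap n r x : ℂ) * χ x * dbar j ρ x) - ∫ x, v x * dbar j ρ x := by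
        rw [← integral_sub h6 h5]
        congr 1
        funext x
        ring
      rw [h7, h2, h4]
      ring)
  have hGc : Continuous G := hG.continuous
  have hφc : Continuous φ := hφ.continuous
  have hχc : Continuous χ := hχ.continuous
  refine ⟨G, hG, ?_, ?_⟩
  · -- integrability of `|G|² e^{-4 ε ρ}`
    have hb1 : Integrable (fun x => 2 * (‖(kap n r x : ℂ) * χ x‖ ^ 2 * Real.exp (-(4 * ε) * rh x)) +
        2 * Real.exp (2 * M') * (‖v x‖ ^ 2 * Real.exp (-(2 * p x)))) := by
      apply Integrable.add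
      · apply Integrable.const_mul
        apply Continuous.integrable_of_hasCompactSupport
        · exact ((hκs.continuous.mul hχc).norm.pow 2).mul
            (Real.continuous_exp.comp (continuous_const.mul rh_continuous))
        · apply HasCompactSupport.mul_right
          apply HasCompactSupport.comp_left (g := fun z : ℂ => ‖z‖ ^ 2)
          · exact hκc.mul_right
          · simp
      · exact hvI.const_mul _
    refine hb1.mono' (((hGc.norm.pow 2).mul (Real.continuous_exp.comp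
      (continuous_const.mul rh_continuous))).aestronglyMeasurable) ?_
    filter_upwards [hGe] with x hx
    rw [Real.norm_of_nonneg (by positivity), ← hx]
    have h1 : ‖(kap n r x : ℂ) * χ x - v x‖ ^ 2 ≤ 2 * ‖(kap n r x : ℂ) * χ x‖ ^ 2 +
        2 * ‖v x‖ ^ 2 := by
      have h2 := norm_sub_le ((kap n r x : ℂ) * χ x) (v x)
      have h3 : ‖(kap n r x : ℂ) * χ x - v x‖ ^ 2 ≤ (‖(kap n r x : ℂ) * χ x‖ + ‖v x‖) ^ 2 :=
        pow_le_pow_left₀ (norm_nonneg _) h2 2
      nlinarith [sq_nonneg (‖(kap n r x : ℂ) * χ x‖ - ‖v x‖)]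
    have h2 : Real.exp (-(4 * ε) * rh x) ≤ Real.exp (2 * M') * Real.exp (-(2 * p x)) := by
      rw [← Real.exp_add]
      apply Real.exp_le_exp.2
      have := hpM x
      linarith
    calc ‖(kap n r x : ℂ) * χ x - v x‖ ^ 2 * Real.exp (-(4 * ε) * rh x) ≤
        (2 * ‖(kap n r x : ℂ) * χ x‖ ^ 2 + 2 * ‖v x‖ ^ 2) * Real.exp (-(4 * ε) * rh x) :=
          mul_le_mul_of_nonneg_right h1 (Real.exp_pos _).le
      _ = 2 * (‖(kap n r x : ℂ) * χ x‖ ^ 2 * Real.exp (-(4 * ε) * rh x)) +
          2 * ‖v x‖ ^ 2 * Real.exp (-(4 * ε) * rh x) := by ring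
      _ ≤ 2 * (‖(kap n r x : ℂ) * χ x‖ ^ 2 * Real.exp (-(4 * ε) * rh x)) +
          2 * ‖v x‖ ^ 2 * (Real.exp (2 * M') * Real.exp (-(2 * p x))) := by
          have := mul_le_mul_of_nonneg_left h2 (show 0 ≤ 2 * ‖v x‖ ^ 2 by positivity)
          linarith
      _ = _ := by ring
  · -- the main estimate
    have hpt : ∀ x, (kap n r x : ℂ) * χ x - v x = G x →
        ‖φ x * (G x - χ x)‖ ^ 2 * Real.exp (-2 * h x - 2 * ε * rh x) ≤
        4 * C0 ^ 2 * (‖v x‖ ^ 2 * Real.exp (-(2 * p x))) +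
        2 * C0 ^ 2 * Real.exp (-ε * r) * Real.exp (-ε * rh x) := by
      intro x hx
      rw [← hx]
      have e1 : φ x * ((kap n r x : ℂ) * χ x - v x - χ x) =
          ((kap n r x : ℂ) - 1) * (φ x * χ x) - φ x * v x := by ring
      rw [e1]
      have h1 : ‖((kap n r x : ℂ) - 1) * (φ x * χ x) - φ x * v x‖ ^ 2 ≤
          2 * ‖((kap n r x : ℂ) - 1) * (φ x * χ x)‖ ^ 2 + 2 * ‖φ x * v x‖ ^ 2 := by
        have h2 := norm_sub_le (((kap n r x : ℂ) - 1) * (φ x * χ x)) (φ x * v x)
        have h3 : ‖((kap n r x : ℂ) - 1) * (φ x * χ x) - φ x * v x‖ ^ 2 ≤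
            (‖((kap n r x : ℂ) - 1) * (φ x * χ x)‖ + ‖φ x * v x‖) ^ 2 :=
          pow_le_pow_left₀ (norm_nonneg _) h2 2
        nlinarith [sq_nonneg (‖((kap n r x : ℂ) - 1) * (φ x * χ x)‖ - ‖φ x * v x‖)]
      -- first part
      have h2 : ‖φ x‖ ^ 2 * Real.exp (2 * p x) ≤
          2 * C0 ^ 2 * Real.exp (2 * h x) * Real.exp (2 * ε * rh x) := by
        have h3 : Real.exp (2 * p x) ≤ (1 + ‖χ x‖ ^ 2) * Real.exp (2 * ε * rh x) := by
          have h4 : (1 + ‖χ x‖ ^ 2) = Real.exp (Real.log (1 + ‖χ x‖ ^ 2)) := by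
            rw [Real.exp_log (by positivity)]
          rw [h4, ← Real.exp_add]
          apply Real.exp_le_exp.2
          have := hpW x
          linarith
        have h4 : ‖φ x‖ ^ 2 ≤ C0 ^ 2 * Real.exp (2 * h x) := by
          have := pow_le_pow_left₀ (norm_nonneg _) (hφh x) 2
          rw [mul_pow, ← Real.exp_nat_mul] at this
          exact_mod_cast this
        have h5 : ‖φ x‖ ^ 2 * ‖χ x‖ ^ 2 ≤ C0 ^ 2 * Real.exp (2 * h x) := by
          have := pow_le_pow_left₀ (norm_nonneg _) (hψh x) 2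
          rw [mul_pow, ← Real.exp_nat_mul, norm_mul, mul_pow] at this
          exact_mod_cast this
        calc ‖φ x‖ ^ 2 * Real.exp (2 * p x) ≤
              ‖φ x‖ ^ 2 * ((1 + ‖χ x‖ ^ 2) * Real.exp (2 * ε * rh x)) :=
              mul_le_mul_of_nonneg_left h3 (sq_nonneg _)
          _ = (‖φ x‖ ^ 2 + ‖φ x‖ ^ 2 * ‖χ x‖ ^ 2) * Real.exp (2 * ε * rh x) := by ring
          _ ≤ (C0 ^ 2 * Real.exp (2 * h x) + C0 ^ 2 * Real.exp (2 * h x)) *
              Real.exp (2 * ε * rh x) :=
              mul_le_mul_of_nonneg_right (add_le_add h4 h5) (Real.exp_pos _).le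
          _ = _ := by ring
      have hexp : Real.exp (-2 * h x - 2 * ε * rh x) * (Real.exp (2 * h x) *
          Real.exp (2 * ε * rh x)) = 1 := by
        rw [← Real.exp_add, ← Real.exp_add]
        have : -2 * h x - 2 * ε * rh x + (2 * h x + 2 * ε * rh x) = 0 := by ring
        rw [this, Real.exp_zero]
      have hpp : Real.exp (2 * p x) * Real.exp (-(2 * p x)) = 1 := by
        rw [← Real.exp_add]; simp
      have h3 : ‖φ x * v x‖ ^ 2 * Real.exp (-2 * h x - 2 * ε * rh x) ≤
          2 * C0 ^ 2 * (‖v x‖ ^ 2 * Real.exp (-(2 * p x))) := by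
        rw [norm_mul, mul_pow]
        have h4 := mul_le_mul_of_nonneg_right h2 (show 0 ≤ ‖v x‖ ^ 2 * Real.exp (-(2 * p x)) *
          Real.exp (-2 * h x - 2 * ε * rh x) by positivity)
        have h5 : ‖φ x‖ ^ 2 * Real.exp (2 * p x) * (‖v x‖ ^ 2 * Real.exp (-(2 * p x)) *
          Real.exp (-2 * h x - 2 * ε * rh x)) =
          ‖φ x‖ ^ 2 * ‖v x‖ ^ 2 * Real.exp (-2 * h x - 2 * ε * rh x) := by
          linear_combination (‖φ x‖ ^ 2 * ‖v x‖ ^ 2 * Real.exp (-2 * h x - 2 * ε * rh x)) * hpp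
        have h6 : 2 * C0 ^ 2 * Real.exp (2 * h x) * Real.exp (2 * ε * rh x) *
          (‖v x‖ ^ 2 * Real.exp (-(2 * p x)) * Real.exp (-2 * h x - 2 * ε * rh x)) =
          2 * C0 ^ 2 * (‖v x‖ ^ 2 * Real.exp (-(2 * p x))) := by
          linear_combination (2 * C0 ^ 2 * (‖v x‖ ^ 2 * Real.exp (-(2 * p x)))) * hexp
        rw [h5, h6] at h4
        exact h4
      -- second part
      have h4 : ‖((kap n r x : ℂ) - 1) * (φ x * χ x)‖ ^ 2 * Real.exp (-2 * h x - 2 * ε * rh x) ≤
          C0 ^ 2 * Real.exp (-ε * r) * Real.exp (-ε * rh x) := by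
        by_cases hxr : ‖x‖ ≤ r
        · rw [kap_one hr0 hxr]
          simp
          positivity
        · push Not at hxr
          have h5 : ‖(kap n r x : ℂ) - 1‖ ≤ 1 := by
            rw [← Complex.ofReal_one, ← Complex.ofReal_sub, Complex.norm_real, Real.norm_eq_abs,
              abs_le]
            have := kap_nonneg (n := n) r x
            have := kap_le_one (n := n) r x
            constructor <;> linarith
          have h6 : ‖((kap n r x : ℂ) - 1) * (φ x * χ x)‖ ^ 2 ≤ C0 ^ 2 * Real.exp (2 * h x) := by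
            have h7 : ‖((kap n r x : ℂ) - 1) * (φ x * χ x)‖ ≤ C0 * Real.exp (h x) := by
              rw [norm_mul]
              calc _ ≤ 1 * (C0 * Real.exp (h x)) :=
                    mul_le_mul h5 (hψh x) (norm_nonneg _) zero_le_one
                _ = _ := one_mul _
            have := pow_le_pow_left₀ (norm_nonneg _) h7 2
            rw [mul_pow C0, ← Real.exp_nat_mul] at this
            exact_mod_cast this
          calc _ ≤ C0 ^ 2 * Real.exp (2 * h x) * Real.exp (-2 * h x - 2 * ε * rh x) :=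
                mul_le_mul_of_nonneg_right h6 (Real.exp_pos _).le
            _ = C0 ^ 2 * Real.exp (-2 * ε * rh x) := by
                rw [mul_assoc, ← Real.exp_add]
                congr 2
                ring
            _ ≤ C0 ^ 2 * (Real.exp (-ε * r) * Real.exp (-ε * rh x)) := by
                apply mul_le_mul_of_nonneg_left _ (sq_nonneg _)
                rw [← Real.exp_add]
                apply Real.exp_le_exp.2
                have h8 := norm_le_rh x
                have h9 : ε * r ≤ ε * rh x := mul_le_mul_of_nonneg_left (by linarith) hε.le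
                linarith
            _ = _ := by ring
      calc _ ≤ (2 * ‖((kap n r x : ℂ) - 1) * (φ x * χ x)‖ ^ 2 + 2 * ‖φ x * v x‖ ^ 2) *
            Real.exp (-2 * h x - 2 * ε * rh x) :=
            mul_le_mul_of_nonneg_right h1 (Real.exp_pos _).le
        _ = 2 * (‖((kap n r x : ℂ) - 1) * (φ x * χ x)‖ ^ 2 *
            Real.exp (-2 * h x - 2 * ε * rh x)) + 2 * (‖φ x * v x‖ ^ 2 *
            Real.exp (-2 * h x - 2 * ε * rh x)) := by ring
        _ ≤ _ := by linarith
    have hbI : Integrable (fun x => 4 * C0 ^ 2 * (‖v x‖ ^ 2 * Real.exp (-(2 * p x))) +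
        2 * C0 ^ 2 * Real.exp (-ε * r) * Real.exp (-ε * rh x)) :=
      (hvI.const_mul _).add (hes.const_mul _)
    have hmI : Integrable (fun z => ‖φ z * (G z - χ z)‖ ^ 2 *
        Real.exp (-2 * h z - 2 * ε * rh z)) := by
      refine hbI.mono' ?_ ?_
      · apply Continuous.aestronglyMeasurable
        exact ((hφc.mul (hGc.sub hχc)).norm.pow 2).mul (Real.continuous_exp.comp
          ((continuous_const.mul hh).sub (continuous_const.mul rh_continuous)))
      · filter_upwards [hGe] with x hx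
        rw [Real.norm_of_nonneg (by positivity)]
        exact hpt x hx
    refine ⟨hmI, ?_⟩
    calc ∫ z, ‖φ z * (G z - χ z)‖ ^ 2 * Real.exp (-2 * h z - 2 * ε * rh z) ≤
          ∫ x, (4 * C0 ^ 2 * (‖v x‖ ^ 2 * Real.exp (-(2 * p x))) +
          2 * C0 ^ 2 * Real.exp (-ε * r) * Real.exp (-ε * rh x)) := by
          apply integral_mono_ae hmI hbI
          filter_upwards [hGe] with x hx
          exact hpt x hx
      _ = 4 * C0 ^ 2 * (∫ x, ‖v x‖ ^ 2 * Real.exp (-(2 * p x))) +
          2 * C0 ^ 2 * Real.exp (-ε * r) * I2 := by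
          rw [integral_add (hvI.const_mul _) (hes.const_mul _), integral_const_mul,
            integral_const_mul]
      _ ≤ 4 * C0 ^ 2 * (K1 / r ^ 2) + 2 * C0 ^ 2 * Real.exp (-ε * r) * I2 := by
          have := mul_le_mul_of_nonneg_left (hv3.trans hAint) (show 0 ≤ 4 * C0 ^ 2 by positivity)
          linarith
      _ = (4 * C0 ^ 2 * K1) / r ^ 2 + (2 * C0 ^ 2 * I2) * Real.exp (-ε * r) := by ring
      _ ≤ _ := by
          apply add_le_add
          · exact div_le_div_of_nonneg_right (le_max_left _ _) (by positivity)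
          · exact mul_le_mul_of_nonneg_right (le_max_right _ _) (Real.exp_pos _).le

end Pool.Agent.TH239.CE
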