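import Pool.Agent.H314.BK.B1
import Pool.Agent.H314.BK.B3

/-! Cutoff functions on `ℂⁿ`. -/

set_option autoImplicit false

open MeasureTheory Complex Filter Topology Metric
open scoped ContDiff InnerProductSpace ENNReal ComplexConjugate

namespace Pool.Agent.TH239.CE

open BK BK.JB3

variable {n : ℕ}

/-- a fixed bump function, `1` on the unit ball and `0` off the ball of radius `2` -/
noncomputable def kap0 (n : ℕ) : ContDiffBump (0 : En n) := ⟨1, 2, one_pos, one_lt_two⟩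

/-- the cutoff function at radius `R` -/
noncomputable def kap (n : ℕ) (R : ℝ) (x : En n) : ℝ := kap0 n (R⁻¹ • x)

theorem kap_smooth (R : ℝ) : ContDiff ℝ ∞ (kap n R) :=
  (kap0 n).contDiff.comp (contDiff_const_smul _)

theorem kap_nonneg (R : ℝ) (x : En n) : 0 ≤ kap n R x := (kap0 n).nonneg

theorem kap_le_one (R : ℝ) (x : En n) : kap n R x ≤ 1 := (kap0 n).le_one

theorem kap_one {R : ℝ} (hR : 0 < R) {x : En n} (hx : ‖x‖ ≤ R) : kap n R x = 1 := by
  unfold kap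
  apply (kap0 n).one_of_mem_closedBall
  rw [mem_closedBall_zero_iff, norm_smul, norm_inv, Real.norm_of_nonneg hR.le]
  show R⁻¹ * ‖x‖ ≤ 1
  rw [inv_mul_le_iff₀ hR]
  linarith

theorem kap_zero {R : ℝ} (hR : 0 < R) {x : En n} (hx : 2 * R ≤ ‖x‖) : kap n R x = 0 := by
  unfold kap
  apply (kap0 n).zero_of_le_dist
  rw [dist_zero_right, norm_smul, norm_inv, Real.norm_of_nonneg hR.le]
  show 2 ≤ R⁻¹ * ‖x‖
  rw [le_inv_mul_iff₀ hR]
  linarith

theorem kap_tsupport {R : ℝ} (hR : 0 < R) : tsupport (kap n R) ⊆ closedBall 0 (2 * R) := by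
  apply closure_minimal _ isClosed_closedBall
  intro x hx
  rw [mem_closedBall_zero_iff]
  by_contra h
  exact hx (kap_zero hR (not_le.1 h).le)

theorem kap_compact {R : ℝ} (hR : 0 < R) : HasCompactSupport (kap n R) :=
  (isCompact_closedBall (0 : En n) (2 * R)).of_isClosed_subset (isClosed_tsupport _)
    (kap_tsupport hR)

theorem kap_fderiv : ∃ M : ℝ, 0 ≤ M ∧ ∀ R : ℝ, 0 < R → ∀ x : En n,
    ‖fderiv ℝ (kap n R) x‖ ≤ M / R := by
  have h1 : Continuous (fderiv ℝ (kap0 n)) := by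
    have h : ContDiff ℝ ∞ (kap0 n : En n → ℝ) := (kap0 n).contDiff
    exact h.continuous_fderiv (by norm_num)
  obtain ⟨M, hM⟩ := h1.bounded_above_of_compact_support ((kap0 n).hasCompactSupport.fderiv ℝ)
  have hM0 : 0 ≤ M := (norm_nonneg _).trans (hM 0)
  refine ⟨M, hM0, fun R hR x => ?_⟩
  have h2 : fderiv ℝ (kap n R) x = R⁻¹ • fderiv ℝ (kap0 n) (R⁻¹ • x) := by
    unfold kap
    exact fderiv_comp_smul (𝕜 := ℝ) (f := (kap0 n : En n → ℝ)) R⁻¹
  rw [h2, norm_smul, norm_inv, Real.norm_of_nonneg hR.le, div_eq_inv_mul]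
  exact mul_le_mul_of_nonneg_left (hM _) (inv_nonneg.2 hR.le)

theorem kap_fderiv_zero {R : ℝ} (hR : 0 < R) {x : En n} (hx : ‖x‖ < R) :
    fderiv ℝ (kap n R) x = 0 := by
  have h : kap n R =ᶠ[𝓝 x] fun _ => 1 := by
    have : ∀ᶠ y in 𝓝 x, ‖y‖ < R := continuous_norm.continuousAt.eventually (gt_mem_nhds hx)
    filter_upwards [this] with y hy
    exact kap_one hR hy.le
  rw [h.fderiv_eq]
  simp

theorem fd_ofReal {f : En n → ℝ} (hf : ContDiff ℝ ∞ f) (x v : En n) :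
    fderiv ℝ (fun y => (f y : ℂ)) x v = ((fderiv ℝ f x v : ℝ) : ℂ) := by
  have h1 : HasFDerivAt (fun y => (f y : ℂ)) (Complex.ofRealCLM.comp (fderiv ℝ f x)) x :=
    Complex.ofRealCLM.hasFDerivAt.comp x ((hf.differentiable (by norm_num)) x).hasFDerivAt
  rw [h1.fderiv]
  simp

theorem dz_real_le {f : En n → ℝ} (hf : ContDiff ℝ ∞ f) (x : En n) (j : Fin n) :
    ‖dz j (fun y => (f y : ℂ)) x‖ ≤ ‖fderiv ℝ f x‖ := by
  unfold dz
  rw [fd_ofReal hf, fd_ofReal hf]
  have h1 : ∀ c : ℂ, ‖c‖ = 1 → |fderiv ℝ f x (Pi.single j c)| ≤ ‖fderiv ℝ f x‖ := by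
    intro c hc
    have h2 := (fderiv ℝ f x).le_opNorm (Pi.single j c)
    rw [Pi.norm_single, hc, mul_one] at h2
    exact h2
  calc ‖(1 / 2 : ℂ) * (((fderiv ℝ f x (Pi.single j 1) : ℝ) : ℂ) -
        I * ((fderiv ℝ f x (Pi.single j I) : ℝ) : ℂ))‖ ≤
      1 / 2 * (|fderiv ℝ f x (Pi.single j 1)| + |fderiv ℝ f x (Pi.single j I)|) := by
        rw [norm_mul]
        have h3 := norm_sub_le (((fderiv ℝ f x (Pi.single j 1) : ℝ) : ℂ))
          (I * ((fderiv ℝ f x (Pi.single j I) : ℝ) : ℂ))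
        rw [norm_mul, norm_I, one_mul, Complex.norm_real, Complex.norm_real] at h3
        have h4 : ‖(1 / 2 : ℂ)‖ = 1 / 2 := by simp
        rw [h4]
        exact mul_le_mul_of_nonneg_left h3 (by norm_num)
    _ ≤ ‖fderiv ℝ f x‖ := by
        have := h1 1 (by simp)
        have := h1 I (by simp)
        linarith

theorem dbar_real_le {f : En n → ℝ} (hf : ContDiff ℝ ∞ f) (x : En n) (j : Fin n) :
    ‖dbar j (fun y => (f y : ℂ)) x‖ ≤ ‖fderiv ℝ f x‖ := by
  unfold dbar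
  rw [fd_ofReal hf, fd_ofReal hf]
  have h1 : ∀ c : ℂ, ‖c‖ = 1 → |fderiv ℝ f x (Pi.single j c)| ≤ ‖fderiv ℝ f x‖ := by
    intro c hc
    have h2 := (fderiv ℝ f x).le_opNorm (Pi.single j c)
    rw [Pi.norm_single, hc, mul_one] at h2
    exact h2
  calc ‖(1 / 2 : ℂ) * (((fderiv ℝ f x (Pi.single j 1) : ℝ) : ℂ) +
        I * ((fderiv ℝ f x (Pi.single j I) : ℝ) : ℂ))‖ ≤
      1 / 2 * (|fderiv ℝ f x (Pi.single j 1)| + |fderiv ℝ f x (Pi.single j I)|) := by
        rw [norm_mul]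
        have h3 := norm_add_le (((fderiv ℝ f x (Pi.single j 1) : ℝ) : ℂ))
          (I * ((fderiv ℝ f x (Pi.single j I) : ℝ) : ℂ))
        rw [norm_mul, norm_I, one_mul, Complex.norm_real, Complex.norm_real] at h3
        have h4 : ‖(1 / 2 : ℂ)‖ = 1 / 2 := by simp
        rw [h4]
        exact mul_le_mul_of_nonneg_left h3 (by norm_num)
    _ ≤ ‖fderiv ℝ f x‖ := by
        have := h1 1 (by simp)
        have := h1 I (by simp)
        linarith

/-- the standard weights (`ψ = 0`) on `ℂⁿ` -/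
theorem wts_univ (Φ : En n → ℝ) (hΦ : ContDiff ℝ ∞ Φ) (h0 : ∀ x, 0 ≤ Φ x)
    (hL : ∀ x a, 0 ≤ Lv Φ x a) :
    ∃ η : ℕ → En n → ℝ, Wts Set.univ ∅ 1 Φ (fun _ => 0) η := by
  obtain ⟨M, hM0, hM⟩ := kap_fderiv (n := n)
  obtain ⟨K, hK1, hK⟩ : ∃ K : ℝ, 1 ≤ K ∧ n * M ^ 2 ≤ K ^ 2 := by
    refine ⟨1 + n * M ^ 2, ?_, ?_⟩
    · have : 0 ≤ n * M ^ 2 := by positivity
      linarith
    · have : 0 ≤ n * M ^ 2 := by positivity
      nlinarith
  have hKpos : ∀ ν : ℕ, 0 < K * (ν + 1) := fun ν => by positivity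
  refine ⟨fun ν => kap n (K * (ν + 1)), ⟨hΦ.contDiffOn, contDiffOn_const, fun _ => le_rfl, ?_, ?_,
    ?_, fun ν => kap_smooth _, fun ν => kap_compact (hKpos ν), fun ν => Set.subset_univ _,
    fun ν x => ⟨kap_nonneg _ x, kap_le_one _ x⟩, ?_, ?_⟩⟩
  · intro x; simpa using h0 x
  · intro x hx; exact absurd hx (Set.notMem_empty x)
  · intro x _ a
    have : ∀ j : Fin n, dz j (fun y : En n => (((fun _ => 0 : En n → ℝ) y : ℝ) : ℂ)) x = 0 := by
      intro j
      unfold dz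
      simp
    simp only [this]
    simpa using hL x a
  · intro x _
    have h1 : ∀ᶠ ν : ℕ in atTop, ‖x‖ < K * (ν + 1) := by
      have h2 : Tendsto (fun ν : ℕ => K * ((ν : ℝ) + 1)) atTop atTop :=
        (tendsto_atTop_add_const_right _ 1 tendsto_natCast_atTop_atTop).const_mul_atTop
          (by linarith)
      exact h2.eventually_gt_atTop _
    filter_upwards [h1] with ν hν
    have h3 : ∀ᶠ y in 𝓝 x, ‖y‖ < K * (ν + 1) :=
      continuous_norm.continuousAt.eventually (gt_mem_nhds hν)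
    filter_upwards [h3] with y hy
    exact kap_one (hKpos ν) hy.le
  · intro ν x _
    simp only [Real.exp_zero]
    calc ∑ j, ‖dz j (fun y => (kap n (K * (ν + 1)) y : ℂ)) x‖ ^ 2 ≤
        ∑ _j : Fin n, (M / (K * (ν + 1))) ^ 2 := by
          apply Finset.sum_le_sum
          intro j _
          exact pow_le_pow_left₀ (norm_nonneg _)
            ((dz_real_le (kap_smooth _) x j).trans (hM _ (hKpos ν) x)) 2
      _ = n * M ^ 2 / (K * (ν + 1)) ^ 2 := by
          rw [Finset.sum_const, Finset.card_univ, Fintype.card_fin, nsmul_eq_mul, div_pow]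
          ring
      _ ≤ 1 := by
          rw [div_le_one (by have := hKpos ν; positivity)]
          have h5 : (1 : ℝ) ≤ (ν : ℝ) + 1 := by
            have : (0 : ℝ) ≤ ν := Nat.cast_nonneg ν
            linarith
          have h6 : K ^ 2 ≤ (K * (ν + 1)) ^ 2 := by
            apply pow_le_pow_left₀ (by linarith)
            nlinarith
          linarith

end Pool.Agent.TH239.CE
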