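import Mathlib

/-! Definitions: `H(Ω)`, analytic functionals, the Laplace transform, the space `E_Ω`. -/

set_option autoImplicit false

open Filter Topology

namespace Pool.Agent.TH239.CE

/-- The standard additive group structure of `C(X, ℂ)` (shortcut to Mathlib's instance). -/
noncomputable instance cAdd (X : Type) [TopologicalSpace X] : AddCommGroup C(X, ℂ) :=
  ContinuousMap.instAddCommGroupContinuousMap

/-- The standard vector space structure of `C(X, ℂ)` (shortcut to Mathlib's instance). -/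
noncomputable instance cMod (X : Type) [TopologicalSpace X] : Module ℂ C(X, ℂ) :=
  ContinuousMap.module

/-- The holomorphic functions on `Ω ⊆ ℂⁿ`, as a subspace of the space `C(Ω, ℂ)` of continuous
functions. -/
def holSub {n : ℕ} (Ω : Set (Fin n → ℂ)) : Submodule ℂ C(Ω, ℂ) where
  carrier := {g | ∃ G : (Fin n → ℂ) → ℂ, DifferentiableOn ℂ G Ω ∧ ∀ z : Ω, g z = G z}
  add_mem' := by
    rintro f g ⟨F, hF, h⟩ ⟨G, hG, h'⟩
    exact ⟨F + G, hF.add hG, fun z => by simp [h, h']⟩
  zero_mem' := ⟨0, differentiableOn_const 0, fun _ => rfl⟩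
  smul_mem' := by
    rintro c f ⟨F, hF, h⟩
    exact ⟨c • F, hF.const_smul c, fun z => by simp [h]⟩

/-- The space `H(Ω)` of holomorphic functions on `Ω`, with the topology of uniform convergence on
compact sets (the subspace topology of the compact-open topology of `C(Ω, ℂ)`). -/
abbrev Hol {n : ℕ} (Ω : Set (Fin n → ℂ)) : Type := holSub Ω

/-- The analytic functionals `H'(Ω)`: the continuous linear functionals on `H(Ω)`, with the strong
topology (uniform convergence on bounded subsets of `H(Ω)`), which is Mathlib's topology on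
`E →L[ℂ] F`. -/
abbrev HolDual {n : ℕ} (Ω : Set (Fin n → ℂ)) : Type := Hol Ω →L[ℂ] ℂ

/-- the exponential `ξ ↦ e^{(z,ξ)}`, `(z,ξ) = ∑ z_j ξ_j`, as an element of `H(Ω)` -/
noncomputable def expo {n : ℕ} (Ω : Set (Fin n → ℂ)) (z : Fin n → ℂ) : Hol Ω :=
  ⟨⟨fun ξ => Complex.exp (∑ j, z j * ξ.1 j), Complex.continuous_exp.comp
      (continuous_finsetSum _ fun j _ => continuous_const.mul
        ((continuous_apply j).comp continuous_subtype_val))⟩,
    fun ξ => Complex.exp (∑ j, z j * ξ j), by fun_prop, fun _ => rfl⟩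

/-- the Laplace transform `T̂(z) = T(e^{(z,·)})` -/
noncomputable def laplace {n : ℕ} {Ω : Set (Fin n → ℂ)} (T : HolDual Ω) (z : Fin n → ℂ) : ℂ :=
  T (expo Ω z)

/-- The space `E_Ω` of the Laplace transforms of the analytic functionals on `Ω`. -/
def EO {n : ℕ} (Ω : Set (Fin n → ℂ)) : Type :=
  {F : (Fin n → ℂ) → ℂ // ∃ T : HolDual Ω, laplace T = F}

/-- the map `T ↦ T̂` from `H'(Ω)` onto `E_Ω` -/
noncomputable def toEO {n : ℕ} {Ω : Set (Fin n → ℂ)} (T : HolDual Ω) : EO Ω := ⟨laplace T, T, rfl⟩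

/-- The topology of `E_Ω`, carried over from `H'(Ω)` by the map `T ↦ T̂`. -/
noncomputable instance eTop {n : ℕ} (Ω : Set (Fin n → ℂ)) : TopologicalSpace (EO Ω) :=
  TopologicalSpace.coinduced toEO ContinuousLinearMap.topologicalSpace

/-- `U_k → S` in `H'(Ω)`, i.e. in the strong topology -/
def StrongLim {n : ℕ} {Ω : Set (Fin n → ℂ)} (U : ℕ → HolDual Ω) (S : HolDual Ω) : Prop :=
  Tendsto U atTop (𝓝 S)

/-- `F_k → ψ` in `E_Ω` -/
def EOLim {n : ℕ} {Ω : Set (Fin n → ℂ)} (F : ℕ → EO Ω) (ψ : EO Ω) : Prop :=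
  Tendsto F atTop (𝓝 ψ)

end Pool.Agent.TH239.CE
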