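import Pool.Agent.H314.BK.B1
import Pool.Agent.H314.BK.B3
import Pool.Agent.H314.BK.B5
import Pool.Agent.H314.BK.B6

/-! Density of test forms in the weighted graph norm on an arbitrary open set (as `BK.JB3.den`,
without boundedness). -/

set_option autoImplicit false

open MeasureTheory Complex Filter Topology Metric
open scoped ContDiff InnerProductSpace ENNReal ComplexConjugate

namespace Pool.Agent.TH239.CE

open BK BK.JB3

variable {n : ℕ}

theorem denU (Ω : Set (En n)) (ho : IsOpen Ω) : DEN Ω := by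
  intro L ε φ ψ η hε hW u f c h δ hδ
  have sφ := hW.sφ
  have sψ := hW.sψ
  have cφ := sφ.continuousOn
  have cψ := sψ.continuousOn
  have hψ0 := hW.ψ0
  have hφ2 := hW.φ2
  obtain ⟨e1, e2, e3⟩ := cut_err ho hW h
  have e1s : Tendsto (fun ν => ∑ j, ∫ x in Ω, ‖u j x - wF (η ν) u j x‖ ^ 2 *
      Real.exp (-(φ x - ψ x))) atTop (𝓝 0) := by
    have := tendsto_finsetSum Finset.univ fun j _ => e1 j
    simpa using this
  have e3s : Tendsto (fun ν => ∑ p, ∫ x in Ω, ‖c p x - cF (η ν) u c p x‖ ^ 2 *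
      Real.exp (-φ x)) atTop (𝓝 0) := by
    have := tendsto_finsetSum Finset.univ fun p _ => e3 p
    simpa using this
  have hδ4 : 0 < δ / 4 := by linarith
  obtain ⟨ν, n1, n2, n3⟩ := ((e1s.eventually (ge_mem_nhds hδ4)).and
    ((e2.eventually (ge_mem_nhds hδ4)).and (e3s.eventually (ge_mem_nhds hδ4)))).exists
  obtain ⟨v, hv, M1, M2, M3, b1, b2, b3⟩ := den_cut ho hW h (η ν) (hW.sη ν) (hW.cη ν) (hW.tη ν)
    (δ / 4) hδ4
  have θ1 : ∀ x, 0 ≤ φ x - ψ x := fun x => by
    have := hψ0 x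
    have := hφ2 x
    linarith
  have θ2 : ∀ x, 0 ≤ φ x - 2 * ψ x := fun x => by
    have := hφ2 x
    linarith
  have θ3 : ∀ x, 0 ≤ φ x := fun x => by
    have := hψ0 x
    have := hφ2 x
    linarith
  have hw := wF_mem ho sφ sψ (hW.sη ν) (hW.cη ν) (hW.tη ν) h
  have hc := cF_mem ho sφ sψ (hW.sη ν) (hW.cη ν) (hW.tη ν) h
  have hf := fF_mem ho sφ sψ (hW.sη ν) (hW.cη ν) (hW.tη ν) h
  have N1 : ∀ j, MemLp (fun x => (u j x - wF (η ν) u j x) *
      (Real.exp (-(φ x - ψ x) / 2) : ℝ)) 2 (volume.restrict Ω) := by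
    intro j
    have h1 := (wt_bk ho (cφ.sub cψ) θ1 ((hw j).aestronglyMeasurable.mono_measure
      Measure.restrict_le_self) (G := fun x => ‖wF (η ν) u j x‖) (hw j).norm
      (fun x _ => le_rfl)).1
    have h2 := (h.mu j).sub h1
    refine h2.ae_eq (Eventually.of_forall fun x => ?_)
    simp only [Pi.sub_apply]
    ring
  have N2 : MemLp (fun x => (f x - fF ψ (η ν) u f x) *
      (Real.exp (-(φ x - 2 * ψ x) / 2) : ℝ)) 2 (volume.restrict Ω) := by
    have h1 := (wt_bk (θ := fun x => φ x - 2 * ψ x) ho (cφ.sub (continuousOn_const.mul cψ)) θ2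
      (hf.aestronglyMeasurable.mono_measure Measure.restrict_le_self)
      (G := fun x => ‖fF ψ (η ν) u f x‖) hf.norm (fun x _ => le_rfl)).1
    have h2 := h.mf.sub h1
    refine h2.ae_eq (Eventually.of_forall fun x => ?_)
    simp only [Pi.sub_apply]
    ring
  have N3 : ∀ p, MemLp (fun x => (c p x - cF (η ν) u c p x) *
      (Real.exp (-φ x / 2) : ℝ)) 2 (volume.restrict Ω) := by
    intro p
    have h1 := (wt_bk ho cφ θ3 ((hc p).aestronglyMeasurable.mono_measure
      Measure.restrict_le_self) (G := fun x => ‖cF (η ν) u c p x‖) (hc p).norm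
      (fun x _ => le_rfl)).1
    have h2 := (h.mc p).sub h1
    refine h2.ae_eq (Eventually.of_forall fun x => ?_)
    simp only [Pi.sub_apply]
    ring
  refine ⟨v, hv, ?_, ?_, ?_⟩
  · have key : ∀ j, ∫ x in Ω, ‖u j x - v j x‖ ^ 2 * Real.exp (-(φ x - ψ x)) ≤
        2 * (∫ x in Ω, ‖u j x - wF (η ν) u j x‖ ^ 2 * Real.exp (-(φ x - ψ x))) +
        2 * ∫ x in Ω, ‖wF (η ν) u j x - v j x‖ ^ 2 * Real.exp (-(φ x - ψ x)) := by
      intro j
      have := tri_bk (θ := fun x => φ x - ψ x) (N1 j) (M1 j)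
      simpa only [sub_add_sub_cancel] using this
    refine (Finset.sum_le_sum fun j _ => key j).trans ?_
    rw [Finset.sum_add_distrib, ← Finset.mul_sum, ← Finset.mul_sum]
    linarith
  · have := tri_bk (θ := fun x => φ x - 2 * ψ x) N2 M2
    simp only [sub_add_sub_cancel] at this
    linarith
  · have key : ∀ p, ∫ x in Ω, ‖c p x - Sst v p x‖ ^ 2 * Real.exp (-φ x) ≤
        2 * (∫ x in Ω, ‖c p x - cF (η ν) u c p x‖ ^ 2 * Real.exp (-φ x)) +
        2 * ∫ x in Ω, ‖cF (η ν) u c p x - Sst v p x‖ ^ 2 * Real.exp (-φ x) := by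
      intro p
      have := tri_bk (θ := fun x => φ x) (N3 p) (M3 p)
      simpa only [sub_add_sub_cancel] using this
    refine (Finset.sum_le_sum fun p _ => key p).trans ?_
    rw [Finset.sum_add_distrib, ← Finset.mul_sum, ← Finset.mul_sum]
    linarith

end Pool.Agent.TH239.CE
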