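import Pool.Agent.TH239.CE.Defs

/-! Analytic functionals: bounds, continuity from bounds, strong convergence, the Laplace
transform is entire. -/

set_option autoImplicit false

open Set Filter Topology Complex Metric

namespace Pool.Agent.TH239.CE

theorem exists_bound_sub {X : Type} [TopologicalSpace X] (V : Submodule ℂ C(X, ℂ))
    (S : V →L[ℂ] ℂ) : ∃ K' : Set X, IsCompact K' ∧ ∃ C : ℝ, 0 ≤ C ∧
      ∀ g : V, ∀ M : ℝ, 0 ≤ M → (∀ z ∈ K', ‖g.1 z‖ ≤ M) → ‖S g‖ ≤ C * M := by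
  have h1 : S ⁻¹' (ball 0 1) ∈ 𝓝 (0 : V) :=
    S.continuous.continuousAt.preimage_mem_nhds (by rw [map_zero]; exact ball_mem_nhds _ one_pos)
  rw [nhds_subtype_eq_comap, Filter.mem_comap] at h1
  obtain ⟨U, hU, hUS⟩ := h1
  have hb := nhds_basis_uniformity
    (Metric.uniformity_basis_dist.compactConvergenceUniformity (α := X) (β := ℂ)) (x := (0 : C(X, ℂ)))
  obtain ⟨⟨K', ε⟩, ⟨hK', hε⟩, hsub⟩ := hb.mem_iff.1 hU
  simp only at hK' hε
  have key : ∀ g : V, (∀ z ∈ K', ‖g.1 z‖ < ε) → ‖S g‖ < 1 := by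
    intro g hg
    have : g ∈ S ⁻¹' (ball 0 1) := by
      apply hUS
      apply hsub
      intro z hz
      have := hg z hz
      simpa [dist_eq_norm] using this
    simpa using this
  refine ⟨K', hK', 2 / ε, by positivity, fun g M hM hg => ?_⟩
  have h2 : ∀ δ > 0, ‖S g‖ ≤ 2 / ε * (M + δ) := by
    intro δ hδ
    have hpos : 0 < ε / (2 * (M + δ)) := by positivity
    have h3 := key (((ε / (2 * (M + δ)) : ℝ) : ℂ) • g) (by
      intro z hz
      show ‖((ε / (2 * (M + δ)) : ℝ) : ℂ) • g.1 z‖ < ε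
      rw [norm_smul, Complex.norm_real, Real.norm_of_nonneg hpos.le]
      have h4 := hg z hz
      calc ε / (2 * (M + δ)) * ‖g.1 z‖ ≤ ε / (2 * (M + δ)) * (M + δ) :=
            mul_le_mul_of_nonneg_left (by linarith) hpos.le
        _ = ε / 2 := by field_simp
        _ < ε := by linarith)
    rw [map_smul, norm_smul, Complex.norm_real, Real.norm_of_nonneg hpos.le, div_mul_eq_mul_div,
      div_lt_one (by positivity)] at h3
    rw [div_mul_eq_mul_div, le_div_iff₀ hε]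
    linarith
  have h3 : Tendsto (fun δ : ℝ => 2 / ε * (M + δ)) (𝓝[>] 0) (𝓝 (2 / ε * (M + 0))) :=
    ((continuous_const.mul (continuous_const.add continuous_id)).tendsto 0).mono_left
      nhdsWithin_le_nhds
  rw [add_zero] at h3
  exact ge_of_tendsto h3 (eventually_nhdsWithin_of_forall h2)

variable {n : ℕ}

/-- evaluation of an element of `H(Ω)` -/
noncomputable def ev {Ω : Set (Fin n → ℂ)} (g : Hol Ω) (z : Ω) : ℂ := g.1 z

theorem ev_add {Ω : Set (Fin n → ℂ)} (f g : Hol Ω) (z : Ω) : ev (f + g) z = ev f z + ev g z := rfl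

theorem ev_smul {Ω : Set (Fin n → ℂ)} (c : ℂ) (g : Hol Ω) (z : Ω) : ev (c • g) z = c * ev g z := rfl

theorem ev_sub {Ω : Set (Fin n → ℂ)} (f g : Hol Ω) (z : Ω) : ev (f - g) z = ev f z - ev g z := rfl

theorem ev_zero {Ω : Set (Fin n → ℂ)} (z : Ω) : ev (0 : Hol Ω) z = 0 := rfl

theorem ev_continuous {Ω : Set (Fin n → ℂ)} (g : Hol Ω) : Continuous (ev g) := g.1.continuous

theorem ev_expo (Ω : Set (Fin n → ℂ)) (z : Fin n → ℂ) (ξ : Ω) :
    ev (expo Ω z) ξ = Complex.exp (∑ j, z j * ξ.1 j) := rfl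

theorem exists_bound {Ω : Set (Fin n → ℂ)} (T : HolDual Ω) :
    ∃ K' : Set Ω, IsCompact K' ∧ ∃ C : ℝ, 0 ≤ C ∧
      ∀ g : Hol Ω, ∀ M : ℝ, 0 ≤ M → (∀ z ∈ K', ‖ev g z‖ ≤ M) → ‖T g‖ ≤ C * M :=
  exists_bound_sub (holSub Ω) T

theorem nhds_zero_bound {Ω : Set (Fin n → ℂ)} {K : Set Ω} (hK : IsCompact K) {r : ℝ} (hr : 0 < r) :
    {g : Hol Ω | ∀ z ∈ K, ‖ev g z‖ < r} ∈ 𝓝 (0 : Hol Ω) := by
  have h1 : ∀ᶠ g : C(Ω, ℂ) in 𝓝 (0 : C(Ω, ℂ)), MapsTo g K (ball 0 r) := by
    apply ContinuousMap.eventually_mapsTo hK isOpen_ball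
    intro z _
    simpa using hr
  have h2 : Tendsto (fun g : Hol Ω => (g.1 : C(Ω, ℂ))) (𝓝 (0 : Hol Ω)) (𝓝 (0 : C(Ω, ℂ))) :=
    (continuous_subtype_val (p := fun g : C(Ω, ℂ) => g ∈ holSub Ω)).tendsto' _ _ rfl
  filter_upwards [h2.eventually h1] with g hg z hz
  have h3 := hg hz
  rw [mem_ball_zero_iff] at h3
  exact h3

instance {Ω : Set (Fin n → ℂ)} : IsTopologicalAddGroup (Hol Ω) :=
  inferInstanceAs (IsTopologicalAddGroup (holSub Ω))

/-- a linear functional with a bound over a compact set is continuous -/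
theorem continuous_of_bound {Ω : Set (Fin n → ℂ)} (L : Hol Ω →ₗ[ℂ] ℂ) {K : Set Ω}
    (hK : IsCompact K) {C : ℝ} (hC : 0 ≤ C)
    (h : ∀ g : Hol Ω, ∀ M : ℝ, 0 ≤ M → (∀ z ∈ K, ‖ev g z‖ ≤ M) → ‖L g‖ ≤ C * M) :
    Continuous L := by
  apply continuous_of_continuousAt_zero L
  rw [ContinuousAt, map_zero, Metric.tendsto_nhds]
  intro ε hε
  filter_upwards [nhds_zero_bound hK (show 0 < ε / (C + 1) by positivity)] with g hg
  rw [dist_zero_right]
  calc ‖L g‖ ≤ C * (ε / (C + 1)) := h g _ (by positivity) fun z hz => (hg z hz).le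
    _ < ε := by
        rw [mul_div_assoc', div_lt_iff₀ (by positivity)]
        nlinarith

/-- strong convergence from uniform bounds over a compact set -/
theorem tendsto_of_bound {Ω : Set (Fin n → ℂ)} {K : Set Ω} (hK : IsCompact K)
    (U : ℕ → HolDual Ω) (S : HolDual Ω) (c : ℕ → ℝ) (hc : Tendsto c atTop (𝓝 0))
    (h : ∀ k, ∀ g : Hol Ω, ∀ M : ℝ, 0 ≤ M → (∀ z ∈ K, ‖ev g z‖ ≤ M) → ‖U k g - S g‖ ≤ c k * M) :
    Tendsto U atTop (𝓝 S) := by
  have hmain : ∀ s ∈ {s : Set (Hol Ω) | Bornology.IsVonNBounded ℂ s},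
      TendstoUniformlyOn (fun k => (U k : Hol Ω → ℂ)) S atTop s := by
    intro s hs
    -- a bound of the elements of `s` over `K`
    obtain ⟨M, hM0, hM⟩ : ∃ M : ℝ, 0 < M ∧ ∀ g ∈ s, ∀ z ∈ K, ‖ev g z‖ ≤ M := by
      have h1 := hs (nhds_zero_bound hK one_pos)
      rw [absorbs_iff_norm] at h1
      obtain ⟨r, hr⟩ := h1
      set R := max r 1 with hR
      have hR1 : 0 < R := lt_of_lt_of_le one_pos (le_max_right _ _)
      have h2 := hr (R : ℂ) (by
        rw [Complex.norm_real, Real.norm_of_nonneg hR1.le]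
        exact le_max_left _ _)
      refine ⟨R, hR1, fun g hg z hz => ?_⟩
      obtain ⟨f, hf, hfg⟩ := h2 hg
      simp only at hfg
      rw [← hfg, ev_smul, norm_mul, Complex.norm_real, Real.norm_of_nonneg hR1.le]
      have := hf z hz
      nlinarith [norm_nonneg (ev f z)]
    rw [Metric.tendstoUniformlyOn_iff]
    intro ε hε
    have h2 : ∀ᶠ k in atTop, c k < ε / M := hc.eventually (gt_mem_nhds (by positivity))
    filter_upwards [h2] with k hk g hg
    rw [dist_comm, dist_eq_norm]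
    calc ‖U k g - S g‖ ≤ c k * M := h k g M hM0.le (hM g hg)
      _ < ε := by
          rw [lt_div_iff₀ hM0] at hk
          exact hk
  exact (UniformConvergenceCLM.tendsto_iff_tendstoUniformlyOn (σ := RingHom.id ℂ) (E := Hol Ω)
    (F := ℂ) {s : Set (Hol Ω) | Bornology.IsVonNBounded ℂ s}).2 hmain

/-- the elements `ξ ↦ ξ_j e^{(z,ξ)}` of `H(Ω)` -/
noncomputable def expoJ (Ω : Set (Fin n → ℂ)) (z : Fin n → ℂ) (j : Fin n) : Hol Ω :=
  ⟨⟨fun ξ => ξ.1 j * Complex.exp (∑ j, z j * ξ.1 j),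
      ((continuous_apply j).comp continuous_subtype_val).mul (Complex.continuous_exp.comp
      (continuous_finsetSum _ fun j _ => continuous_const.mul
        ((continuous_apply j).comp continuous_subtype_val)))⟩,
    fun ξ => ξ j * Complex.exp (∑ j, z j * ξ j), by fun_prop, fun _ => rfl⟩

theorem ev_expoJ (Ω : Set (Fin n → ℂ)) (z : Fin n → ℂ) (j : Fin n) (ξ : Ω) :
    ev (expoJ Ω z j) ξ = ξ.1 j * Complex.exp (∑ j, z j * ξ.1 j) := rfl

theorem ev_sum {Ω : Set (Fin n → ℂ)} {ι : Type} (s : Finset ι) (f : ι → Hol Ω) (z : Ω) :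
    ev (∑ i ∈ s, f i) z = ∑ i ∈ s, ev (f i) z := by
  classical
  induction s using Finset.induction_on with
  | empty => simp [ev_zero]
  | insert a s ha ih => rw [Finset.sum_insert ha, Finset.sum_insert ha, ev_add, ih]

theorem exp_quad (x : ℂ) : ‖Complex.exp x - 1 - x‖ ≤ ‖x‖ ^ 2 * Real.exp ‖x‖ := by
  have := Complex.norm_exp_sub_sum_le_norm_mul_exp x 2
  simp only [Finset.sum_range_succ, Finset.sum_range_zero, pow_zero, Nat.factorial_zero,
    Nat.cast_one, div_one, zero_add, pow_one, Nat.factorial_one] at this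
  rw [sub_sub]
  exact this

/-- the Laplace transform is entire -/
theorem laplace_differentiable {Ω : Set (Fin n → ℂ)} (T : HolDual Ω) :
    Differentiable ℂ (laplace T) := by
  obtain ⟨K, hK, C, hC, hb⟩ := exists_bound T
  obtain ⟨B, hB0, hB⟩ : ∃ B : ℝ, 0 ≤ B ∧ ∀ ξ ∈ K, ‖(ξ : Fin n → ℂ)‖ ≤ B := by
    obtain ⟨B, hB⟩ := hK.exists_bound_of_continuousOn (f := fun ξ : Ω => (ξ : Fin n → ℂ))
      continuous_subtype_val.continuousOn
    exact ⟨max B 0, le_max_right _ _, fun ξ hξ => (hB ξ hξ).trans (le_max_left _ _)⟩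
  intro z
  let L : (Fin n → ℂ) →L[ℂ] ℂ := ∑ j, (T (expoJ Ω z j)) •
    ContinuousLinearMap.proj (R := ℂ) (φ := fun _ : Fin n => ℂ) j
  have hpair : ∀ w ξ : Fin n → ℂ, ‖ξ‖ ≤ B → ‖∑ j, w j * ξ j‖ ≤ n * B * ‖w‖ := by
    intro w ξ hξ
    calc ‖∑ j, w j * ξ j‖ ≤ ∑ _j : Fin n, ‖w‖ * B := by
          refine (norm_sum_le _ _).trans (Finset.sum_le_sum fun j _ => ?_)
          rw [norm_mul]
          exact mul_le_mul (norm_le_pi_norm w j) ((norm_le_pi_norm ξ j).trans hξ) (norm_nonneg _)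
            (norm_nonneg _)
      _ = _ := by simp; ring
  have key : ∀ w : Fin n → ℂ, ‖w‖ ≤ 1 → ‖laplace T (z + w) - laplace T z - L w‖ ≤
      (C * (Real.exp (n * B * ‖z‖) * ((n * B) ^ 2 * Real.exp (n * B)))) * ‖w‖ ^ 2 := by
    intro w hw
    have e1 : laplace T (z + w) - laplace T z - L w =
        T (expo Ω (z + w) - expo Ω z - ∑ j, w j • expoJ Ω z j) := by
      unfold laplace
      rw [map_sub, map_sub, map_sum]
      congr 1
      simp only [L, sum_apply, smul_apply,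
        ContinuousLinearMap.proj_apply, smul_eq_mul, map_smul]
      apply Finset.sum_congr rfl
      intro j _
      ring
    rw [e1]
    have h2 := hb (expo Ω (z + w) - expo Ω z - ∑ j, w j • expoJ Ω z j)
      (Real.exp (n * B * ‖z‖) * ((n * B) ^ 2 * Real.exp (n * B)) * ‖w‖ ^ 2) (by positivity) (by
        intro ξ hξ
        rw [ev_sub, ev_sub, ev_sum, ev_expo, ev_expo]
        have e2 : ∀ j, ev (w j • expoJ Ω z j) ξ =
            Complex.exp (∑ j, z j * ξ.1 j) * (w j * ξ.1 j) := by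
          intro j
          rw [ev_smul, ev_expoJ]
          ring
        simp_rw [e2]
        rw [← Finset.mul_sum]
        have e3 : Complex.exp (∑ j, (z + w) j * ξ.1 j) =
            Complex.exp (∑ j, z j * ξ.1 j) * Complex.exp (∑ j, w j * ξ.1 j) := by
          rw [← Complex.exp_add, ← Finset.sum_add_distrib]
          congr 1
          apply Finset.sum_congr rfl
          intro j _
          simp only [Pi.add_apply]
          ring
        rw [e3]
        have e4 : Complex.exp (∑ j, z j * ξ.1 j) * Complex.exp (∑ j, w j * ξ.1 j) -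
            Complex.exp (∑ j, z j * ξ.1 j) - Complex.exp (∑ j, z j * ξ.1 j) *
              ∑ j, w j * ξ.1 j = Complex.exp (∑ j, z j * ξ.1 j) *
              (Complex.exp (∑ j, w j * ξ.1 j) - 1 - ∑ j, w j * ξ.1 j) := by ring
        rw [e4, norm_mul, mul_assoc]
        have b1 : ‖Complex.exp (∑ j, z j * ξ.1 j)‖ ≤ Real.exp (n * B * ‖z‖) :=
          (Complex.norm_exp_le_exp_norm _).trans (Real.exp_le_exp.2 (hpair z ξ.1 (hB ξ hξ)))
        have b2 := hpair w ξ.1 (hB ξ hξ)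
        have b3 : ‖Complex.exp (∑ j, w j * ξ.1 j) - 1 - ∑ j, w j * ξ.1 j‖ ≤
            (n * B) ^ 2 * Real.exp (n * B) * ‖w‖ ^ 2 := by
          refine (exp_quad _).trans ?_
          have b4 : ‖∑ j, w j * ξ.1 j‖ ^ 2 ≤ (n * B * ‖w‖) ^ 2 :=
            pow_le_pow_left₀ (norm_nonneg _) b2 2
          have b5 : Real.exp ‖∑ j, w j * ξ.1 j‖ ≤ Real.exp (n * B) := by
            apply Real.exp_le_exp.2
            refine b2.trans ?_
            exact mul_le_of_le_one_right (by positivity) hw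
          calc _ ≤ (n * B * ‖w‖) ^ 2 * Real.exp (n * B) :=
                mul_le_mul b4 b5 (Real.exp_pos _).le (sq_nonneg _)
            _ = _ := by ring
        exact mul_le_mul b1 b3 (norm_nonneg _) (Real.exp_pos _).le)
    refine h2.trans (le_of_eq (by ring))
  set D := C * (Real.exp (n * B * ‖z‖) * ((n * B) ^ 2 * Real.exp (n * B))) with hD
  have hD0 : 0 ≤ D := by positivity
  have hfd : HasFDerivAt (laplace T) L z := by
    rw [hasFDerivAt_iff_isLittleO_nhds_zero, Asymptotics.isLittleO_iff]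
    intro c hc
    have h3 : ∀ᶠ w : Fin n → ℂ in 𝓝 0, ‖w‖ < min 1 (c / (D + 1)) := by
      have : Tendsto (fun w : Fin n → ℂ => ‖w‖) (𝓝 0) (𝓝 0) := tendsto_norm_zero
      exact this.eventually (gt_mem_nhds (by positivity))
    filter_upwards [h3] with w hw
    have hw1 : ‖w‖ ≤ 1 := (hw.le).trans (min_le_left _ _)
    have hw2 : ‖w‖ < c / (D + 1) := lt_of_lt_of_le hw (min_le_right _ _)
    refine (key w hw1).trans ?_
    have h4 : D * ‖w‖ ≤ c := by
      rw [lt_div_iff₀ (by positivity)] at hw2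
      nlinarith [norm_nonneg w]
    calc D * ‖w‖ ^ 2 = (D * ‖w‖) * ‖w‖ := by ring
      _ ≤ c * ‖w‖ := mul_le_mul_of_nonneg_right h4 (norm_nonneg _)
  exact hfd.differentiableAt

end Pool.Agent.TH239.CE
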