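import Pool.Agent.TH239.CE.Den
import Pool.Agent.TH239.CE.Cut

/-! Hörmander's `L²` estimate for `∂̄` on `ℂⁿ` with a smooth nonnegative plurisubharmonic weight
and compactly supported data. -/

set_option autoImplicit false

open MeasureTheory Complex Filter Topology Metric
open scoped ContDiff InnerProductSpace ENNReal ComplexConjugate

namespace Pool.Agent.TH239.CE

open BK BK.JB3 BK.JB6

variable {n : ℕ}

theorem sq_le_of_forall_t {x a b : ℝ} (hx : 0 ≤ x) (ha : 0 ≤ a) (hb : 0 ≤ b)
    (h : ∀ t : ℝ, 0 < t → 2 * x ≤ t * a + t⁻¹ * b) : x ^ 2 ≤ a * b := by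
  rcases hx.eq_or_lt with rfl | hx
  · simpa using mul_nonneg ha hb
  rcases ha.eq_or_lt with rfl | ha
  · -- a = 0
    exfalso
    have h1 := h ((b + 1) / x) (by positivity)
    rw [mul_zero, zero_add, inv_div] at h1
    have h2 : x / (b + 1) * b ≤ x := by
      rw [div_mul_eq_mul_div, div_le_iff₀ (by positivity)]
      nlinarith
    linarith
  · rcases hb.eq_or_lt with rfl | hb
    · exfalso
      have h1 := h (x / a) (by positivity)
      rw [mul_zero, add_zero, div_mul_cancel₀ _ ha.ne'] at h1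
      linarith
    · have h1 := h (x / a) (by positivity)
      rw [div_mul_cancel₀ _ ha.ne', inv_div] at h1
      have h2 : x ≤ a / x * b := by linarith
      rw [div_mul_eq_mul_div, le_div_iff₀ hx] at h2
      nlinarith

/-- a priori inequality for test forms -/
theorem ap_test (Φ : En n → ℝ) (hΦ : ContDiff ℝ ∞ Φ)
    (g : Fin n → En n → ℂ) (hg : ∀ j, IsTest Set.univ (g j))
    (A : En n → ℝ) (hA0 : ∀ x, 0 ≤ A x) (hAi : Integrable (fun x => A x * Real.exp (-Φ x)))
    (hgA : ∀ x (a : En n), ‖∑ j, a j * conj (g j x)‖ ^ 2 ≤ A x * Lv Φ x a)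
    (hL : ∀ x a, 0 ≤ Lv Φ x a)
    (v : Fin n → En n → ℂ) (hv : ∀ j, IsTest Set.univ (v j)) :
    ‖∫ x, (∑ j, v j x * conj (g j x)) * (Real.exp (-Φ x) : ℝ)‖ ^ 2 ≤
      (∫ x, A x * Real.exp (-Φ x)) *
        ((∫ x, ‖Tst Φ (fun _ => 0) v x‖ ^ 2 * Real.exp (-(Φ x))) +
          ∑ p, ∫ x, ‖Sst v p x‖ ^ 2 * Real.exp (-Φ x)) := by
  have hki := BK.JB1.ki (Set.univ : Set (En n)) isOpen_univ Φ hΦ.contDiffOn v hv
  simp only [Measure.restrict_univ] at hki
  have hT : ∀ x, ‖Tst Φ (fun _ => 0) v x‖ =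
      ‖∑ j, (dz j (v j) x - dz j (fun y => (Φ y : ℂ)) x * v j x)‖ := by
    intro x
    unfold Tst
    simp [norm_sub_rev]
  simp only [hT]
  set bI := ∫ x, Lv Φ x (fun j => v j x) * Real.exp (-Φ x) with hbI
  have h1 : bI ≤ (∫ x, ‖∑ j, (dz j (v j) x - dz j (fun y => (Φ y : ℂ)) x * v j x)‖ ^ 2 *
      Real.exp (-Φ x)) + ∑ p, ∫ x, ‖Sst v p x‖ ^ 2 * Real.exp (-Φ x) := by
    have h2 : 0 ≤ ∑ j, ∑ k, ∫ x, ‖dbar k (v j) x‖ ^ 2 * Real.exp (-Φ x) :=
      Finset.sum_nonneg fun j _ => Finset.sum_nonneg fun k _ =>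
        integral_nonneg fun x => by positivity
    linarith
  have hE : Continuous (fun x => Real.exp (-Φ x)) := Real.continuous_exp.comp hΦ.continuous.neg
  -- integrability
  have hLc : Continuous (fun x => Lv Φ x (fun j => v j x)) := by
    have h2 : ContDiff ℝ ∞ (fderiv ℝ Φ) := hΦ.fderiv_right (m := ∞) (by norm_num)
    have h3 : Continuous (fderiv ℝ (fderiv ℝ Φ)) := h2.continuous_fderiv (by norm_num)
    have h4 : ∀ x a, Lv Φ x a = (1 / 4) * (fderiv ℝ (fderiv ℝ Φ) x a a +
        fderiv ℝ (fderiv ℝ Φ) x (I • a) (I • a)) := by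
      intro x a
      unfold Lv
      have h5 : ∀ b : En n, HasFDerivAt (fun y => fderiv ℝ Φ y b)
          ((ContinuousLinearMap.apply ℝ ℝ b).comp (fderiv ℝ (fderiv ℝ Φ) x)) x := fun b =>
        (ContinuousLinearMap.apply ℝ ℝ b).hasFDerivAt.comp x
          ((h2.differentiable (by norm_num)) x).hasFDerivAt
      rw [(h5 a).fderiv, (h5 (I • a)).fderiv]
      simp
    simp only [h4]
    have h6 : Continuous (fun x => (fun j => v j x : En n)) :=
      continuous_pi fun j => (hv j).smooth.continuous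
    have h7 : Continuous (fun x => (I • (fun j => v j x) : En n)) := h6.const_smul I
    exact continuous_const.mul (((h3.clm_apply h6).clm_apply h6).add
      ((h3.clm_apply h7).clm_apply h7))
  have hLcs : HasCompactSupport (fun x => Lv Φ x (fun j => v j x) * Real.exp (-Φ x)) := by
    apply HasCompactSupport.intro (K := ⋃ j, tsupport (v j))
      (isCompact_iUnion fun j => (hv j).compact)
    intro x hx
    have h2 : ∀ j, v j x = 0 := by
      intro j
      apply image_eq_zero_of_notMem_tsupport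
      intro h
      exact hx (Set.mem_iUnion.2 ⟨j, h⟩)
    have h3 : (fun j => v j x) = (0 : En n) := by
      funext j; exact h2 j
    rw [h3]
    unfold Lv
    simp
  have hLi : Integrable (fun x => Lv Φ x (fun j => v j x) * Real.exp (-Φ x)) :=
    (hLc.mul hE).integrable_of_hasCompactSupport hLcs
  have hgc : Continuous (fun x => (∑ j, v j x * conj (g j x)) * (Real.exp (-Φ x) : ℝ)) := by
    apply Continuous.mul
    · exact continuous_finsetSum _ fun j _ => (hv j).smooth.continuous.mul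
        (Complex.continuous_conj.comp (hg j).smooth.continuous)
    · exact Complex.continuous_ofReal.comp hE
  -- Cauchy-Schwarz
  have h3 : ∀ t : ℝ, 0 < t → 2 * ‖∫ x, (∑ j, v j x * conj (g j x)) * (Real.exp (-Φ x) : ℝ)‖ ≤
      t * (∫ x, A x * Real.exp (-Φ x)) + t⁻¹ * bI := by
    intro t ht
    have h4 : ∀ x, ‖(∑ j, v j x * conj (g j x)) * (Real.exp (-Φ x) : ℝ)‖ ≤
        (1 / 2) * (t * (A x * Real.exp (-Φ x)) + t⁻¹ * (Lv Φ x (fun j => v j x) *
          Real.exp (-Φ x))) := by
      intro x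
      rw [norm_mul, Complex.norm_real, Real.norm_of_nonneg (Real.exp_pos _).le]
      have h5 := hgA x (fun j => v j x)
      have h6 : ‖∑ j, v j x * conj (g j x)‖ ≤ (1 / 2) * (t * A x + t⁻¹ * Lv Φ x (fun j => v j x)) := by
        have h7 := hA0 x
        have h8 := hL x (fun j => v j x)
        apply le_of_sq_le_sq _ (by positivity)
        refine h5.trans ?_
        have h9 : t * t⁻¹ = 1 := mul_inv_cancel₀ ht.ne'
        nlinarith [sq_nonneg (t * A x - t⁻¹ * Lv Φ x (fun j => v j x))]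
      have h10 := mul_le_mul_of_nonneg_right h6 (Real.exp_pos (-Φ x)).le
      linarith
    have h5 := norm_integral_le_of_norm_le (f := fun x => (∑ j, v j x * conj (g j x)) *
      (Real.exp (-Φ x) : ℝ)) (((hAi.const_mul t).add (hLi.const_mul t⁻¹)).const_mul (1 / 2))
      (Eventually.of_forall h4)
    have h6 : ∫ x, (1 / 2) * ((fun x => t * (A x * Real.exp (-Φ x))) + fun x =>
        t⁻¹ * (Lv Φ x (fun j => v j x) * Real.exp (-Φ x))) x =
        (1 / 2) * (t * (∫ x, A x * Real.exp (-Φ x)) + t⁻¹ * bI) := by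
      rw [integral_const_mul]
      congr 1
      rw [integral_add' (hAi.const_mul t) (hLi.const_mul t⁻¹), integral_const_mul,
        integral_const_mul]
    rw [h6] at h5
    linarith
  have ha : 0 ≤ ∫ x, A x * Real.exp (-Φ x) :=
    integral_nonneg fun x => mul_nonneg (hA0 x) (Real.exp_pos _).le
  have hb : 0 ≤ bI := integral_nonneg fun x => mul_nonneg (hL x _) (Real.exp_pos _).le
  refine (sq_le_of_forall_t (norm_nonneg _) ha hb h3).trans ?_
  exact mul_le_mul_of_nonneg_left h1 ha

/-- distance of an `L²` function to a weighted function -/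
theorem nrm_sub (Φ : En n → ℝ) (u : L2 (Set.univ : Set (En n))) (w : En n → ℂ)
    (w' : L2 (Set.univ : Set (En n)))
    (hw : (w' : En n → ℂ) =ᵐ[(volume : Measure (En n)).restrict Set.univ]
      fun x => w x * (wdM Φ x : ℂ)) :
    ‖u - w'‖ ^ 2 = ∫ x in Set.univ, ‖u x * (wdP Φ x : ℂ) - w x‖ ^ 2 * Real.exp (-Φ x) := by
  rw [wd_norm_sq]
  apply integral_congr_ae
  filter_upwards [Lp.coeFn_sub u w', hw] with x hx hx'
  rw [hx, Pi.sub_apply, hx', wd_MM]
  have h1 : u x - w x * (wdM Φ x : ℂ) = (u x * (wdP Φ x : ℂ) - w x) * (wdM Φ x : ℂ) := by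
    linear_combination (-(u x)) * wd_PMc Φ x
  rw [h1, norm_mul, Complex.norm_real, Real.norm_of_nonneg (wd_M0 Φ x)]
  ring

theorem nrm_eq (Φ : En n → ℝ) (w : En n → ℂ)
    (w' : L2 (Set.univ : Set (En n)))
    (hw : (w' : En n → ℂ) =ᵐ[(volume : Measure (En n)).restrict Set.univ]
      fun x => w x * (wdM Φ x : ℂ)) :
    ‖w'‖ ^ 2 = ∫ x in Set.univ, ‖w x‖ ^ 2 * Real.exp (-Φ x) := by
  rw [wd_norm_sq]
  apply integral_congr_ae
  filter_upwards [hw] with x hx
  rw [hx, wd_MM, norm_mul, Complex.norm_real, Real.norm_of_nonneg (wd_M0 Φ x)]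
  ring

theorem memLp_univ (f : En n → ℂ) (h : MemLp f 2 ((volume : Measure (En n)).restrict Set.univ)) :
    MemLp f 2 (volume : Measure (En n)) := by
  rwa [Measure.restrict_univ] at h

/-- **Hörmander's theorem** -/
theorem hor (Φ : En n → ℝ) (hΦ : ContDiff ℝ ∞ Φ) (h0 : ∀ x, 0 ≤ Φ x)
    (hL : ∀ x a, 0 ≤ Lv Φ x a)
    (g : Fin n → En n → ℂ) (hg : ∀ j, IsTest Set.univ (g j))
    (hgc : ∀ j k x, dbar j (g k) x = dbar k (g j) x)
    (A : En n → ℝ) (hA0 : ∀ x, 0 ≤ A x) (hAi : Integrable (fun x => A x * Real.exp (-Φ x)))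
    (hgA : ∀ x (a : En n), ‖∑ j, a j * conj (g j x)‖ ^ 2 ≤ A x * Lv Φ x a) :
    ∃ v : En n → ℂ, MemLp (fun x => v x * (Real.exp (-Φ x / 2) : ℝ)) 2 volume ∧
      (∀ j ρ, IsTest Set.univ ρ → ∫ x, v x * dbar j ρ x = - ∫ x, g j x * ρ x) ∧
      ∫ x, ‖v x‖ ^ 2 * Real.exp (-Φ x) ≤ ∫ x, A x * Real.exp (-Φ x) := by
  obtain ⟨η, hW⟩ := wts_univ Φ hΦ h0 hL
  have hden := denU (Set.univ : Set (En n)) isOpen_univ ∅ 1 Φ (fun _ => 0) η one_pos hW
  have ho : IsOpen (Set.univ : Set (En n)) := isOpen_univ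
  have cΦ : ContinuousOn Φ Set.univ := hΦ.continuous.continuousOn
  set a := ∫ x, A x * Real.exp (-Φ x) with ha
  have ha0 : 0 ≤ a := integral_nonneg fun x => mul_nonneg (hA0 x) (Real.exp_pos _).le
  obtain ⟨T, hT, hTc⟩ := wd_T Set.univ ho (wdP Φ) (wdP Φ) (wd_cP cΦ) (wd_cP cΦ)
  obtain ⟨S, hS, hSc⟩ := wd_S Set.univ ho (wdP Φ) (wdP Φ) (wd_cP cΦ) (wd_cP cΦ)
  have hz : ∀ (p : Pr n) (θ : En n → ℂ),
      ∫ x in Set.univ, (0 : Form2 (Set.univ : Set (En n))) p x * θ x = 0 := by
    intro p θ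
    apply integral_eq_zero_of_ae
    have : (((0 : Form2 (Set.univ : Set (En n))) p : L2 (Set.univ : Set (En n))) : En n → ℂ)
        =ᵐ[(volume : Measure (En n)).restrict Set.univ] 0 := Lp.coeFn_zero ℂ 2 _
    filter_upwards [this] with x hx
    rw [hx]
    simp
  have hTS : ∀ f g, (f, g) ∈ T → (g, (0 : Form2 (Set.univ : Set (En n)))) ∈ S := by
    intro f g hfg
    rw [hS]
    intro p ρ hρ
    have a1 := (hT f g).1 hfg p.1.2 (dbar p.1.1 ρ) (wd_isTest hρ _)
    have a2 := (hT f g).1 hfg p.1.1 (dbar p.1.2 ρ) (wd_isTest hρ _)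
    have a3 : ∫ x in Set.univ, f x * ((wdP Φ x : ℂ) * dbar p.1.2 (dbar p.1.1 ρ) x) =
        ∫ x in Set.univ, f x * ((wdP Φ x : ℂ) * dbar p.1.1 (dbar p.1.2 ρ) x) := by
      congr 1
      funext x
      rw [wd_comm hρ.smooth]
    have i1 : Integrable (fun x => g p.1.2 x * ((wdP Φ x : ℂ) * dbar p.1.1 ρ x))
        ((volume : Measure (En n)).restrict Set.univ) :=
      (Lp.memLp (g p.1.2)).integrable_mul (wd_memLp ho (wd_cP cΦ)
        (wd_isTest hρ p.1.1).smooth.continuous (wd_isTest hρ p.1.1).compact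
        (wd_isTest hρ p.1.1).supp)
    have i2 : Integrable (fun x => g p.1.1 x * ((wdP Φ x : ℂ) * dbar p.1.2 ρ x))
        ((volume : Measure (En n)).restrict Set.univ) :=
      (Lp.memLp (g p.1.1)).integrable_mul (wd_memLp ho (wd_cP cΦ)
        (wd_isTest hρ p.1.2).smooth.continuous (wd_isTest hρ p.1.2).compact
        (wd_isTest hρ p.1.2).supp)
    rw [integral_sub i1 i2, hz p, neg_zero]
    rw [a3, a2] at a1
    linear_combination a1
  -- the data
  have mg := fun j => wd_memLp ho (wd_cM cΦ) (hg j).smooth.continuous (hg j).compact (hg j).supp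
  obtain ⟨gt, hgt⟩ : ∃ gt : Form (Set.univ : Set (En n)), ∀ j,
      (gt j : En n → ℂ) =ᵐ[(volume : Measure (En n)).restrict Set.univ]
      fun x => (wdM Φ x : ℂ) * g j x := ⟨WithLp.toLp 2 (fun j => (mg j).toLp _),
        fun j => (mg j).coeFn_toLp⟩
  have hgtS : (gt, (0 : Form2 (Set.univ : Set (En n)))) ∈ S := by
    rw [hS]
    intro p ρ hρ
    rw [hz p, neg_zero]
    have b1 : ∫ x in Set.univ, (gt p.1.2 x * ((wdP Φ x : ℂ) * dbar p.1.1 ρ x) -
        gt p.1.1 x * ((wdP Φ x : ℂ) * dbar p.1.2 ρ x)) =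
        ∫ x in Set.univ, (g p.1.2 x * dbar p.1.1 ρ x - g p.1.1 x * dbar p.1.2 ρ x) := by
      apply integral_congr_ae
      filter_upwards [hgt p.1.1, hgt p.1.2] with x hx hx'
      rw [hx, hx']
      linear_combination (g p.1.2 x * dbar p.1.1 ρ x - g p.1.1 x * dbar p.1.2 ρ x) * wd_PMc Φ x
    rw [b1, Measure.restrict_univ, integral_sub, wd_ibp (hg _) hρ, wd_ibp (hg _) hρ]
    · simp only [hgc p.1.1 p.1.2]
      ring
    · exact wd_int_mul (hg _).smooth.continuous (hg _).compact
        (wd_isTest hρ _).smooth.continuous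
    · exact wd_int_mul (hg _).smooth.continuous (hg _).compact
        (wd_isTest hρ _).smooth.continuous
  have hgtall : ∀ᵐ x ∂((volume : Measure (En n)).restrict Set.univ), ∀ j,
      gt j x = (wdM Φ x : ℂ) * g j x := ae_all_iff.2 hgt
  -- a priori inequality
  have hap : ∀ u f c, AdjR T u f → (u, c) ∈ S →
      ‖inner ℂ u gt‖ ^ 2 ≤ a * ‖f‖ ^ 2 + a * ‖c‖ ^ 2 := by
    intro u f c hadj huc
    have hR : LRel Set.univ Φ (fun _ => 0) (fun j x => u j x * (wdP Φ x : ℂ))
        (fun x => f x * (wdP Φ x : ℂ)) (fun p x => c p x * (wdP Φ x : ℂ)) := by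
      refine ⟨?_, ?_, ?_, ?_, ?_⟩
      · intro j
        have : (fun x => u j x * (wdP Φ x : ℂ) *
            (Real.exp (-(Φ x - (fun _ => (0:ℝ)) x) / 2) : ℝ)) = (u j : En n → ℂ) := by
          funext x
          rw [sub_zero]
          exact wd_back Φ x _
        rw [this]
        exact Lp.memLp (u j)
      · have : (fun x => f x * (wdP Φ x : ℂ) *
            (Real.exp (-(Φ x - 2 * (fun _ => (0:ℝ)) x) / 2) : ℝ)) = (f : En n → ℂ) := by
          funext x
          rw [mul_zero, sub_zero]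
          exact wd_back Φ x _
        rw [this]
        exact Lp.memLp f
      · intro p
        have : (fun x => c p x * (wdP Φ x : ℂ) * (Real.exp (-Φ x / 2) : ℝ)) =
            (c p : En n → ℂ) := by
          funext x
          exact wd_back Φ x _
        rw [this]
        exact Lp.memLp (c p)
      · intro ρ hρ
        have mh := wd_memLp ho (wd_cM cΦ) hρ.smooth.continuous hρ.compact hρ.supp
        have mq := fun j => wd_memLp ho (wd_cM cΦ) (wd_isTest hρ j).smooth.continuous
          (wd_isTest hρ j).compact (wd_isTest hρ j).supp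
        obtain ⟨h, hh⟩ : ∃ h : L2 (Set.univ : Set (En n)),
            (h : En n → ℂ) =ᵐ[(volume : Measure (En n)).restrict Set.univ]
            fun x => (wdM Φ x : ℂ) * ρ x := ⟨mh.toLp _, mh.coeFn_toLp⟩
        obtain ⟨q, hq⟩ : ∃ q : Form (Set.univ : Set (En n)), ∀ j, (q j : En n → ℂ)
            =ᵐ[(volume : Measure (En n)).restrict Set.univ] fun x => (wdM Φ x : ℂ) * dbar j ρ x :=
          ⟨WithLp.toLp 2 (fun j => (mq j).toLp _), fun j => (mq j).coeFn_toLp⟩
        have hmem : (h, q) ∈ T := by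
          rw [hT]
          intro j σ hσ
          have b1 : ∫ x in Set.univ, h x * ((wdP Φ x : ℂ) * dbar j σ x) =
              ∫ x in Set.univ, ρ x * dbar j σ x := by
            apply integral_congr_ae
            filter_upwards [hh] with x hx
            rw [hx]
            linear_combination (ρ x * dbar j σ x) * wd_PMc Φ x
          have b2 : ∫ x in Set.univ, q j x * ((wdP Φ x : ℂ) * σ x) =
              ∫ x in Set.univ, dbar j ρ x * σ x := by
            apply integral_congr_ae
            filter_upwards [hq j] with x hx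
            rw [hx]
            linear_combination (dbar j ρ x * σ x) * wd_PMc Φ x
          rw [b1, b2]
          exact wd_ibpΩ hρ hσ j
        have b3 := hadj (h, q) hmem
        simp only at b3
        rw [wd_inner_pi, wd_inner] at b3
        have hqall : ∀ᵐ x ∂((volume : Measure (En n)).restrict Set.univ), ∀ j,
            q j x = (wdM Φ x : ℂ) * dbar j ρ x := ae_all_iff.2 hq
        have b4 : ∫ x in Set.univ, (∑ j, u j x * (wdP Φ x : ℂ) * conj (dbar j ρ x)) *
            (Real.exp (-(Φ x - (fun _ => (0:ℝ)) x)) : ℝ) =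
            ∫ x in Set.univ, ∑ i, conj (q i x) * u i x := by
          apply integral_congr_ae
          filter_upwards [hqall] with x hx
          rw [Finset.sum_mul, sub_zero, wd_MM]
          apply Finset.sum_congr rfl
          intro j _
          rw [hx j, map_mul, Complex.conj_ofReal, Complex.ofReal_mul]
          linear_combination (u j x * conj (dbar j ρ x) * (wdM Φ x : ℂ)) * wd_PMc Φ x
        have b5 : ∫ x in Set.univ, f x * (wdP Φ x : ℂ) * conj (ρ x) *
            (Real.exp (-(Φ x - 2 * (fun _ => (0:ℝ)) x)) : ℝ) =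
            ∫ x in Set.univ, conj (h x) * f x := by
          apply integral_congr_ae
          filter_upwards [hh] with x hx
          rw [mul_zero, sub_zero, wd_MM, hx, map_mul, Complex.conj_ofReal, Complex.ofReal_mul]
          linear_combination (f x * conj (ρ x) * (wdM Φ x : ℂ)) * wd_PMc Φ x
        exact b4.trans (b3.trans b5.symm)
      · intro p ρ hρ
        have b1 := (hS u c).1 huc p ρ hρ
        have b2 : ∀ x, u p.1.2 x * (wdP Φ x : ℂ) * dbar p.1.1 ρ x -
            u p.1.1 x * (wdP Φ x : ℂ) * dbar p.1.2 ρ x =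
            u p.1.2 x * ((wdP Φ x : ℂ) * dbar p.1.1 ρ x) -
            u p.1.1 x * ((wdP Φ x : ℂ) * dbar p.1.2 ρ x) := fun x => by ring
        have b3 : ∀ x, c p x * (wdP Φ x : ℂ) * ρ x = c p x * ((wdP Φ x : ℂ) * ρ x) :=
          fun x => by ring
        simp_rw [b2, b3]
        exact b1
    -- the closed set
    let Z : Set (Form (Set.univ : Set (En n)) × L2 (Set.univ : Set (En n)) ×
        Form2 (Set.univ : Set (En n))) :=
      {q | ‖inner ℂ q.1 gt‖ ^ 2 ≤ a * ‖q.2.1‖ ^ 2 + a * ‖q.2.2‖ ^ 2}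
    have hZ : IsClosed Z := by
      apply isClosed_le
      · exact (continuous_norm.comp (continuous_fst.inner continuous_const)).pow 2
      · fun_prop
    have hmem : (u, f, c) ∈ closure Z := by
      rw [Metric.mem_closure_iff]
      intro δ hδ
      obtain ⟨v, hv, e1, e2, e3⟩ := hden _ _ _ hR ((δ / 2) ^ 2) (by positivity)
      have hTsm : ∀ v : Fin n → En n → ℂ, (∀ j, IsTest Set.univ (v j)) →
          IsTest Set.univ (Tst Φ (fun _ => 0) v) := by
        intro v hv
        have hdz : ∀ j, ContDiff ℝ ∞ (dz j (v j)) := fun j => BK.JB1.JKI.dz_smooth (hv j).smooth j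
        have hph : ∀ j, ContDiff ℝ ∞ (dz j (fun y => ((Φ y - (fun _ => (0:ℝ)) y : ℝ) : ℂ))) := by
          intro j
          apply BK.JB1.JKI.dz_smooth
          simp only [sub_zero]
          exact Complex.ofRealCLM.contDiff.comp hΦ
        refine ⟨?_, ?_, Set.subset_univ _⟩
        · unfold Tst
          apply ContDiff.mul
          · simp only [neg_zero]
            exact contDiff_const
          · apply ContDiff.neg
            apply ContDiff.sum
            intro j _
            exact (hdz j).sub ((hph j).mul (hv j).smooth)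
        · apply HasCompactSupport.intro (K := ⋃ j, tsupport (v j))
            (isCompact_iUnion fun j => (hv j).compact)
          intro x hx
          have h2 : ∀ j, x ∉ tsupport (v j) := fun j h => hx (Set.mem_iUnion.2 ⟨j, h⟩)
          unfold Tst
          rw [Finset.sum_eq_zero]
          · simp
          intro j _
          have h3 : fderiv ℝ (v j) x = 0 := fderiv_of_notMem_tsupport (𝕜 := ℝ) (h2 j)
          rw [image_eq_zero_of_notMem_tsupport (h2 j)]
          simp [dz, h3]
      have hSsm : ∀ p, IsTest Set.univ (Sst v p) := by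
        intro p
        refine ⟨?_, ?_, Set.subset_univ _⟩
        · unfold Sst
          exact (BK.JB1.JKI.dbar_smooth (hv _).smooth _).sub
            (BK.JB1.JKI.dbar_smooth (hv _).smooth _)
        · unfold Sst
          exact (wd_isTest (hv p.1.2) p.1.1).compact.sub (wd_isTest (hv p.1.1) p.1.2).compact
      have mM : ∀ w : En n → ℂ, IsTest Set.univ w →
          MemLp (fun x => w x * (wdM Φ x : ℂ)) 2
            ((volume : Measure (En n)).restrict Set.univ) := by
        intro w hw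
        have := wd_memLp ho (wd_cM cΦ) hw.smooth.continuous hw.compact hw.supp
        simpa only [mul_comm] using this
      obtain ⟨v', hv'⟩ : ∃ v' : Form (Set.univ : Set (En n)), ∀ j,
          (v' j : En n → ℂ) =ᵐ[(volume : Measure (En n)).restrict Set.univ]
          fun x => v j x * (wdM Φ x : ℂ) :=
        ⟨WithLp.toLp 2 (fun j => (mM _ (hv j)).toLp _), fun j => (mM _ (hv j)).coeFn_toLp⟩
      obtain ⟨f', hf'⟩ : ∃ f' : L2 (Set.univ : Set (En n)),
          (f' : En n → ℂ) =ᵐ[(volume : Measure (En n)).restrict Set.univ]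
          fun x => Tst Φ (fun _ => 0) v x * (wdM Φ x : ℂ) :=
        ⟨(mM _ (hTsm v hv)).toLp _, (mM _ (hTsm v hv)).coeFn_toLp⟩
      obtain ⟨c', hc'⟩ : ∃ c' : Form2 (Set.univ : Set (En n)), ∀ p,
          (c' p : En n → ℂ) =ᵐ[(volume : Measure (En n)).restrict Set.univ]
          fun x => Sst v p x * (wdM Φ x : ℂ) :=
        ⟨WithLp.toLp 2 (fun p => (mM _ (hSsm p)).toLp _), fun p => (mM _ (hSsm p)).coeFn_toLp⟩
      have d1 : ‖u - v'‖ ^ 2 ≤ (δ / 2) ^ 2 := by
        rw [PiLp.norm_sq_eq_of_L2]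
        simp only [PiLp.sub_apply]
        simp only [nrm_sub Φ _ _ _ (hv' _)]
        simpa using e1
      have d2 : ‖f - f'‖ ^ 2 ≤ (δ / 2) ^ 2 := by
        rw [nrm_sub Φ _ _ _ hf']
        simpa using e2
      have d3 : ‖c - c'‖ ^ 2 ≤ (δ / 2) ^ 2 := by
        rw [PiLp.norm_sq_eq_of_L2]
        simp only [PiLp.sub_apply]
        simp only [nrm_sub Φ _ _ _ (hc' _)]
        simpa using e3
      refine ⟨(v', f', c'), ?_, ?_⟩
      · show ‖inner ℂ v' gt‖ ^ 2 ≤ a * ‖f'‖ ^ 2 + a * ‖c'‖ ^ 2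
        have h1 := ap_test Φ hΦ g hg A hA0 hAi hgA hL v hv
        have h2 : ‖inner ℂ v' gt‖ =
            ‖∫ x, (∑ j, v j x * conj (g j x)) * (Real.exp (-Φ x) : ℝ)‖ := by
          rw [norm_inner_symm, wd_inner_pi]
          congr 1
          conv_rhs => rw [← setIntegral_univ]
          apply integral_congr_ae
          have hv'all : ∀ᵐ x ∂((volume : Measure (En n)).restrict Set.univ), ∀ j,
            v' j x = v j x * (wdM Φ x : ℂ) := ae_all_iff.2 hv'
          filter_upwards [hgtall, hv'all] with x hx hx'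
          rw [Finset.sum_mul, wd_MM]
          apply Finset.sum_congr rfl
          intro j _
          rw [hx j, hx' j, map_mul, Complex.conj_ofReal]
          push_cast
          ring
        have h3 : ‖f'‖ ^ 2 = ∫ x, ‖Tst Φ (fun _ => 0) v x‖ ^ 2 * Real.exp (-(Φ x)) := by
          rw [nrm_eq Φ _ _ hf', setIntegral_univ]
        have h4 : ‖c'‖ ^ 2 = ∑ p, ∫ x, ‖Sst v p x‖ ^ 2 * Real.exp (-(Φ x)) := by
          rw [PiLp.norm_sq_eq_of_L2]
          apply Finset.sum_congr rfl
          intro p _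
          rw [nrm_eq Φ _ _ (hc' p), setIntegral_univ]
        rw [h2, h3, h4, ← mul_add]
        exact h1
      · have hd : ∀ x : ℝ, 0 ≤ x → x ^ 2 ≤ (δ / 2) ^ 2 → x < δ := by
          intro x hx hx2
          have := le_of_sq_le_sq hx2 (by positivity)
          linarith
        rw [Prod.dist_eq, Prod.dist_eq]
        refine max_lt ?_ (max_lt ?_ ?_)
        · rw [dist_eq_norm]; exact hd _ (norm_nonneg _) d1
        · rw [dist_eq_norm]; exact hd _ (norm_nonneg _) d2
        · rw [dist_eq_norm]; exact hd _ (norm_nonneg _) d3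
    have := hZ.closure_eq ▸ hmem
    exact this
  obtain ⟨f, G, C, hfG, hG0, h6, h7, h8, h9, h10⟩ := BK.JB5.dual_abs T S hTc hSc hTS gt a a
    ha0 ha0 hap
  have hGg : G = gt := by
    have h1 : (G - gt, (0 : Form2 (Set.univ : Set (En n)))) ∈ S := by
      have := S.sub_mem hG0 hgtS
      rwa [Prod.mk_sub_mk, sub_zero] at this
    have h2 := h6 _ h1
    rw [← sub_eq_zero, ← inner_sub_right] at h2
    exact sub_eq_zero.1 (inner_self_eq_zero.1 h2)
  refine ⟨fun x => f x * (wdP Φ x : ℂ), ?_, ?_, ?_⟩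
  · have : (fun x => f x * (wdP Φ x : ℂ) * (Real.exp (-Φ x / 2) : ℝ)) = (f : En n → ℂ) := by
      funext x
      exact wd_back Φ x _
    rw [this]
    exact memLp_univ _ (Lp.memLp f)
  · intro j ρ hρ
    have b1 := (hT f G).1 hfG j ρ hρ
    rw [hGg] at b1
    have b2 : ∫ x in Set.univ, gt j x * ((wdP Φ x : ℂ) * ρ x) = ∫ x, g j x * ρ x := by
      conv_rhs => rw [← setIntegral_univ]
      apply integral_congr_ae
      filter_upwards [hgt j] with x hx
      rw [hx]
      linear_combination (g j x * ρ x) * wd_PMc Φ x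
    rw [b2, setIntegral_univ] at b1
    rw [← b1]
    congr 1
    funext x
    ring
  · have h1 := wd_norm_sq (Set.univ : Set (En n)) f
    rw [setIntegral_univ] at h1
    have h2 : ∫ x, ‖f x * (wdP Φ x : ℂ)‖ ^ 2 * Real.exp (-Φ x) = ‖f‖ ^ 2 := by
      rw [h1]
      congr 1
      funext x
      exact wd_sqback Φ x _
    rw [h2]
    exact h9

end Pool.Agent.TH239.CE
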