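import Pool.Agent.TH239.CE.Rh

/-! The smooth convex function `½ log Σ e^{2 Re (w,ξ_i)}` on `ℂⁿ` and its gradient. -/

set_option autoImplicit false

open MeasureTheory Complex Filter Topology Metric
open scoped ContDiff ComplexConjugate InnerProductSpace

namespace Pool.Agent.TH239.CE

open BK

variable {n : ℕ}

/-- the bilinear pairing -/
noncomputable def pr (w ξ : En n) : ℂ := ∑ j, w j * ξ j

/-- real part of the pairing, as a real linear functional of `w` -/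
noncomputable def prL (ξ : En n) : En n →L[ℝ] ℝ :=
  Complex.reCLM.comp (∑ j, (ContinuousLinearMap.mul ℝ ℂ (ξ j)).comp
    (ContinuousLinearMap.proj (R := ℝ) (φ := fun _ : Fin n => ℂ) j))

theorem prL_apply (ξ w : En n) : prL ξ w = (pr w ξ).re := by
  unfold prL pr
  simp [mul_comm]

theorem pr_norm_le (w ξ : En n) : ‖pr w ξ‖ ≤ n * ‖w‖ * ‖ξ‖ := by
  unfold pr
  calc ‖∑ j, w j * ξ j‖ ≤ ∑ _j : Fin n, ‖w‖ * ‖ξ‖ := by
        refine (norm_sum_le _ _).trans (Finset.sum_le_sum fun j _ => ?_)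
        rw [norm_mul]
        exact mul_le_mul (norm_le_pi_norm w j) (norm_le_pi_norm ξ j) (norm_nonneg _) (norm_nonneg _)
    _ = _ := by simp; ring

theorem pr_re_le (w ξ : En n) : |(pr w ξ).re| ≤ n * ‖w‖ * ‖ξ‖ :=
  (Complex.abs_re_le_norm _).trans (pr_norm_le w ξ)

theorem pr_norm_le_eu (w ξ : En n) : ‖pr w ξ‖ ≤ eu w * eu ξ := by
  have h1 : ‖pr w ξ‖ ≤ ∑ j, ‖w j‖ * ‖ξ j‖ := by
    unfold pr
    refine (norm_sum_le _ _).trans (le_of_eq ?_)
    simp
  have h2 : ‖pr w ξ‖ ^ 2 ≤ (eu w * eu ξ) ^ 2 := by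
    rw [mul_pow, eu_sq, eu_sq]
    exact (pow_le_pow_left₀ (norm_nonneg _) h1 2).trans (Finset.sum_mul_sq_le_sq_mul_sq _ _ _)
  exact le_of_sq_le_sq h2 (mul_nonneg (eu_nonneg _) (eu_nonneg _))

noncomputable def Ex (t : Finset (En n)) (w : En n) : ℝ := ∑ ξ ∈ t, Real.exp (2 * prL ξ w)

noncomputable def h1 (t : Finset (En n)) (w : En n) : ℝ := 1 / 2 * Real.log (Ex t w)

noncomputable def pp (t : Finset (En n)) (ξ w : En n) : ℝ := Real.exp (2 * prL ξ w - 2 * h1 t w)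

theorem Ex_pos {t : Finset (En n)} (ht : t.Nonempty) (w : En n) : 0 < Ex t w :=
  Finset.sum_pos (fun _ _ => Real.exp_pos _) ht

theorem Ex_smooth (t : Finset (En n)) : ContDiff ℝ ∞ (Ex t) := by
  unfold Ex
  exact ContDiff.sum fun ξ _ => Real.contDiff_exp.comp (contDiff_const.mul (prL ξ).contDiff)

theorem h1_smooth {t : Finset (En n)} (ht : t.Nonempty) : ContDiff ℝ ∞ (h1 t) := by
  unfold h1
  exact contDiff_const.mul ((Ex_smooth t).log fun w => (Ex_pos ht w).ne')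

theorem pp_smooth {t : Finset (En n)} (ht : t.Nonempty) (ξ : En n) : ContDiff ℝ ∞ (pp t ξ) := by
  unfold pp
  exact Real.contDiff_exp.comp ((contDiff_const.mul (prL ξ).contDiff).sub
    (contDiff_const.mul (h1_smooth ht)))

theorem pp_eq {t : Finset (En n)} (ht : t.Nonempty) (ξ w : En n) :
    pp t ξ w = Real.exp (2 * prL ξ w) / Ex t w := by
  unfold pp h1
  rw [Real.exp_sub, show 2 * (1 / 2 * Real.log (Ex t w)) = Real.log (Ex t w) by ring,
    Real.exp_log (Ex_pos ht w)]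

theorem pp_pos (t : Finset (En n)) (ξ w : En n) : 0 < pp t ξ w := Real.exp_pos _

theorem pp_sum {t : Finset (En n)} (ht : t.Nonempty) (w : En n) : ∑ ξ ∈ t, pp t ξ w = 1 := by
  simp_rw [pp_eq ht]
  rw [← Finset.sum_div]
  exact div_self (Ex_pos ht w).ne'

theorem pp_le_one {t : Finset (En n)} (ht : t.Nonempty) {ξ : En n} (hξ : ξ ∈ t) (w : En n) :
    pp t ξ w ≤ 1 := by
  rw [← pp_sum ht w]
  exact Finset.single_le_sum (f := fun ξ => pp t ξ w) (fun ξ _ => (pp_pos t ξ w).le) hξ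

theorem h1_hasFDerivAt {t : Finset (En n)} (ht : t.Nonempty) (w : En n) :
    HasFDerivAt (h1 t) (∑ ξ ∈ t, pp t ξ w • prL ξ) w := by
  have hE : HasFDerivAt (Ex t) (∑ ξ ∈ t, (Real.exp (2 * prL ξ w) * 2) • prL ξ) w := by
    unfold Ex
    apply HasFDerivAt.fun_sum
    intro ξ _
    have h2 : HasFDerivAt (fun w => 2 * prL ξ w) ((2 : ℝ) • prL ξ) w :=
      (prL ξ).hasFDerivAt.const_mul 2
    have h3 := h2.exp
    rwa [smul_smul] at h3
  have h2 := (hE.log (Ex_pos ht w).ne').const_mul (1 / 2)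
  refine h2.congr_fderiv ?_
  rw [smul_smul, Finset.smul_sum]
  apply Finset.sum_congr rfl
  intro ξ _
  rw [smul_smul, pp_eq ht]
  congr 1
  field_simp

theorem pp_hasFDerivAt {t : Finset (En n)} (ht : t.Nonempty) (ξ w : En n) :
    HasFDerivAt (pp t ξ) (pp t ξ w • ((2 : ℝ) • prL ξ - (2 : ℝ) • ∑ ξ ∈ t, pp t ξ w • prL ξ)) w := by
  unfold pp
  exact (((prL ξ).hasFDerivAt.const_mul 2).sub ((h1_hasFDerivAt ht w).const_mul 2)).exp

theorem prL_norm_le (ξ : En n) (v : En n) : ‖prL ξ v‖ ≤ n * ‖ξ‖ * ‖v‖ := by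
  rw [prL_apply, Real.norm_eq_abs]
  refine (pr_re_le v ξ).trans (le_of_eq (by ring))

theorem pp_fderiv_le {t : Finset (En n)} (ht : t.Nonempty) {B : ℝ} (hB : ∀ ξ ∈ t, ‖ξ‖ ≤ B)
    {ξ : En n} (hξ : ξ ∈ t) (w v : En n) : ‖fderiv ℝ (pp t ξ) w v‖ ≤ 4 * n * B * ‖v‖ := by
  have hB0 : 0 ≤ B := (norm_nonneg ξ).trans (hB ξ hξ)
  rw [(pp_hasFDerivAt ht ξ w).fderiv]
  have hb : ∀ ξ ∈ t, ‖prL ξ v‖ ≤ n * B * ‖v‖ := by
    intro ξ hξ
    refine (prL_norm_le ξ v).trans ?_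
    apply mul_le_mul_of_nonneg_right _ (norm_nonneg _)
    exact mul_le_mul_of_nonneg_left (hB ξ hξ) (Nat.cast_nonneg n)
  have h2 : ‖(∑ ξ ∈ t, pp t ξ w • prL ξ) v‖ ≤ n * B * ‖v‖ := by
    rw [sum_apply]
    calc ‖∑ ξ ∈ t, (pp t ξ w • prL ξ) v‖ ≤ ∑ ξ ∈ t, pp t ξ w * (n * B * ‖v‖) := by
          refine (norm_sum_le _ _).trans (Finset.sum_le_sum fun ξ hξ => ?_)
          rw [smul_apply, norm_smul, Real.norm_of_nonneg (pp_pos t ξ w).le]
          exact mul_le_mul_of_nonneg_left (hb ξ hξ) (pp_pos t ξ w).le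
      _ = n * B * ‖v‖ := by rw [← Finset.sum_mul, pp_sum ht, one_mul]
  have h3 := hb ξ hξ
  rw [smul_apply, norm_smul, Real.norm_of_nonneg (pp_pos t ξ w).le,
    sub_apply, smul_apply, smul_apply]
  have h4 : ‖(2 : ℝ) • (prL ξ) v - (2 : ℝ) • (∑ ξ ∈ t, pp t ξ w • prL ξ) v‖ ≤ 4 * n * B * ‖v‖ := by
    refine (norm_sub_le _ _).trans ?_
    rw [norm_smul, norm_smul, Real.norm_two]
    linarith
  calc pp t ξ w * _ ≤ 1 * (4 * n * B * ‖v‖) :=
        mul_le_mul (pp_le_one ht hξ w) h4 (norm_nonneg _) zero_le_one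
    _ = _ := one_mul _

theorem re_le_h1 {t : Finset (En n)} (ht : t.Nonempty) {ξ : En n} (hξ : ξ ∈ t) (w : En n) :
    (pr w ξ).re ≤ h1 t w := by
  have h2 : Real.exp (2 * prL ξ w) ≤ Ex t w :=
    Finset.single_le_sum (f := fun ξ => Real.exp (2 * prL ξ w)) (fun ξ _ => (Real.exp_pos _).le) hξ
  have h3 := (Real.le_log_iff_exp_le (Ex_pos ht w)).2 h2
  unfold h1
  rw [prL_apply] at h3
  linarith

theorem h1_le {t : Finset (En n)} (ht : t.Nonempty) {B : ℝ} (hB : ∀ ξ ∈ t, ‖ξ‖ ≤ B) (w : En n) :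
    h1 t w ≤ 1 / 2 * Real.log t.card + n * B * ‖w‖ := by
  have h2 : Ex t w ≤ t.card * Real.exp (2 * (n * B * ‖w‖)) := by
    unfold Ex
    rw [← nsmul_eq_mul]
    apply Finset.sum_le_card_nsmul
    intro ξ hξ
    apply Real.exp_le_exp.2
    have h3 := prL_norm_le ξ w
    have h4 : n * ‖ξ‖ * ‖w‖ ≤ n * B * ‖w‖ := by
      apply mul_le_mul_of_nonneg_right _ (norm_nonneg _)
      exact mul_le_mul_of_nonneg_left (hB ξ hξ) (Nat.cast_nonneg n)
    have h5 := le_abs_self (prL ξ w)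
    rw [Real.norm_eq_abs] at h3
    linarith
  have hc : (0 : ℝ) < t.card := by exact_mod_cast ht.card_pos
  have h3 := Real.log_le_log (Ex_pos ht w) h2
  rw [Real.log_mul hc.ne' (Real.exp_pos _).ne', Real.log_exp] at h3
  unfold h1
  linarith

/-- convexity -/
theorem h1_convex {t : Finset (En n)} (ht : t.Nonempty) (z w : En n) :
    h1 t w + ∑ ξ ∈ t, pp t ξ w * (pr (z - w) ξ).re ≤ h1 t z := by
  set m := ∑ ξ ∈ t, pp t ξ w * (2 * prL ξ (z - w)) with hm
  have h2 : Real.exp m ≤ ∑ ξ ∈ t, pp t ξ w * Real.exp (2 * prL ξ (z - w)) := by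
    have h3 : ∀ ξ ∈ t, pp t ξ w * (Real.exp m * (2 * prL ξ (z - w) - m + 1)) ≤
        pp t ξ w * Real.exp (2 * prL ξ (z - w)) := by
      intro ξ _
      apply mul_le_mul_of_nonneg_left _ (pp_pos t ξ w).le
      have h4 := Real.add_one_le_exp (2 * prL ξ (z - w) - m)
      have h5 := mul_le_mul_of_nonneg_left h4 (Real.exp_pos m).le
      rw [← Real.exp_add] at h5
      have h6 : m + (2 * prL ξ (z - w) - m) = 2 * prL ξ (z - w) := by ring
      rwa [h6] at h5
    have h4 := Finset.sum_le_sum h3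
    have h5 : ∑ ξ ∈ t, pp t ξ w * (Real.exp m * (2 * prL ξ (z - w) - m + 1)) = Real.exp m := by
      have h6 : ∀ ξ ∈ t, pp t ξ w * (Real.exp m * (2 * prL ξ (z - w) - m + 1)) =
          Real.exp m * (pp t ξ w * (2 * prL ξ (z - w))) + Real.exp m * (1 - m) * pp t ξ w := by
        intro ξ _
        ring
      rw [Finset.sum_congr rfl h6, Finset.sum_add_distrib, ← Finset.mul_sum, ← Finset.mul_sum,
        pp_sum ht, ← hm]
      ring
    rwa [h5] at h4
  have h3 : ∑ ξ ∈ t, pp t ξ w * Real.exp (2 * prL ξ (z - w)) = Ex t z / Ex t w := by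
    simp_rw [pp_eq ht]
    unfold Ex
    rw [Finset.sum_div]
    apply Finset.sum_congr rfl
    intro ξ _
    rw [div_mul_eq_mul_div, ← Real.exp_add]
    congr 2
    rw [map_sub]
    ring
  rw [h3] at h2
  have h4 := (Real.le_log_iff_exp_le (div_pos (Ex_pos ht z) (Ex_pos ht w))).2 h2
  rw [Real.log_div (Ex_pos ht z).ne' (Ex_pos ht w).ne'] at h4
  have h5 : m = 2 * ∑ ξ ∈ t, pp t ξ w * (pr (z - w) ξ).re := by
    rw [hm, Finset.mul_sum]
    apply Finset.sum_congr rfl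
    intro ξ _
    rw [prL_apply]
    ring
  unfold h1
  rw [h5] at h4
  linarith

theorem rh_convex (z w : En n) :
    rh w + (pr (z - w) (fun j => conj (w j) / (rh w : ℂ))).re ≤ rh z := by
  have hw := rh_pos w
  have hz := rh_pos z
  have h1 : (pr (z - w) (fun j => conj (w j) / (rh w : ℂ))).re =
      ((pr z (fun j => conj (w j))).re - (rh w ^ 2 - 1)) / rh w := by
    have h2 : pr (z - w) (fun j => conj (w j) / (rh w : ℂ)) =
        (pr z (fun j => conj (w j)) - ((rh w ^ 2 - 1 : ℝ) : ℂ)) / (rh w : ℂ) := by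
      have h3 : ((rh w ^ 2 - 1 : ℝ) : ℂ) = ∑ j, w j * conj (w j) := by
        rw [rh_sq]
        push_cast
        rw [add_sub_cancel_left]
        apply Finset.sum_congr rfl
        intro j _
        rw [Complex.mul_conj, Complex.normSq_eq_norm_sq]
        push_cast
        rfl
      rw [h3]
      unfold pr
      rw [← Finset.sum_sub_distrib, Finset.sum_div]
      apply Finset.sum_congr rfl
      intro j _
      simp only [Pi.sub_apply]
      ring
    rw [h2, Complex.div_ofReal_re, Complex.sub_re, Complex.ofReal_re]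
  rw [h1]
  have h2 : (pr z (fun j => conj (w j))).re ≤ eu z * eu w := by
    refine (Complex.re_le_norm _).trans ((pr_norm_le_eu _ _).trans (le_of_eq ?_))
    congr 1
    have h3 : eu (fun j => conj (w j)) ^ 2 = eu w ^ 2 := by
      rw [eu_sq, eu_sq]
      simp
    have := eu_nonneg w
    have := eu_nonneg (fun j => conj (w j))
    nlinarith [sq_nonneg (eu w - eu (fun j => conj (w j))),
      sq_nonneg (eu w + eu (fun j => conj (w j)))]
  have h3 : eu z * eu w + 1 ≤ rh z * rh w := by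
    have e1 : rh z ^ 2 = 1 + eu z ^ 2 := by rw [rh_sq, eu_sq]
    have e2 : rh w ^ 2 = 1 + eu w ^ 2 := by rw [rh_sq, eu_sq]
    have h5 := eu_nonneg z
    have h6 := eu_nonneg w
    apply le_of_sq_le_sq _ (by positivity)
    rw [mul_pow, e1, e2]
    nlinarith [sq_nonneg (eu z - eu w)]
  rw [← sub_nonneg]
  have h4 : rh z - (rh w + ((pr z (fun j => conj (w j))).re - (rh w ^ 2 - 1)) / rh w) =
      (rh z * rh w - 1 - (pr z (fun j => conj (w j))).re) / rh w := by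
    field_simp
    ring
  rw [h4]
  apply div_nonneg _ hw.le
  linarith

/-- the gradient map -/
noncomputable def QQ (t : Finset (En n)) (d : ℝ) (w : En n) : En n := fun j =>
  (∑ ξ ∈ t, (pp t ξ w : ℂ) * ξ j) + (d : ℂ) * (conj (w j) / (rh w : ℂ))

noncomputable def Q1 (t : Finset (En n)) (w : En n) : En n := fun j =>
  ∑ ξ ∈ t, (pp t ξ w : ℂ) * ξ j

theorem Q1_mem {t : Finset (En n)} (ht : t.Nonempty) {K : Set (En n)} (hK : Convex ℝ K)
    (htK : ∀ ξ ∈ t, ξ ∈ K) (w : En n) : Q1 t w ∈ K := by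
  have h2 : Q1 t w = ∑ ξ ∈ t, pp t ξ w • ξ := by
    funext j
    unfold Q1
    rw [Finset.sum_apply]
    simp
  rw [h2]
  exact hK.sum_mem (fun ξ _ => (pp_pos t ξ w).le) (pp_sum ht w) htK

theorem QQ_dist (t : Finset (En n)) {d : ℝ} (hd : 0 ≤ d) (w : En n) :
    dist (QQ t d w) (Q1 t w) ≤ d := by
  rw [dist_eq_norm, pi_norm_le_iff_of_nonneg hd]
  intro j
  have h2 : (QQ t d w - Q1 t w) j = (d : ℂ) * (conj (w j) / (rh w : ℂ)) := by
    simp [QQ, Q1]
  rw [h2, norm_mul, norm_div, RCLike.norm_conj, Complex.norm_real, Complex.norm_real,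
    Real.norm_of_nonneg hd, Real.norm_of_nonneg (rh_pos w).le]
  apply mul_le_of_le_one_right hd
  rw [div_le_one (rh_pos w)]
  exact (norm_le_pi_norm w j).trans (norm_le_rh w)

theorem q2_smooth (j : Fin n) : ContDiff ℝ ∞ (fun w : En n => conj (w j) / (rh w : ℂ)) := by
  have h7 : (fun w : En n => conj (w j) / (rh w : ℂ)) =
      fun w : En n => conj (w j) * (((rh w)⁻¹ : ℝ) : ℂ) := by
    funext w
    push_cast
    rfl
  rw [h7]
  exact ((Complex.conjCLE : ℂ →L[ℝ] ℂ).contDiff.comp (contDiff_apply ℝ ℂ j)).mul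
    (Complex.ofRealCLM.contDiff.comp (rh_contDiff.inv fun w => (rh_pos w).ne'))

theorem QQ_smooth {t : Finset (En n)} (ht : t.Nonempty) (d : ℝ) : ContDiff ℝ ∞ (QQ t d) := by
  rw [contDiff_pi]
  intro j
  unfold QQ
  apply ContDiff.add
  · apply ContDiff.sum
    intro ξ _
    exact (Complex.ofRealCLM.contDiff.comp (pp_smooth ht ξ)).mul contDiff_const
  · exact contDiff_const.mul (q2_smooth j)

/-- the weight -/
noncomputable def h2 (t : Finset (En n)) (d : ℝ) (w : En n) : ℝ := h1 t w + d * rh w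

theorem h2_convex {t : Finset (En n)} (ht : t.Nonempty) {d : ℝ} (hd : 0 ≤ d) (z w : En n) :
    (∑ j, QQ t d w j * (z j - w j)).re ≤ h2 t d z - h2 t d w := by
  have e1 : ∑ j, QQ t d w j * (z j - w j) = (∑ ξ ∈ t, (pp t ξ w : ℂ) * pr (z - w) ξ) +
      (d : ℂ) * pr (z - w) (fun j => conj (w j) / (rh w : ℂ)) := by
    unfold QQ pr
    simp_rw [add_mul, Finset.sum_add_distrib, Finset.sum_mul, Finset.mul_sum]
    rw [Finset.sum_comm]
    congr 1
    · apply Finset.sum_congr rfl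
      intro ξ _
      apply Finset.sum_congr rfl
      intro j _
      simp only [Pi.sub_apply]
      ring
    · apply Finset.sum_congr rfl
      intro j _
      simp only [Pi.sub_apply]
      ring
  rw [e1, Complex.add_re, Complex.re_sum, Complex.re_ofReal_mul]
  simp_rw [Complex.re_ofReal_mul]
  have e2 := h1_convex ht z w
  have e3 := mul_le_mul_of_nonneg_left (rh_convex z w) hd
  unfold h2
  linarith

theorem dbar_le {f : En n → ℂ} {w : En n} {M : ℝ} (h : ∀ v, ‖fderiv ℝ f w v‖ ≤ M * ‖v‖)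
    (k : Fin n) : ‖dbar k f w‖ ≤ M := by
  unfold dbar
  have h2 := h (Pi.single k 1)
  have h3 := h (Pi.single k I)
  rw [Pi.norm_single] at h2 h3
  rw [norm_one, mul_one] at h2
  rw [norm_I, mul_one] at h3
  rw [norm_mul]
  have h4 : ‖(1 / 2 : ℂ)‖ = 1 / 2 := by simp
  rw [h4]
  have h5 := norm_add_le (fderiv ℝ f w (Pi.single k 1)) (I * fderiv ℝ f w (Pi.single k I))
  rw [norm_mul, norm_I, one_mul] at h5
  linarith

theorem rh_hasFDerivAt (w : En n) :
    HasFDerivAt (rh : En n → ℝ) ((rh w)⁻¹ • prL (fun j => conj (w j))) w := by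
  have h2 : HasFDerivAt (fun z : En n => 1 + ∑ j, ‖z j‖ ^ 2)
      ((2 : ℝ) • prL (fun j => conj (w j))) w := by
    have h3 : ∀ j ∈ (Finset.univ : Finset (Fin n)), HasFDerivAt (fun z : En n => ‖z j‖ ^ 2)
        ((2 : ℝ) • (innerSL ℝ (w j)).comp
          (ContinuousLinearMap.proj (R := ℝ) (φ := fun _ : Fin n => ℂ) j)) w := by
      intro j _
      have h4 : HasFDerivAt (fun z : En n => z j)
        (ContinuousLinearMap.proj (R := ℝ) (φ := fun _ : Fin n => ℂ) j) w :=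
        (ContinuousLinearMap.proj (R := ℝ) (φ := fun _ : Fin n => ℂ) j).hasFDerivAt
      refine h4.norm_sq.congr_fderiv ?_
      rw [← Nat.cast_smul_eq_nsmul ℝ]
      norm_num
    have h4 := (HasFDerivAt.fun_sum h3).const_add 1
    refine h4.congr_fderiv ?_
    ext v
    rw [sum_apply, smul_apply, prL_apply]
    unfold pr
    rw [Complex.re_sum, smul_eq_mul, Finset.mul_sum]
    apply Finset.sum_congr rfl
    intro j _
    simp [Complex.inner, mul_comm]
  have h3 := h2.sqrt (rh_arg_pos w).ne'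
  refine h3.congr_fderiv ?_
  rw [smul_smul]
  congr 1
  unfold rh
  field_simp

theorem q2_fderiv_le (j : Fin n) (w v : En n) :
    ‖fderiv ℝ (fun w : En n => conj (w j) / (rh w : ℂ)) w v‖ ≤ (1 + n) * ‖v‖ := by
  have hr := rh_hasFDerivAt w
  have hw := rh_pos w
  have hw1 := rh_one_le w
  have h2 : HasFDerivAt (fun w : En n => ((rh w : ℝ) : ℂ))
      (Complex.ofRealCLM.comp ((rh w)⁻¹ • prL (fun j => conj (w j)))) w :=
    Complex.ofRealCLM.hasFDerivAt.comp w hr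
  have h3 : HasFDerivAt (fun w : En n => conj (w j))
      ((Complex.conjCLE : ℂ →L[ℝ] ℂ).comp
        (ContinuousLinearMap.proj (R := ℝ) (φ := fun _ : Fin n => ℂ) j)) w :=
    (Complex.conjCLE : ℂ →L[ℝ] ℂ).hasFDerivAt.comp w
      (ContinuousLinearMap.proj (R := ℝ) (φ := fun _ : Fin n => ℂ) j).hasFDerivAt
  have hne : (rh w : ℂ) ≠ 0 := by exact_mod_cast hw.ne'
  -- write the quotient as a product with the real function `1/rh`
  have h4 : HasFDerivAt (fun w : En n => (rh w)⁻¹)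
      ((-(rh w ^ 2)⁻¹) • ((rh w)⁻¹ • prL (fun j => conj (w j)))) w := by
    have := (hasDerivAt_inv hw.ne').comp_hasFDerivAt w hr
    exact this
  have h5 : HasFDerivAt (fun w : En n => (((rh w)⁻¹ : ℝ) : ℂ))
      (Complex.ofRealCLM.comp ((-(rh w ^ 2)⁻¹) • ((rh w)⁻¹ • prL (fun j => conj (w j))))) w :=
    Complex.ofRealCLM.hasFDerivAt.comp w h4
  have h6 : HasFDerivAt (fun w : En n => conj (w j) * (((rh w)⁻¹ : ℝ) : ℂ)) _ w := h3.mul h5
  have h7 : (fun w : En n => conj (w j) / (rh w : ℂ)) =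
      fun w : En n => conj (w j) * (((rh w)⁻¹ : ℝ) : ℂ) := by
    funext w
    push_cast
    rfl
  rw [h7, h6.fderiv]
  have e1 : ‖v j‖ ≤ ‖v‖ := norm_le_pi_norm v j
  have e2 : ‖w j‖ ≤ rh w := (norm_le_pi_norm w j).trans (norm_le_rh w)
  have e3 : |prL (fun j => conj (w j)) v| ≤ rh w * (n * ‖v‖) := by
    rw [prL_apply]
    refine (Complex.abs_re_le_norm _).trans ((pr_norm_le_eu _ _).trans ?_)
    have h8 : eu (fun j => conj (w j)) ^ 2 = eu w ^ 2 := by
      rw [eu_sq, eu_sq]; simp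
    have h9 : eu (fun j => conj (w j)) ≤ rh w := by
      have := eu_nonneg w
      have h10 := eu_le_rh w
      exact (le_of_sq_le_sq h8.le this).trans h10
    rw [mul_comm]
    exact mul_le_mul h9 (eu_le v) (eu_nonneg _) hw.le
  simp only [add_apply, smul_apply,
    ContinuousLinearMap.comp_apply, ContinuousLinearMap.proj_apply, smul_eq_mul,
    Complex.ofRealCLM_apply]
  refine (norm_add_le _ _).trans ?_
  have e4 : ‖conj (w j) * (((-(rh w ^ 2)⁻¹ * ((rh w)⁻¹ * prL (fun j => conj (w j)) v) : ℝ)) : ℂ)‖ ≤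
      n * ‖v‖ := by
    rw [norm_mul, RCLike.norm_conj, Complex.norm_real, norm_mul, norm_neg, norm_inv, norm_mul,
      norm_inv, Real.norm_of_nonneg hw.le, Real.norm_of_nonneg (sq_nonneg _), Real.norm_eq_abs]
    calc ‖w j‖ * ((rh w ^ 2)⁻¹ * ((rh w)⁻¹ * |prL (fun j => conj (w j)) v|)) ≤
          rh w * ((rh w ^ 2)⁻¹ * ((rh w)⁻¹ * (rh w * (n * ‖v‖)))) := by
          gcongr
      _ = n * ‖v‖ / rh w := by field_simp
      _ ≤ n * ‖v‖ := div_le_self (by positivity) hw1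
  have e5 : ‖(((rh w)⁻¹ : ℝ) : ℂ) * ((Complex.conjCLE : ℂ →L[ℝ] ℂ) (v j))‖ ≤ ‖v‖ := by
    rw [norm_mul, Complex.norm_real, norm_inv, Real.norm_of_nonneg hw.le]
    have : ‖(Complex.conjCLE : ℂ →L[ℝ] ℂ) (v j)‖ = ‖v j‖ := by simp
    rw [this]
    calc (rh w)⁻¹ * ‖v j‖ ≤ 1 * ‖v‖ :=
          mul_le_mul (inv_le_one_of_one_le₀ hw1) e1 (norm_nonneg _) zero_le_one
      _ = ‖v‖ := one_mul _
  linarith

theorem QQ_fderiv_le {t : Finset (En n)} (ht : t.Nonempty) {B : ℝ} (hB : ∀ ξ ∈ t, ‖ξ‖ ≤ B)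
    {d : ℝ} (hd : 0 ≤ d) (j k : Fin n) (w : En n) :
    ‖dbar k (fun w => QQ t d w j) w‖ ≤ t.card * (4 * n * B * B) + d * (1 + n) := by
  obtain ⟨ξ0, hξ0⟩ := ht
  have ht : t.Nonempty := ⟨ξ0, hξ0⟩
  have hB0 : 0 ≤ B := (norm_nonneg ξ0).trans (hB ξ0 hξ0)
  apply dbar_le
  intro v
  have h2 : ∀ ξ ∈ t, HasFDerivAt (fun w => (pp t ξ w : ℂ) * ξ j)
      ((ξ j) • (Complex.ofRealCLM.comp (fderiv ℝ (pp t ξ) w))) w := by
    intro ξ _
    have h3 : HasFDerivAt (fun w => (pp t ξ w : ℂ)) (Complex.ofRealCLM.comp (fderiv ℝ (pp t ξ) w)) w :=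
      Complex.ofRealCLM.hasFDerivAt.comp w
        (((pp_smooth ht ξ).differentiable (by norm_num)) w).hasFDerivAt
    exact h3.mul_const (ξ j)
  have h3 : DifferentiableAt ℝ (fun w : En n => conj (w j) / (rh w : ℂ)) w :=
    ((q2_smooth j).differentiable (by norm_num)) w
  have h4 := (HasFDerivAt.fun_sum h2).add (h3.hasFDerivAt.const_mul (d : ℂ))
  have h5 : fderiv ℝ (fun w => QQ t d w j) w = _ := h4.fderiv
  rw [h5, add_apply, sum_apply]
  refine (norm_add_le _ _).trans ?_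
  rw [add_mul]
  apply add_le_add
  · refine (norm_sum_le _ _).trans ?_
    have h6 : ∀ ξ ∈ t, ‖((ξ j) • (Complex.ofRealCLM.comp (fderiv ℝ (pp t ξ) w))) v‖ ≤
        4 * n * B * B * ‖v‖ := by
      intro ξ hξ
      have h7 : ((ξ j) • (Complex.ofRealCLM.comp (fderiv ℝ (pp t ξ) w))) v =
          ξ j * ((fderiv ℝ (pp t ξ) w v : ℝ) : ℂ) := rfl
      rw [h7, norm_mul, Complex.norm_real]
      have h8 := pp_fderiv_le ht hB hξ w v
      have h9 := (norm_le_pi_norm ξ j).trans (hB ξ hξ)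
      calc ‖ξ j‖ * ‖fderiv ℝ (pp t ξ) w v‖ ≤ B * (4 * n * B * ‖v‖) :=
            mul_le_mul h9 h8 (norm_nonneg _) hB0
        _ = _ := by ring
    refine (Finset.sum_le_card_nsmul _ _ _ h6).trans (le_of_eq ?_)
    rw [nsmul_eq_mul]
    ring
  · rw [smul_apply, norm_smul, Complex.norm_real, Real.norm_of_nonneg hd,
      mul_assoc]
    exact mul_le_mul_of_nonneg_left (q2_fderiv_le j w v) hd

end Pool.Agent.TH239.CE
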