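import Pool.Agent.TH239.CE.App
import Pool.Agent.TH635.J215

/-! Approximation of a quotient by polynomials. -/

set_option autoImplicit false

open MeasureTheory Complex Filter Topology Metric
open scoped ContDiff ComplexConjugate InnerProductSpace

namespace Pool.Agent.TH239.CE

open BK BK.JB6

variable {n : ℕ}

theorem approx_poly (hWt : WeightSt n) (φ χ : En n → ℂ) (hφ : Differentiable ℂ φ)
    (hχ : Differentiable ℂ χ) (h : En n → ℝ) (hh : Continuous h) (C0 : ℝ) (hC0 : 0 ≤ C0)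
    (hφh : ∀ z, ‖φ z‖ ≤ C0 * Real.exp (h z)) (hψh : ∀ z, ‖φ z * χ z‖ ≤ C0 * Real.exp (h z))
    (A : ℝ) (hA : 1 ≤ A) (hχA : ∀ z, 1 / 2 * Real.log (1 + ‖χ z‖ ^ 2) ≤ A * rh z)
    (ε : ℝ) (hε : 0 < ε) (hε1 : ε ≤ 1) (δ : ℝ) (hδ : 0 < δ) :
    ∃ P : MvPolynomial (Fin n) ℂ,
      Integrable (fun z => ‖φ z * (MvPolynomial.eval z P - χ z)‖ ^ 2 *
        Real.exp (-2 * h z - 9 * ε * rh z)) ∧
      ∫ z, ‖φ z * (MvPolynomial.eval z P - χ z)‖ ^ 2 * Real.exp (-2 * h z - 9 * ε * rh z) < δ := by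
  obtain ⟨K, hK⟩ := step hWt φ χ hφ hχ h hh C0 hC0 hφh hψh A hA hχA ε hε hε1
  -- choice of `r`
  obtain ⟨r, hr1, hr⟩ : ∃ r : ℝ, 1 ≤ r ∧ K / r ^ 2 + K * Real.exp (-ε * r) < δ / 4 := by
    have h1 : Tendsto (fun r : ℝ => K / r ^ 2 + K * Real.exp (-ε * r)) atTop (𝓝 (0 + K * 0)) := by
      apply Tendsto.add
      · exact tendsto_const_nhds.div_atTop (tendsto_pow_atTop two_ne_zero)
      · apply Tendsto.const_mul
        apply Real.tendsto_exp_atBot.comp
        exact tendsto_id.const_mul_atTop_of_neg (by linarith)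
    rw [mul_zero, add_zero] at h1
    have h2 := (h1.eventually (gt_mem_nhds (show (0 : ℝ) < δ / 4 by linarith))).and
      (eventually_ge_atTop (1 : ℝ))
    obtain ⟨r, h3, h4⟩ := h2.exists
    exact ⟨r, h4, h3⟩
  obtain ⟨G, hG, hG1, hG2, hG3⟩ := hK r hr1
  obtain ⟨C, hC, hGb⟩ := pt_bound G hG (2 * ε) (by positivity)
    (hG1.congr (Eventually.of_forall fun x => by simp only; ring_nf))
  obtain ⟨P, hP⟩ := Pool.Agent.TH635.J215.taylor_poly G hG
  have hPb : ∀ N z, ‖G z - MvPolynomial.eval z (P N)‖ ≤ (1 / 2) ^ N *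
      (C * Real.exp (4 * ε * rh z)) := by
    intro N z
    apply hP
    intro l hl
    refine (hGb (l • z)).trans ?_
    apply mul_le_mul_of_nonneg_left _ hC
    apply Real.exp_le_exp.2
    have := rh_smul_two l hl z
    nlinarith
  have hes : Integrable (fun x : En n => Real.exp (-ε * rh x)) := int_exp_rh ε hε
  set I2 := ∫ x : En n, Real.exp (-ε * rh x) with hI2
  have hI20 : 0 ≤ I2 := integral_nonneg fun x => (Real.exp_pos _).le
  obtain ⟨N, hN⟩ : ∃ N : ℕ, 2 * C0 ^ 2 * C ^ 2 * I2 * (1 / 4) ^ N < δ / 4 := by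
    have h1 : Tendsto (fun N : ℕ => 2 * C0 ^ 2 * C ^ 2 * I2 * (1 / 4 : ℝ) ^ N) atTop
        (𝓝 (2 * C0 ^ 2 * C ^ 2 * I2 * 0)) :=
      (tendsto_pow_atTop_nhds_zero_of_lt_one (by norm_num) (by norm_num)).const_mul _
    rw [mul_zero] at h1
    exact (h1.eventually (gt_mem_nhds (show (0 : ℝ) < δ / 4 by linarith))).exists
  have hpt : ∀ z, ‖φ z * (MvPolynomial.eval z (P N) - χ z)‖ ^ 2 *
      Real.exp (-2 * h z - 9 * ε * rh z) ≤
      2 * C0 ^ 2 * C ^ 2 * (1 / 4) ^ N * Real.exp (-ε * rh z) +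
      2 * (‖φ z * (G z - χ z)‖ ^ 2 * Real.exp (-2 * h z - 2 * ε * rh z)) := by
    intro z
    have h1 : ‖φ z * (MvPolynomial.eval z (P N) - χ z)‖ ^ 2 ≤
        2 * ‖φ z * (G z - MvPolynomial.eval z (P N))‖ ^ 2 + 2 * ‖φ z * (G z - χ z)‖ ^ 2 := by
      have e1 : φ z * (MvPolynomial.eval z (P N) - χ z) =
          φ z * (G z - χ z) - φ z * (G z - MvPolynomial.eval z (P N)) := by ring
      rw [e1]
      have h2 := norm_sub_le (φ z * (G z - χ z)) (φ z * (G z - MvPolynomial.eval z (P N)))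
      have h3 := pow_le_pow_left₀ (norm_nonneg _) h2 2
      nlinarith [sq_nonneg (‖φ z * (G z - χ z)‖ - ‖φ z * (G z - MvPolynomial.eval z (P N))‖)]
    have h2 : ‖φ z * (G z - MvPolynomial.eval z (P N))‖ ^ 2 ≤
        C0 ^ 2 * C ^ 2 * (1 / 4) ^ N * Real.exp (2 * h z + 8 * ε * rh z) := by
      rw [norm_mul]
      have h3 : ‖φ z‖ * ‖G z - MvPolynomial.eval z (P N)‖ ≤
          (C0 * Real.exp (h z)) * ((1 / 2) ^ N * (C * Real.exp (4 * ε * rh z))) :=
        mul_le_mul (hφh z) (hPb N z) (norm_nonneg _) (by positivity)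
      refine (pow_le_pow_left₀ (by positivity) h3 2).trans (le_of_eq ?_)
      have e1 : Real.exp (2 * h z + 8 * ε * rh z) = Real.exp (h z) ^ 2 *
          Real.exp (4 * ε * rh z) ^ 2 := by
        rw [← Real.exp_nat_mul, ← Real.exp_nat_mul, ← Real.exp_add]
        congr 1
        push_cast
        ring
      have e2 : (1 / 4 : ℝ) ^ N = ((1 / 2) ^ N) ^ 2 := by
        rw [← pow_mul, mul_comm, pow_mul]
        norm_num
      rw [e1, e2]
      ring
    have h3 : Real.exp (2 * h z + 8 * ε * rh z) * Real.exp (-2 * h z - 9 * ε * rh z) =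
        Real.exp (-ε * rh z) := by
      rw [← Real.exp_add]
      congr 1
      ring
    have h4 : Real.exp (-2 * h z - 9 * ε * rh z) ≤ Real.exp (-2 * h z - 2 * ε * rh z) := by
      apply Real.exp_le_exp.2
      have := rh_pos z
      nlinarith
    calc _ ≤ (2 * ‖φ z * (G z - MvPolynomial.eval z (P N))‖ ^ 2 +
          2 * ‖φ z * (G z - χ z)‖ ^ 2) * Real.exp (-2 * h z - 9 * ε * rh z) :=
          mul_le_mul_of_nonneg_right h1 (Real.exp_pos _).le
      _ = 2 * (‖φ z * (G z - MvPolynomial.eval z (P N))‖ ^ 2 *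
          Real.exp (-2 * h z - 9 * ε * rh z)) +
          2 * (‖φ z * (G z - χ z)‖ ^ 2 * Real.exp (-2 * h z - 9 * ε * rh z)) := by ring
      _ ≤ 2 * ((C0 ^ 2 * C ^ 2 * (1 / 4) ^ N * Real.exp (2 * h z + 8 * ε * rh z)) *
          Real.exp (-2 * h z - 9 * ε * rh z)) +
          2 * (‖φ z * (G z - χ z)‖ ^ 2 * Real.exp (-2 * h z - 2 * ε * rh z)) := by
          have h5 := mul_le_mul_of_nonneg_right h2 (Real.exp_pos (-2 * h z - 9 * ε * rh z)).le
          have h6 := mul_le_mul_of_nonneg_left h4 (sq_nonneg ‖φ z * (G z - χ z)‖)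
          linarith
      _ = _ := by
          rw [mul_assoc (C0 ^ 2 * C ^ 2 * (1 / 4) ^ N), h3]
          ring
  have hbI : Integrable (fun z => 2 * C0 ^ 2 * C ^ 2 * (1 / 4) ^ N * Real.exp (-ε * rh z) +
      2 * (‖φ z * (G z - χ z)‖ ^ 2 * Real.exp (-2 * h z - 2 * ε * rh z))) :=
    (hes.const_mul _).add (hG2.const_mul _)
  have hPc : Continuous (fun z : En n => MvPolynomial.eval z (P N)) :=
    MvPolynomial.continuous_eval _
  have hmI : Integrable (fun z => ‖φ z * (MvPolynomial.eval z (P N) - χ z)‖ ^ 2 *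
      Real.exp (-2 * h z - 9 * ε * rh z)) := by
    refine hbI.mono' ?_ (Eventually.of_forall fun z => ?_)
    · apply Continuous.aestronglyMeasurable
      exact ((hφ.continuous.mul (hPc.sub hχ.continuous)).norm.pow 2).mul
        (Real.continuous_exp.comp ((continuous_const.mul hh).sub
          (continuous_const.mul rh_continuous)))
    · rw [Real.norm_of_nonneg (by positivity)]
      exact hpt z
  refine ⟨P N, hmI, ?_⟩
  calc _ ≤ ∫ z, (2 * C0 ^ 2 * C ^ 2 * (1 / 4) ^ N * Real.exp (-ε * rh z) +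
        2 * (‖φ z * (G z - χ z)‖ ^ 2 * Real.exp (-2 * h z - 2 * ε * rh z))) :=
        integral_mono hmI hbI hpt
    _ = 2 * C0 ^ 2 * C ^ 2 * (1 / 4) ^ N * I2 +
        2 * ∫ z, ‖φ z * (G z - χ z)‖ ^ 2 * Real.exp (-2 * h z - 2 * ε * rh z) := by
        rw [integral_add (hes.const_mul _) (hG2.const_mul _), integral_const_mul,
          integral_const_mul]
    _ < δ := by
        have e1 : 2 * C0 ^ 2 * C ^ 2 * (1 / 4) ^ N * I2 =
          2 * C0 ^ 2 * C ^ 2 * I2 * (1 / 4) ^ N := by ring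
        rw [e1]
        linarith

end Pool.Agent.TH239.CE
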