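import Pool.Agent.TH239.CE.TF
import Pool.Agent.TH239.CE.Pol
import Pool.Agent.TH480.J216
import Pool.Agent.TH73.J214
import Pool.Agent.H73R3.Hull

/-! The main theorem. -/

set_option autoImplicit false

open MeasureTheory Complex Filter Topology Metric
open scoped ContDiff ComplexConjugate InnerProductSpace

namespace Pool.Agent.TH239.CE

open BK

variable {n : ℕ}

theorem weightSt (n : ℕ) : WeightSt n := fun χ hχ A hA hχA ε hε hε1 =>
  TH480.J216.weight χ hχ A hA hχA ε hε hε1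

theorem poly_diff (P : MvPolynomial (Fin n) ℂ) :
    Differentiable ℂ (fun z : En n => MvPolynomial.eval z P) := by
  induction P using MvPolynomial.induction_on with
  | C a =>
    simp only [MvPolynomial.eval_C]
    exact differentiable_const a
  | add p q hp hq =>
    simp only [map_add]
    exact hp.add hq
  | mul_X p i hp =>
    simp only [map_mul, MvPolynomial.eval_X]
    exact hp.mul (differentiable_apply i)

theorem main {Ω : Set (En n)} (ho : IsOpen Ω) (hc : Convex ℝ Ω) (hne : Ω.Nonempty)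
    (T S : HolDual Ω) (hT : ∃ z, laplace T z ≠ 0) (χ : En n → ℂ) (hχ : Differentiable ℂ χ)
    (hTS : ∀ z, laplace S z = χ z * laplace T z) :
    ∃ (P : ℕ → MvPolynomial (Fin n) ℂ) (U : ℕ → HolDual Ω),
      (∀ k z, laplace (U k) z = MvPolynomial.eval z (P k) * laplace T z) ∧
      Tendsto U atTop (𝓝 S) := by
  obtain ⟨KT, hKT, CT, hCT, hbT⟩ := exists_bound T
  obtain ⟨KS, hKS, CS, hCS, hbS⟩ := exists_bound S
  obtain ⟨x0, hx0⟩ := hne
  set K : Set (En n) := insert x0 (Subtype.val '' KT ∪ Subtype.val '' KS) with hK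
  have hKc : IsCompact K := ((hKT.image continuous_subtype_val).union
    (hKS.image continuous_subtype_val)).insert x0
  have hKΩ : K ⊆ Ω := by
    rintro x (rfl | ⟨y, -, rfl⟩ | ⟨y, -, rfl⟩)
    · exact hx0
    · exact y.2
    · exact y.2
  set K1 := convexHull ℝ K with hK1
  have hK1c : IsCompact K1 := Pool.Agent.H73R3.compact_hull hKc
  have hK1Ω : K1 ⊆ Ω := convexHull_min hKΩ hc
  obtain ⟨δ0, hδ0, hδΩ⟩ := hK1c.exists_cthickening_subset_open ho hK1Ω
  set δ := δ0 / 2 with hδ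
  have hδpos : 0 < δ := by positivity
  have h2δ : 2 * δ = δ0 := by rw [hδ]; ring
  rw [← h2δ] at hδΩ
  -- the net
  obtain ⟨t0, ht0K, ht0f, ht0c⟩ := hKc.finite_cover_balls (show 0 < δ / (n + 1) by positivity)
  set t := ht0f.toFinset with ht
  have htmem : ∀ ξ, ξ ∈ t ↔ ξ ∈ t0 := fun ξ => ht0f.mem_toFinset
  have htne : t.Nonempty := by
    have h1 : x0 ∈ K := Set.mem_insert _ _
    obtain ⟨ξ, hξ, -⟩ := Set.mem_iUnion₂.1 (ht0c h1)
    exact ⟨ξ, (htmem ξ).2 hξ⟩
  have htK1 : ∀ ξ ∈ t, ξ ∈ K1 := fun ξ hξ => subset_convexHull ℝ K (ht0K ((htmem ξ).1 hξ))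
  obtain ⟨B, hB⟩ := hK1c.isBounded.exists_norm_le
  have hB' : ∀ ξ ∈ t, ‖ξ‖ ≤ B := fun ξ hξ => hB ξ (htK1 ξ hξ)
  have hB0 : 0 ≤ B := by
    obtain ⟨ξ, hξ⟩ := htne
    exact (norm_nonneg ξ).trans (hB' ξ hξ)
  -- the weight
  have hwt : ∀ ξ ∈ K, ∀ z, (pr z ξ).re ≤ h2 t δ z := by
    intro ξ hξ z
    obtain ⟨ξ', hξ', hd⟩ := Set.mem_iUnion₂.1 (ht0c hξ)
    have h3 := re_le_h1 htne ((htmem ξ').2 hξ') z
    have h4 : pr z ξ = pr z ξ' + pr z (ξ - ξ') := by
      unfold pr
      rw [← Finset.sum_add_distrib]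
      apply Finset.sum_congr rfl
      intro j _
      simp only [Pi.sub_apply]
      ring
    have h5 : (pr z (ξ - ξ')).re ≤ δ * rh z := by
      refine (Complex.re_le_norm _).trans ((pr_norm_le_eu _ _).trans ?_)
      have h6 : eu (ξ - ξ') ≤ δ := by
        refine (eu_le _).trans ?_
        rw [mem_ball, dist_eq_norm] at hd
        have h7 : (n : ℝ) * ‖ξ - ξ'‖ ≤ n * (δ / (n + 1)) :=
          mul_le_mul_of_nonneg_left hd.le (Nat.cast_nonneg n)
        refine h7.trans ?_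
        rw [mul_div_assoc', div_le_iff₀ (by positivity)]
        nlinarith
      rw [mul_comm δ]
      exact mul_le_mul (eu_le_rh z) h6 (eu_nonneg _) (rh_pos z).le
    rw [h4, Complex.add_re]
    unfold h2
    linarith
  have hexpo : ∀ z, ∀ ξ ∈ K, ‖cexp (∑ j, z j * ξ j)‖ ≤ Real.exp (h2 t δ z) := by
    intro z ξ hξ
    rw [Complex.norm_exp]
    exact Real.exp_le_exp.2 (hwt ξ hξ z)
  set C0 := max CT CS with hC0
  have hC00 : 0 ≤ C0 := hCT.trans (le_max_left _ _)
  set φ := laplace T with hφdef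
  have hφ : Differentiable ℂ φ := laplace_differentiable T
  have hφh : ∀ z, ‖φ z‖ ≤ C0 * Real.exp (h2 t δ z) := by
    intro z
    have h3 := hbT (expo Ω z) (Real.exp (h2 t δ z)) (Real.exp_pos _).le (fun ξ hξ => by
      rw [ev_expo]
      exact hexpo z ξ.1 (Set.mem_insert_of_mem _ (Or.inl ⟨ξ, hξ, rfl⟩)))
    exact h3.trans (mul_le_mul_of_nonneg_right (le_max_left _ _) (Real.exp_pos _).le)
  have hψh : ∀ z, ‖φ z * χ z‖ ≤ C0 * Real.exp (h2 t δ z) := by
    intro z
    have h3 := hbS (expo Ω z) (Real.exp (h2 t δ z)) (Real.exp_pos _).le (fun ξ hξ => by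
      rw [ev_expo]
      exact hexpo z ξ.1 (Set.mem_insert_of_mem _ (Or.inr ⟨ξ, hξ, rfl⟩)))
    have h4 : φ z * χ z = S (expo Ω z) := by
      have := hTS z
      rw [mul_comm]
      exact this.symm
    rw [h4]
    exact h3.trans (mul_le_mul_of_nonneg_right (le_max_right _ _) (Real.exp_pos _).le)
  -- exponential type
  set a1 := 1 / 2 * Real.log t.card + δ with ha1
  set a2 := n * B + δ * n with ha2
  have hcard : (1 : ℝ) ≤ t.card := by exact_mod_cast htne.card_pos
  have hlog : 0 ≤ Real.log t.card := Real.log_nonneg hcard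
  have ha20 : 0 ≤ a2 := by positivity
  have hexpt : ∀ z, h2 t δ z ≤ a1 + a2 * ‖z‖ := by
    intro z
    have h3 := h1_le htne hB' z
    have h4 := rh_le z
    have h5 := eu_le z
    have h6 : δ * rh z ≤ δ * (1 + n * ‖z‖) := mul_le_mul_of_nonneg_left (by linarith) hδpos.le
    unfold h2
    rw [ha1, ha2]
    linarith
  have hexpt2 : ∀ z, Real.exp (h2 t δ z) ≤ Real.exp a1 * Real.exp (a2 * ‖z‖) := by
    intro z
    rw [← Real.exp_add]
    exact Real.exp_le_exp.2 (hexpt z)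
  have hφA : ∀ z, ‖φ z‖ ≤ (C0 * Real.exp a1) * Real.exp (a2 * ‖z‖) := by
    intro z
    refine (hφh z).trans ?_
    rw [mul_assoc]
    exact mul_le_mul_of_nonneg_left (hexpt2 z) hC00
  have hψA : ∀ z, ‖φ z * χ z‖ ≤ (C0 * Real.exp a1) * Real.exp (a2 * ‖z‖) := by
    intro z
    refine (hψh z).trans ?_
    rw [mul_assoc]
    exact mul_le_mul_of_nonneg_left (hexpt2 z) hC00
  obtain ⟨C', A', hA', hχA'⟩ := TH73.J214.quot_exp φ χ hφ hχ hT _ _ hφA hψA
  set C1 := max C' 0 with hC1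
  have hC10 : 0 ≤ C1 := le_max_right _ _
  have hχ1 : ∀ z, ‖χ z‖ ≤ C1 * Real.exp (A' * ‖z‖) := fun z =>
    (hχA' z).trans (mul_le_mul_of_nonneg_right (le_max_left _ _) (Real.exp_pos _).le)
  set A := 1 + (1 / 2 * Real.log (1 + C1 ^ 2) + A') with hA
  have hlog1 : 0 ≤ Real.log (1 + C1 ^ 2) := Real.log_nonneg (by nlinarith)
  have hA1 : 1 ≤ A := by rw [hA]; linarith
  have hχW : ∀ z, 1 / 2 * Real.log (1 + ‖χ z‖ ^ 2) ≤ A * rh z := by
    intro z
    have h3 : 1 + ‖χ z‖ ^ 2 ≤ (1 + C1 ^ 2) * Real.exp (2 * A' * ‖z‖) := by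
      have h4 := pow_le_pow_left₀ (norm_nonneg _) (hχ1 z) 2
      rw [mul_pow, ← Real.exp_nat_mul] at h4
      have h5 : ((2 : ℕ) : ℝ) * (A' * ‖z‖) = 2 * A' * ‖z‖ := by push_cast; ring
      rw [h5] at h4
      have h6 : 1 ≤ Real.exp (2 * A' * ‖z‖) := Real.one_le_exp (by positivity)
      linarith
    have h4 := Real.log_le_log (by positivity) h3
    rw [Real.log_mul (by positivity) (Real.exp_pos _).ne', Real.log_exp] at h4
    have h5 := norm_le_rh z
    have h6 := rh_one_le z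
    have h7 : A' * ‖z‖ ≤ A' * rh z := mul_le_mul_of_nonneg_left h5 hA'
    have h8 : 1 / 2 * Real.log (1 + C1 ^ 2) ≤ 1 / 2 * Real.log (1 + C1 ^ 2) * rh z :=
      le_mul_of_one_le_right (by linarith) h6
    rw [hA]
    nlinarith
  -- `ε`
  set ε := min 1 (δ / 9) with hε
  have hεpos : 0 < ε := lt_min one_pos (by positivity)
  have hε1 : ε ≤ 1 := min_le_left _ _
  have hεδ : 9 * ε ≤ δ := by
    have : ε ≤ δ / 9 := min_le_right _ _
    linarith
  have hh2c : Continuous (h2 t δ) := by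
    unfold h2
    exact (h1_smooth htne).continuous.add (continuous_const.mul rh_continuous)
  -- polynomials
  have hP : ∀ k : ℕ, ∃ P : MvPolynomial (Fin n) ℂ,
      Integrable (fun z => ‖φ z * (MvPolynomial.eval z P - χ z)‖ ^ 2 *
        Real.exp (-2 * h2 t δ z - 9 * ε * rh z)) ∧
      ∫ z, ‖φ z * (MvPolynomial.eval z P - χ z)‖ ^ 2 *
        Real.exp (-2 * h2 t δ z - 9 * ε * rh z) < (1 / ((k : ℝ) + 1)) ^ 2 := fun k =>
    approx_poly (weightSt n) φ χ hφ hχ (h2 t δ) hh2c C0 hC00 hφh hψh A hA1 hχW ε hεpos hε1 _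
      (by positivity)
  choose P hP1 hP2 using hP
  -- the functionals
  obtain ⟨L, D, hL, hD, hfun⟩ := exists_functional hK1c (convex_convexHull ℝ K) hδpos hδΩ htne htK1
  set F : ℕ → En n → ℂ := fun k z => φ z * (χ z - MvPolynomial.eval z (P k)) with hF
  have hPd : ∀ k, Differentiable ℂ (fun z : En n => MvPolynomial.eval z (P k)) := fun k =>
    poly_diff (P k)
  have hFd : ∀ k, Differentiable ℂ (F k) := fun k => hφ.mul (hχ.sub (hPd k))
  have hFn : ∀ k z, ‖F k z‖ = ‖φ z * (MvPolynomial.eval z (P k) - χ z)‖ := by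
    intro k z
    rw [hF]
    simp only
    rw [norm_mul, norm_mul, norm_sub_rev]
  have hF1 : ∀ k, Integrable (fun w => ‖F k w‖ ^ 2 *
      Real.exp (-2 * h2 t δ w - 9 * ε * rh w)) := by
    intro k
    simp only [hFn]
    exact hP1 k
  have hF2 : ∀ k, ∫ w, ‖F k w‖ ^ 2 * Real.exp (-2 * h2 t δ w - 9 * ε * rh w) <
      (1 / ((k : ℝ) + 1)) ^ 2 := by
    intro k
    simp only [hFn]
    exact hP2 k
  have hFexp : ∀ k, ∃ C A : ℝ, ∀ w, ‖F k w‖ ≤ C * Real.exp (A * ‖w‖) := by
    intro k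
    set a := a1 + a2 + 5 * ε with ha
    have ha0 : 0 ≤ a := by
      rw [ha, ha1]
      positivity
    obtain ⟨C, hC, hb⟩ := pt_bound (F k) (hFd k) a ha0 (by
      refine (hF1 k).mono' ?_ (Eventually.of_forall fun x => ?_)
      · exact (((hFd k).continuous.norm.pow 2).mul (Real.continuous_exp.comp
          (continuous_const.mul rh_continuous))).aestronglyMeasurable
      · rw [Real.norm_of_nonneg (by positivity)]
        apply mul_le_mul_of_nonneg_left _ (sq_nonneg _)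
        apply Real.exp_le_exp.2
        have h3 := hexpt x
        have h4 := norm_le_rh x
        have h5 := rh_one_le x
        have h6 : a2 * ‖x‖ ≤ a2 * rh x := mul_le_mul_of_nonneg_left h4 ha20
        have h7 : a1 ≤ a1 * rh x := le_mul_of_one_le_right (by rw [ha1]; positivity) h5
        rw [ha]
        nlinarith)
    refine ⟨C * Real.exp a, a * n, fun w => (hb w).trans ?_⟩
    rw [mul_assoc, ← Real.exp_add]
    apply mul_le_mul_of_nonneg_left _ hC
    apply Real.exp_le_exp.2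
    have h4 := rh_le w
    have h5 := eu_le w
    have h6 : a * rh w ≤ a * (1 + n * ‖w‖) := mul_le_mul_of_nonneg_left (by linarith) ha0
    linarith
  have hV : ∀ k, ∃ V : HolDual Ω, (∀ z, laplace V z = F k z) ∧
        ∀ g : Hol Ω, ∀ M : ℝ, 0 ≤ M → (∀ z ∈ L, ‖ev g z‖ ≤ M) →
          ‖V g‖ ≤ D * (∫ w, ‖F k w‖ * Real.exp (-h2 t (2 * δ) w)) * M := by
    intro k
    obtain ⟨C, A, hCA⟩ := hFexp k
    exact hfun ε hεδ (F k) (hFd k) C A hCA (hF1 k)
  choose V hV1 hV2 using hV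
  set I0 := ∫ w : En n, Real.exp (-δ * rh w) with hI0
  refine ⟨P, fun k => S - V k, fun k z => ?_, ?_⟩
  · have h3 : laplace (S - V k) z = laplace S z - laplace (V k) z := rfl
    rw [h3, hV1, hTS, hF]
    simp only
    ring
  · apply tendsto_of_bound hL (fun k => S - V k) S
      (fun k => D * ((1 / 2 + 1 / 2 * I0) * (1 / ((k : ℝ) + 1))))
    · have h3 : Tendsto (fun k : ℕ => D * ((1 / 2 + 1 / 2 * I0) * (1 / ((k : ℝ) + 1)))) atTop
          (𝓝 (D * ((1 / 2 + 1 / 2 * I0) * 0))) :=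
        (tendsto_one_div_add_atTop_nhds_zero_nat.const_mul _).const_mul _
      simpa using h3
    · intro k g M hM hgM
      have h3 : (S - V k) g - S g = -(V k g) := by
        rw [sub_apply]
        ring
      rw [h3, norm_neg]
      refine (hV2 k g M hM hgM).trans ?_
      apply mul_le_mul_of_nonneg_right _ hM
      apply mul_le_mul_of_nonneg_left _ hD
      obtain ⟨-, h4⟩ := l1_l2 htne hδpos hεδ (F k) (hFd k).continuous (hF1 k)
      have hk : (0 : ℝ) < 1 / ((k : ℝ) + 1) := by positivity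
      refine (h4 (1 / ((k : ℝ) + 1)) hk).trans ?_
      have h5 := (hF2 k).le
      have h6 := mul_le_mul_of_nonneg_left h5 (show 0 ≤ 1 / (2 * (1 / ((k : ℝ) + 1))) by positivity)
      have h7 : 1 / (2 * (1 / ((k : ℝ) + 1))) * (1 / ((k : ℝ) + 1)) ^ 2 =
          1 / 2 * (1 / ((k : ℝ) + 1)) := by
        field_simp
      rw [h7] at h6
      rw [← hI0]
      linarith

end Pool.Agent.TH239.CE
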