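import Pool.Agent.TH239.CE.Fun
import Pool.Agent.TH239.CE.Lse
import Pool.Agent.TH241.J218
import Pool.Agent.TH480.J217

/-! The functional with a given Laplace transform (Ehrenpreis–Martineau with estimates, via the
Berndtsson–Andersson formula). -/

set_option autoImplicit false

open MeasureTheory Complex Filter Topology Metric
open scoped ContDiff ComplexConjugate InnerProductSpace

namespace Pool.Agent.TH239.CE

open BK

variable {n : ℕ}

theorem ba' (Q : En n → En n) (hQ : ContDiff ℝ ∞ Q) (B : ℝ) (hQB : ∀ w, ‖Q w‖ ≤ B)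
    (hJ : ∀ w j k, ‖TH241.J218.JM Q w j k‖ ≤ B) (F : En n → ℂ) (hF : Differentiable ℂ F) (C A : ℝ)
    (hFA : ∀ w, ‖F w‖ ≤ C * Real.exp (A * ‖w‖)) (z : En n)
    (hint : Integrable (fun w => (1 + ‖w‖) * ‖F w * cexp (∑ j, Q w j * (z j - w j))‖)) :
    ∫ w, F w * cexp (∑ j, Q w j * (z j - w j)) * (TH241.J218.JM Q w).det =
      (Real.pi : ℂ) ^ n * F z :=
  TH241.J218.ba (fun Q hQ u hu E hE w => TH480.J217.piola Q hQ u hu E hE w) Q hQ B hQB hJ F hF C A
    hFA z hint

/-- bounds of the weighted `L¹` norm by the weighted `L²` norm -/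
theorem l1_l2 {t : Finset (En n)} (ht : t.Nonempty) {δ ε : ℝ} (hδ : 0 < δ) (hε : 9 * ε ≤ δ)
    (F : En n → ℂ) (hF : Continuous F)
    (hi : Integrable (fun w => ‖F w‖ ^ 2 * Real.exp (-2 * h2 t δ w - 9 * ε * rh w))) :
    Integrable (fun w => (1 + ‖w‖) * ‖F w‖ * Real.exp (-h2 t (2 * δ) w)) ∧
    ∀ s : ℝ, 0 < s → ∫ w, ‖F w‖ * Real.exp (-h2 t (2 * δ) w) ≤
      1 / (2 * s) * (∫ w, ‖F w‖ ^ 2 * Real.exp (-2 * h2 t δ w - 9 * ε * rh w)) +
      s / 2 * ∫ w : En n, Real.exp (-δ * rh w) := by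
  have hh2c : ∀ d : ℝ, Continuous (h2 t d) := fun d => by
    unfold h2
    exact (h1_smooth ht).continuous.add (continuous_const.mul rh_continuous)
  have key : ∀ (s : ℝ), 0 < s → ∀ (a : ℝ), 0 ≤ a → ∀ w, a * (‖F w‖ * Real.exp (-h2 t (2 * δ) w)) ≤
      1 / (2 * s) * (‖F w‖ ^ 2 * Real.exp (-2 * h2 t δ w - 9 * ε * rh w)) +
        s / 2 * (a ^ 2 * Real.exp (-δ * rh w)) := by
    intro s hs a ha w
    set X := ‖F w‖ * Real.exp (-h2 t δ w - 9 / 2 * ε * rh w) with hX
    set Y := a * Real.exp (-(δ - 9 / 2 * ε) * rh w) with hY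
    have e1 : a * (‖F w‖ * Real.exp (-h2 t (2 * δ) w)) = X * Y := by
      have : Real.exp (-h2 t (2 * δ) w) = Real.exp (-h2 t δ w - 9 / 2 * ε * rh w) *
          Real.exp (-(δ - 9 / 2 * ε) * rh w) := by
        rw [← Real.exp_add]
        congr 1
        unfold h2
        ring
      rw [this, hX, hY]
      ring
    have e2 : ‖F w‖ ^ 2 * Real.exp (-2 * h2 t δ w - 9 * ε * rh w) = X ^ 2 := by
      rw [hX, mul_pow, ← Real.exp_nat_mul]
      congr 2
      push_cast
      ring
    have e3 : Y ^ 2 ≤ a ^ 2 * Real.exp (-δ * rh w) := by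
      rw [hY, mul_pow, ← Real.exp_nat_mul]
      apply mul_le_mul_of_nonneg_left _ (sq_nonneg _)
      apply Real.exp_le_exp.2
      have := rh_pos w
      push_cast
      nlinarith
    rw [e1, e2]
    have h5 : X * Y ≤ 1 / (2 * s) * X ^ 2 + s / 2 * Y ^ 2 := by
      have h6 : 0 ≤ (X - s * Y) ^ 2 / (2 * s) := by positivity
      have h7 : (X - s * Y) ^ 2 / (2 * s) = 1 / (2 * s) * X ^ 2 + s / 2 * Y ^ 2 - X * Y := by
        field_simp
        ring
      linarith
    have h6 := mul_le_mul_of_nonneg_left e3 (show 0 ≤ s / 2 by positivity)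
    linarith
  have hFm : ∀ d : ℝ, Continuous (fun w => ‖F w‖ * Real.exp (-h2 t d w)) := fun d =>
    hF.norm.mul (Real.continuous_exp.comp (hh2c d).neg)
  have hes : Integrable (fun x : En n => Real.exp (-δ * rh x)) := int_exp_rh δ hδ
  constructor
  · -- `(1+‖w‖)²` absorbed
    have hb : ∀ w : En n, (1 + ‖w‖) ^ 2 * Real.exp (-δ * rh w) ≤
        4 * (2 / δ) * (4 / δ) * Real.exp (-(δ / 4) * rh w) := by
      intro w
      have hr := rh_one_le w
      have hr2 := norm_le_rh w
      have a1 : (1 + ‖w‖) ^ 2 ≤ 4 * rh w ^ 2 := by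
        have : 1 + ‖w‖ ≤ 2 * rh w := by linarith
        have h3 := pow_le_pow_left₀ (by positivity) this 2
        linarith [h3]
      have a2 := rh_exp_le (δ / 2) (by positivity) (rh w)
      have a3 := rh_exp_le (δ / 4) (by positivity) (rh w)
      have e1 : -(2 * (δ / 2)) * rh w = -δ * rh w := by ring
      have e2 : -(2 * (δ / 4)) * rh w = -(δ / 2) * rh w := by ring
      rw [e1] at a2
      rw [e2] at a3
      have e3 : 1 / (δ / 2) = 2 / δ := by field_simp
      have e4 : 1 / (δ / 4) = 4 / δ := by field_simp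
      rw [e3] at a2
      rw [e4] at a3
      calc (1 + ‖w‖) ^ 2 * Real.exp (-δ * rh w) ≤ 4 * rh w ^ 2 * Real.exp (-δ * rh w) :=
            mul_le_mul_of_nonneg_right a1 (Real.exp_pos _).le
        _ = 4 * rh w * (rh w * Real.exp (-δ * rh w)) := by ring
        _ ≤ 4 * rh w * (2 / δ * Real.exp (-(δ / 2) * rh w)) :=
            mul_le_mul_of_nonneg_left a2 (by linarith)
        _ = 4 * (2 / δ) * (rh w * Real.exp (-(δ / 2) * rh w)) := by ring
        _ ≤ 4 * (2 / δ) * (4 / δ * Real.exp (-(δ / 4) * rh w)) :=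
            mul_le_mul_of_nonneg_left a3 (by positivity)
        _ = _ := by ring
    have hI4 : Integrable (fun x : En n => Real.exp (-(δ / 4) * rh x)) :=
      int_exp_rh (δ / 4) (by positivity)
    refine ((hi.const_mul (1 / (2 * 1))).add (hI4.const_mul (1 / 2 * (4 * (2 / δ) * (4 / δ))))).mono'
      ?_ (Eventually.of_forall fun w => ?_)
    · apply Continuous.aestronglyMeasurable
      exact ((continuous_const.add continuous_norm).mul hF.norm).mul
        (Real.continuous_exp.comp (hh2c _).neg)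
    · rw [Real.norm_of_nonneg (by positivity)]
      have k1 := key 1 one_pos (1 + ‖w‖) (by positivity) w
      have k2 := mul_le_mul_of_nonneg_left (hb w) (show (0:ℝ) ≤ 1 / 2 by norm_num)
      simp only [Pi.add_apply]
      linarith
  · intro s hs
    have hi1 : Integrable (fun w => ‖F w‖ * Real.exp (-h2 t (2 * δ) w)) := by
      refine ((hi.const_mul (1 / (2 * s))).add (hes.const_mul (s / 2))).mono'
        (hFm _).aestronglyMeasurable (Eventually.of_forall fun w => ?_)
      rw [Real.norm_of_nonneg (by positivity)]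
      have k1 := key s hs 1 zero_le_one w
      simp only [Pi.add_apply]
      linarith
    rw [← integral_const_mul, ← integral_const_mul, ← integral_add (hi.const_mul _)
      (hes.const_mul _)]
    apply integral_mono hi1 ((hi.const_mul _).add (hes.const_mul _))
    intro w
    have k1 := key s hs 1 zero_le_one w
    simp only [Pi.add_apply]
    linarith

/-- **the functional** `T_F` -/
theorem exists_functional {Ω : Set (En n)} {K1 : Set (En n)} (hK1 : IsCompact K1)
    (hK1c : Convex ℝ K1) {δ : ℝ} (hδ : 0 < δ) (hΩ : cthickening (2 * δ) K1 ⊆ Ω)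
    {t : Finset (En n)} (ht : t.Nonempty) (htK : ∀ ξ ∈ t, ξ ∈ K1) :
    ∃ (L : Set Ω) (D : ℝ), IsCompact L ∧ 0 ≤ D ∧ ∀ (ε : ℝ), 9 * ε ≤ δ → ∀ (F : En n → ℂ),
      Differentiable ℂ F → ∀ C A : ℝ, (∀ w, ‖F w‖ ≤ C * Real.exp (A * ‖w‖)) →
      Integrable (fun w => ‖F w‖ ^ 2 * Real.exp (-2 * h2 t δ w - 9 * ε * rh w)) →
      ∃ V : HolDual Ω, (∀ z, laplace V z = F z) ∧
        ∀ g : Hol Ω, ∀ M : ℝ, 0 ≤ M → (∀ z ∈ L, ‖ev g z‖ ≤ M) →
          ‖V g‖ ≤ D * (∫ w, ‖F w‖ * Real.exp (-h2 t (2 * δ) w)) * M := by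
  set Q := QQ t (2 * δ) with hQdef
  have hd : 0 ≤ 2 * δ := by positivity
  have hQs : ContDiff ℝ ∞ Q := QQ_smooth ht _
  have hQmem : ∀ w, Q w ∈ cthickening (2 * δ) K1 := by
    intro w
    apply mem_cthickening_of_dist_le (Q w) (Q1 t w) (2 * δ) K1 (Q1_mem ht hK1c htK w)
    exact QQ_dist t hd w
  obtain ⟨B0, hB0⟩ := hK1.isBounded.exists_norm_le
  have hB0' : ∀ ξ ∈ t, ‖ξ‖ ≤ B0 := fun ξ hξ => hB0 ξ (htK ξ hξ)
  have hLc : IsCompact (cthickening (2 * δ) K1) := hK1.cthickening
  obtain ⟨B1, hB1⟩ := hLc.isBounded.exists_norm_le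
  set B := max B1 (t.card * (4 * n * B0 * B0) + 2 * δ * (1 + n)) with hB
  have hQB : ∀ w, ‖Q w‖ ≤ B := fun w => (hB1 _ (hQmem w)).trans (le_max_left _ _)
  have hJ : ∀ w j k, ‖TH241.J218.JM Q w j k‖ ≤ B := by
    intro w j k
    refine le_trans ?_ (le_max_right _ _)
    exact QQ_fderiv_le ht hB0' hd j k w
  obtain ⟨D0, hD0, hdet⟩ := TH241.J218.det_bound (n := n) B
  have hdetc : Continuous (fun w => (TH241.J218.JM Q w).det) :=
    (TH241.J218.det_smooth fun i j => TH241.J218.JM_elem_smooth hQs i j).continuous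
  -- the compact set
  let L : Set Ω := Subtype.val ⁻¹' (cthickening (2 * δ) K1)
  have hL : IsCompact L := by
    rw [Subtype.isCompact_iff, Subtype.image_preimage_coe, Set.inter_eq_right.2 hΩ]
    exact hLc
  have hpi : (Real.pi : ℂ) ^ n ≠ 0 := pow_ne_zero _ (by exact_mod_cast Real.pi_ne_zero)
  have hpin : ‖(Real.pi : ℂ) ^ n‖ = Real.pi ^ n := by
    rw [norm_pow, Complex.norm_real, Real.norm_of_nonneg Real.pi_pos.le]
  refine ⟨L, (Real.pi ^ n)⁻¹ * (Real.exp (h2 t (2 * δ) 0) * D0), hL, by positivity, ?_⟩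
  intro ε hε F hF C A hFA hFi
  obtain ⟨hI1, -⟩ := l1_l2 ht hδ hε F hF.continuous hFi
  have hh2c : ∀ d : ℝ, Continuous (h2 t d) := fun d => by
    unfold h2
    exact (h1_smooth ht).continuous.add (continuous_const.mul rh_continuous)
  have hI2 : Integrable (fun w => ‖F w‖ * Real.exp (-h2 t (2 * δ) w)) := by
    refine hI1.mono' ?_ (Eventually.of_forall fun w => ?_)
    · exact (hF.continuous.norm.mul (Real.continuous_exp.comp (hh2c _).neg)).aestronglyMeasurable
    · rw [Real.norm_of_nonneg (by positivity)]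
      have h3 : 0 ≤ ‖w‖ * (‖F w‖ * Real.exp (-h2 t (2 * δ) w)) := by positivity
      linarith
  -- the kernel
  let k : En n → ℂ := fun w => ((Real.pi : ℂ) ^ n)⁻¹ *
    (F w * cexp (∑ j, Q w j * (0 - w j)) * (TH241.J218.JM Q w).det)
  have hkc : Continuous k := by
    apply continuous_const.mul
    apply Continuous.mul _ hdetc
    apply hF.continuous.mul
    apply Complex.continuous_exp.comp
    exact continuous_finsetSum _ fun j _ => ((continuous_apply j).comp hQs.continuous).mul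
      (continuous_const.sub (continuous_apply j))
  have hkb : ∀ w, ‖k w‖ ≤ (Real.pi ^ n)⁻¹ * (Real.exp (h2 t (2 * δ) 0) * D0) *
      (‖F w‖ * Real.exp (-h2 t (2 * δ) w)) := by
    intro w
    have h3 : ‖cexp (∑ j, Q w j * (0 - w j))‖ ≤ Real.exp (h2 t (2 * δ) 0) *
        Real.exp (-h2 t (2 * δ) w) := by
      rw [Complex.norm_exp, ← Real.exp_add]
      apply Real.exp_le_exp.2
      have := h2_convex ht hd 0 w
      simp only [Pi.zero_apply] at this
      linarith
    have h4 := (hdet (TH241.J218.JM Q w) (hJ w)).1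
    show ‖((Real.pi : ℂ) ^ n)⁻¹ * (F w * cexp (∑ j, Q w j * (0 - w j)) *
      (TH241.J218.JM Q w).det)‖ ≤ _
    rw [norm_mul, norm_inv, hpin, norm_mul, norm_mul, mul_assoc (Real.pi ^ n)⁻¹]
    apply mul_le_mul_of_nonneg_left _ (by positivity)
    calc ‖F w‖ * ‖cexp (∑ j, Q w j * (0 - w j))‖ * ‖(TH241.J218.JM Q w).det‖ ≤
          ‖F w‖ * (Real.exp (h2 t (2 * δ) 0) * Real.exp (-h2 t (2 * δ) w)) * D0 := by
          apply mul_le_mul _ h4 (norm_nonneg _) (by positivity)
          exact mul_le_mul_of_nonneg_left h3 (norm_nonneg _)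
      _ = _ := by ring
  have hki : Integrable k := (hI2.const_mul _).mono' hkc.aestronglyMeasurable
    (Eventually.of_forall hkb)
  -- evaluation along `Q`
  let Qm : En n → Ω := fun w => ⟨Q w, hΩ (hQmem w)⟩
  have hQmc : Continuous Qm := Continuous.subtype_mk hQs.continuous _
  have hQmL : ∀ w, Qm w ∈ L := fun w => hQmem w
  have hbd : ∀ g : Hol Ω, ∃ M : ℝ, 0 ≤ M ∧ ∀ z ∈ L, ‖ev g z‖ ≤ M := by
    intro g
    obtain ⟨M, hM⟩ := hL.exists_bound_of_continuousOn (ev_continuous g).continuousOn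
    exact ⟨max M 0, le_max_right _ _, fun z hz => (hM z hz).trans (le_max_left _ _)⟩
  have hgi : ∀ g : Hol Ω, Integrable (fun w => ev g (Qm w) * k w) := by
    intro g
    obtain ⟨M, hM0, hM⟩ := hbd g
    refine (hki.norm.const_mul M).mono' (((ev_continuous g).comp hQmc).mul hkc).aestronglyMeasurable
      (Eventually.of_forall fun w => ?_)
    rw [norm_mul]
    exact mul_le_mul_of_nonneg_right (hM _ (hQmL w)) (norm_nonneg _)
  let V0 : Hol Ω →ₗ[ℂ] ℂ :=
    { toFun := fun g => ∫ w, ev g (Qm w) * k w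
      map_add' := by
        intro f g
        rw [← integral_add (hgi f) (hgi g)]
        congr 1
        funext w
        rw [ev_add]
        ring
      map_smul' := by
        intro c g
        rw [RingHom.id_apply, smul_eq_mul, ← integral_const_mul]
        congr 1
        funext w
        rw [ev_smul]
        ring }
  have hV0 : ∀ g : Hol Ω, ∀ M : ℝ, 0 ≤ M → (∀ z ∈ L, ‖ev g z‖ ≤ M) →
      ‖V0 g‖ ≤ (Real.pi ^ n)⁻¹ * (Real.exp (h2 t (2 * δ) 0) * D0) *
        (∫ w, ‖F w‖ * Real.exp (-h2 t (2 * δ) w)) * M := by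
    intro g M hM hgM
    have h3 : ∀ w, ‖ev g (Qm w) * k w‖ ≤ M * ((Real.pi ^ n)⁻¹ * (Real.exp (h2 t (2 * δ) 0) * D0) *
      (‖F w‖ * Real.exp (-h2 t (2 * δ) w))) := by
      intro w
      rw [norm_mul]
      exact mul_le_mul (hgM _ (hQmL w)) (hkb w) (norm_nonneg _) hM
    refine (norm_integral_le_of_norm_le ((hI2.const_mul _).const_mul M)
      (Eventually.of_forall h3)).trans (le_of_eq ?_)
    rw [integral_const_mul, integral_const_mul]
    ring
  have hVc : Continuous V0 := continuous_of_bound V0 hL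
    (C := (Real.pi ^ n)⁻¹ * (Real.exp (h2 t (2 * δ) 0) * D0) *
        (∫ w, ‖F w‖ * Real.exp (-h2 t (2 * δ) w)))
    (mul_nonneg (by positivity) (integral_nonneg fun w => by positivity)) hV0
  refine ⟨⟨V0, hVc⟩, ?_, hV0⟩
  intro z
  have e1 : laplace (⟨V0, hVc⟩ : HolDual Ω) z = ∫ w, ((Real.pi : ℂ) ^ n)⁻¹ *
      (F w * cexp (∑ j, Q w j * (z j - w j)) * (TH241.J218.JM Q w).det) := by
    show ∫ w, ev (expo Ω z) (Qm w) * k w = _
    congr 1
    funext w
    rw [ev_expo]
    show cexp (∑ j, z j * Q w j) * (((Real.pi : ℂ) ^ n)⁻¹ *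
      (F w * cexp (∑ j, Q w j * (0 - w j)) * (TH241.J218.JM Q w).det)) = _
    have e2 : cexp (∑ j, Q w j * (z j - w j)) = cexp (∑ j, z j * Q w j) *
        cexp (∑ j, Q w j * (0 - w j)) := by
      rw [← Complex.exp_add, ← Finset.sum_add_distrib]
      congr 1
      apply Finset.sum_congr rfl
      intro j _
      ring
    rw [e2]
    ring
  rw [e1, integral_const_mul, ba' Q hQs B hQB hJ F hF C A hFA z ?_]
  · field_simp
  · have h3 : ∀ w, (1 + ‖w‖) * ‖F w * cexp (∑ j, Q w j * (z j - w j))‖ ≤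
        Real.exp (h2 t (2 * δ) z) * ((1 + ‖w‖) * ‖F w‖ * Real.exp (-h2 t (2 * δ) w)) := by
      intro w
      have h4 : ‖cexp (∑ j, Q w j * (z j - w j))‖ ≤ Real.exp (h2 t (2 * δ) z) *
          Real.exp (-h2 t (2 * δ) w) := by
        rw [Complex.norm_exp, ← Real.exp_add]
        apply Real.exp_le_exp.2
        have := h2_convex ht hd z w
        linarith
      rw [norm_mul]
      calc (1 + ‖w‖) * (‖F w‖ * ‖cexp (∑ j, Q w j * (z j - w j))‖) ≤
            (1 + ‖w‖) * (‖F w‖ * (Real.exp (h2 t (2 * δ) z) *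
              Real.exp (-h2 t (2 * δ) w))) := by
            apply mul_le_mul_of_nonneg_left _ (by positivity)
            exact mul_le_mul_of_nonneg_left h4 (norm_nonneg _)
        _ = _ := by ring
    refine (hI1.const_mul (Real.exp (h2 t (2 * δ) z))).mono' ?_ (Eventually.of_forall fun w => ?_)
    · apply Continuous.aestronglyMeasurable
      apply (continuous_const.add continuous_norm).mul
      apply Continuous.norm
      apply hF.continuous.mul
      apply Complex.continuous_exp.comp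
      exact continuous_finsetSum _ fun j _ => ((continuous_apply j).comp hQs.continuous).mul
        (continuous_const.sub (continuous_apply j))
    · rw [Real.norm_of_nonneg (by positivity)]
      exact h3 w

end Pool.Agent.TH239.CE
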